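import Pool.Agent.W_a4f561_h25.DwA

/-!
MP_a4f561_co, part B (drawing side), 2: the sweep of a drawing; `GoalB`.
-/

set_option autoImplicit false

namespace Pool.Agent.W_a4f561_h25

open Sum Pool.Agent.W_a4f561_h73

variable {V : Type} {A : V → V → Prop}

/-- The state of the sweep after the vertices `dn`. -/
structure Sw (D : Drw V A) (dn : V → Prop) (S : Set (Option V ⊕ EE V)) (L : List (V × V))
    (W : List (EE V)) (hd : EE V → Option V)
    (lo ro : Option V ⊕ EE V → Option V ⊕ EE V → Prop) : Prop where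
  inv : Inv tlE hd S W lo ro
  alt : Alt L W
  pw : L.Pairwise (Rt D)
  s0 : inl none ∈ S
  sv : ∀ u : V, inl (some u) ∈ S ↔ dn u
  se : ∀ e : V × V, inr (inl e) ∈ S ↔ (A e.1 e.2 ∧ dn e.1)
  lv : ∀ e, e ∈ L ↔ Lv A dn e
  hd : ∀ e : V × V, hd (inl e) = some e.2

theorem sw_init (D : Drw V A) : ∃ S L W hd lo ro, Sw D (fun _ => False) S L W hd lo ro := by
  obtain ⟨lo, ro, H⟩ := inv_init (tlE (V := V)) hd0 (inr (none, 0))
  refine ⟨_, [], _, hd0, lo, ro, ⟨H, Alt.nil _, List.Pairwise.nil, nw_v, ?_, ?_, ?_, fun _ => rfl⟩⟩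
  · intro u
    refine ⟨fun h => ?_, fun h => h.elim⟩
    have := nw_v' h
    cases this
  · intro e
    refine ⟨fun h => ?_, fun h => h.2.elim⟩
    have := nw_e' h
    simp at this
  · intro e
    refine ⟨fun h => ?_, fun h => h.2.1.elim⟩
    simp at h

theorem sw_step [Fintype V] {D : Drw V A} {dn : V → Prop} {S : Set (Option V ⊕ EE V)}
    {L : List (V × V)} {W : List (EE V)} {hd : EE V → Option V}
    {lo ro : Option V ⊕ EE V → Option V ⊕ EE V → Prop} (H : Sw D dn S L W hd lo ro) {v : V}
    (hv : Cur D dn v) :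
    ∃ S' L' W' hd' lo' ro', Sw D (fun u => dn u ∨ u = v) S' L' W' hd' lo' ro' := by
  classical
  have hk : L.Pairwise (fun e f => D.X e.1 e.2 (D.y v) ≤ D.X f.1 f.2 (D.y v)) := by
    refine (List.Pairwise.and_mem.1 H.pw).imp ?_
    rintro e f ⟨he, hf, hef⟩
    exact hv.mono ((H.lv e).1 he) ((H.lv f).1 hf) hef
  obtain ⟨LA, LB, LC, rfl, hA, hB, hC⟩ :=
    split_key (fun e : V × V => D.X e.1 e.2 (D.y v)) (D.x v) L hk
  obtain ⟨WA, WB, WC, rfl, hWB, hF⟩ := Alt.split LA W H.alt
  obtain ⟨LO, hO1, hO2, hO3⟩ := exists_out D v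
  have hvS : (inl (some v) : Option V ⊕ EE V) ∉ S := fun h => hv.nd ((H.sv v).1 h)
  have hLO : ∀ e, inl e ∈ mkW (some v) 0 LO ↔ e.1 = v ∧ A v e.2 := fun e => by
    rw [(mk_alt (some v) LO 0).mem, hO2]
  obtain ⟨hd', lo', ro', H', h1, h2⟩ := H.inv.step (O := mkW (some v) 0 LO) (v := some v) hWB.ne
    hvS (mk_alt _ LO 0).ne (mk_nodup _ LO 0 hO1) (mk_tl v LO 0 fun e he => ((hO2 e).1 he).1)
  have lvA : ∀ e ∈ LA, Lv A dn e := fun e he => (H.lv e).1 (by simp [he])
  have lvB : ∀ e ∈ LB, Lv A dn e := fun e he => (H.lv e).1 (by simp [he])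
  have lvC : ∀ e ∈ LC, Lv A dn e := fun e he => (H.lv e).1 (by simp [he])
  have hpw := H.pw
  rw [List.pairwise_append, List.pairwise_append] at hpw
  refine ⟨_, LA ++ LO ++ LC, _, hd', lo', ro', ⟨H', hF _ _ (mk_alt _ LO 0), ?_, Or.inl H.s0, ?_, ?_,
    ?_, ?_⟩⟩
  · -- pairwise
    rw [List.pairwise_append, List.pairwise_append]
    refine ⟨⟨hpw.1.1, hO3, ?_⟩, hpw.2.1, ?_⟩
    · intro e he o ho
      obtain ⟨o1, o2⟩ := (hO2 o).1 ho
      have h3 := hv.left (lvA e he) (hA e he) o2
      rwa [← o1] at h3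
    · intro e he f hf
      rcases List.mem_append.1 he with he | he
      · exact hpw.2.2 e (List.mem_append_left _ he) f hf
      · obtain ⟨o1, o2⟩ := (hO2 e).1 he
        have h3 := hv.right (lvC f hf) (hC f hf) o2
        rwa [← o1] at h3
  · -- vertices
    intro u
    constructor
    · rintro (h | h)
      · exact Or.inl ((H.sv u).1 h)
      · have := nw_v' h
        cases this
        exact Or.inr rfl
    · rintro (h | rfl)
      · exact Or.inl ((H.sv u).2 h)
      · exact Or.inr nw_v
  · -- edges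
    intro e
    constructor
    · rintro (h | h)
      · exact ⟨((H.se e).1 h).1, Or.inl ((H.se e).1 h).2⟩
      · have h3 := (hLO e).1 (nw_e' h)
        exact ⟨by rw [h3.1]; exact h3.2, Or.inr h3.1⟩
    · rintro ⟨h3, h4 | h4⟩
      · exact Or.inl ((H.se e).2 ⟨h3, h4⟩)
      · refine Or.inr (nw_e ((hLO e).2 ⟨h4, ?_⟩))
        rwa [h4] at h3
  · -- live edges
    intro e
    constructor
    · intro h
      rcases List.mem_append.1 h with h | h
      · rcases List.mem_append.1 h with h | h
        · have h3 := lvA e h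
          refine ⟨h3.1, Or.inl h3.2.1, ?_⟩
          rintro (h4 | h4)
          · exact h3.2.2 h4
          · have := (hv.key h3).2 h4
            have := hA e h
            linarith
        · obtain ⟨o1, o2⟩ := (hO2 e).1 h
          refine ⟨by rw [o1]; exact o2, Or.inr o1, ?_⟩
          have h5 := D.up _ _ o2
          rintro (h4 | h4)
          · have := (hv.lo _ h4).le
            linarith
          · rw [h4] at h5
            exact lt_irrefl _ h5
      · have h3 := lvC e h
        refine ⟨h3.1, Or.inl h3.2.1, ?_⟩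
        rintro (h4 | h4)
        · exact h3.2.2 h4
        · have := (hv.key h3).2 h4
          have := hC e h
          linarith
    · rintro ⟨h3, h4, h5⟩
      rcases h4 with h4 | h4
      · have h6 : Lv A dn e := ⟨h3, h4, fun h => h5 (Or.inl h)⟩
        have h7 := (H.lv e).2 h6
        rcases List.mem_append.1 h7 with h | h
        · rcases List.mem_append.1 h with h | h
          · simp [h]
          · exact absurd (Or.inr ((hv.key h6).1 (hB e h))) h5
        · simp [h]
      · have h6 : e ∈ LO := (hO2 e).2 ⟨h4, by rwa [h4] at h3⟩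
        simp [h6]
  · -- heads
    intro e
    by_cases h : inl e ∈ WB
    · rw [h1 _ h]
      have h3 : e ∈ LB := (hWB.mem e).1 h
      rw [(hv.key (lvB e h3)).1 (hB e h3)]
    · rw [h2 _ h]
      exact H.hd e

/-- Part B: a drawing gives a planar st-structure. -/
theorem goalB (V : Type) [Fintype V] (A : V → V → Prop) (D : Drw V A) :
    ∃ (V2 E : Type) (_ : Fintype V2) (_ : Fintype E) (P : Pl V2 E) (i : V → V2)
      (j : {p : V × V // A p.1 p.2} → E), Function.Injective i ∧
      (∀ p, P.tl (j p) = i p.1.1 ∧ P.hd (j p) = i p.1.2) ∧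
      Fintype.card V2 ≤ Fintype.card V + 2 := by
  classical
  obtain ⟨l, _, hl2, hl3⟩ := exists_sorted (Finset.univ : Finset V)
    (fun v => (toLex (D.y v, D.x v) : ℝ ×ₗ ℝ)) (by
      intro a _ b _ h
      have h' := toLex.injective h
      exact D.inj a b (Prod.mk.inj h').2 (Prod.mk.inj h').1)
  have hkl : l.Pairwise (Kl D) := by
    refine hl3.imp ?_
    intro a b h
    rw [Prod.Lex.toLex_lt_toLex] at h
    exact h
  have hall : ∀ v, v ∈ l := fun v => (hl2 v).2 (Finset.mem_univ v)
  have main : ∀ rest dn : List V, dn ++ rest = l →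
      (∃ S L W hd lo ro, Sw D (fun u => u ∈ dn) S L W hd lo ro) →
      ∃ S L W hd lo ro, Sw D (fun _ => True) S L W hd lo ro := by
    intro rest
    induction rest with
    | nil =>
      rintro dn h ⟨S, L, W, hd, lo, ro, H⟩
      rw [List.append_nil] at h
      have h1 : (fun u => u ∈ dn) = fun _ => True := by
        funext u
        rw [h]
        exact propext ⟨fun _ => trivial, fun _ => hall u⟩
      rw [h1] at H
      exact ⟨S, L, W, hd, lo, ro, H⟩
    | cons v rest ih =>
      rintro dn h ⟨S, L, W, hd, lo, ro, H⟩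
      have hk := hkl
      rw [← h, List.pairwise_append, List.pairwise_cons] at hk
      have hcur : Cur D (fun u => u ∈ dn) v := by
        refine ⟨fun hv => ?_, fun u hu => hk.2.2 u hu v (by simp), ?_⟩
        · rcases hk.2.2 v hv v (by simp) with h1 | h1
          · exact lt_irrefl _ h1
          · exact lt_irrefl _ h1.2
        · intro w hw hne
          have h1 := hall w
          rw [← h, List.mem_append, List.mem_cons] at h1
          rcases h1 with h1 | h1 | h1
          · exact absurd h1 hw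
          · exact absurd h1 hne
          · exact hk.2.1.1 w h1
      obtain ⟨S', L', W', hd', lo', ro', H'⟩ := sw_step H hcur
      refine ih (dn ++ [v]) (by simp [h]) ⟨S', L', W', hd', lo', ro', ?_⟩
      have h1 : (fun u => u ∈ dn ++ [v]) = fun u => u ∈ dn ∨ u = v := by
        funext u
        simp
      rw [h1]
      exact H'
  obtain ⟨S, L, W, hd, lo, ro, H⟩ := main l [] rfl (by
    obtain ⟨S, L, W, hd, lo, ro, H⟩ := sw_init D
    refine ⟨S, L, W, hd, lo, ro, ?_⟩
    have h1 : (fun u : V => u ∈ ([] : List V)) = fun _ => False := by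
      funext u
      simp
    rw [h1]
    exact H)
  have hS : ∀ v : Option V, inl v ∈ S := by
    rintro (_ | v)
    · exact H.s0
    · exact (H.sv v).2 trivial
  obtain ⟨P, hP1, hP2⟩ := H.inv.pl hS
  have : Finite {e : EE V // inr e ∈ S} :=
    (H.inv.fin.preimage (Set.injOn_of_injective Sum.inr_injective)).to_subtype
  refine ⟨Option (Option V), {e : EE V // inr e ∈ S}, inferInstance, Fintype.ofFinite _, P,
    fun v => some (some v), fun p => ⟨inl p.1, (H.se p.1).2 ⟨p.2, trivial⟩⟩, ?_, ?_, ?_⟩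
  · intro a b h
    exact Option.some.inj (Option.some.inj h)
  · intro p
    refine ⟨hP1 _, ?_⟩
    rw [hP2 _ (fun h => ?_), H.hd]
    exact ((H.lv _).1 ((H.alt.mem _).1 h)).2.2 trivial
  · simp [Fintype.card_option]

end Pool.Agent.W_a4f561_h25
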