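import Pool.Agent.W_a4f561_h25.Core
import Pool.Agent.W_a4f561_h25.Pages
import Pool.Agent.W_a4f561_h25.DwB
import Pool.Agent.W_a4f561_h73.A4Cnv
import Pool.Agent.W_a4f561_h73.A4Two

/-!
MP_a4f561_co: assembly of parts A, B, C.
-/

set_option autoImplicit false

namespace Pool.Agent.W_a4f561_h25

open Pool.Agent.W_a4f561_h73

/-- The number of pages for all twists of an order from the core theorem with `l = √(n+2) + 1`. -/
theorem bound_le (n c : ℕ) (h : c ≤ n + 2) :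
    11 * (c / (Nat.sqrt (n + 2) + 1)) + 8 + 4 * (Nat.sqrt (n + 2) + 1) ≤
      15 * Nat.sqrt (n + 2) + 12 := by
  have h1 : n + 2 < (Nat.sqrt (n + 2) + 1) * (Nat.sqrt (n + 2) + 1) := Nat.lt_succ_sqrt (n + 2)
  have h2 : c / (Nat.sqrt (n + 2) + 1) < Nat.sqrt (n + 2) + 1 := by
    rw [Nat.div_lt_iff_lt_mul (Nat.succ_pos _)]
    exact lt_of_le_of_lt h h1
  omega

theorem assembly (n : ℕ) (G : Digraph (Fin n)) (f : Fin n → ℝ × ℝ) (hf : Function.Injective f)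
    (γ : Fin n → Fin n → ℝ → ℝ × ℝ)
    (h1 : ∀ u v, G.Adj u v →
      ContinuousOn (γ u v) (Set.Icc (0:ℝ) 1) ∧
      γ u v 0 = f u ∧ γ u v 1 = f v ∧
      StrictMonoOn (fun t => (γ u v t).2) (Set.Icc (0:ℝ) 1) ∧
      (∀ w, ∀ s ∈ Set.Ioo (0:ℝ) 1, γ u v s ≠ f w))
    (h2 : ∀ u v u' v', G.Adj u v → G.Adj u' v' → (u, v) ≠ (u', v') →
      ∀ s ∈ Set.Ioo (0:ℝ) 1, ∀ t ∈ Set.Icc (0:ℝ) 1, γ u v s ≠ γ u' v' t) :
    ∃ σ : Fin n ≃ Fin n, ∃ p : Fin n → Fin n → Fin ((Nat.log 2 n + 1) *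
        (15 * Nat.sqrt (n + 2) + 12)),
      (∀ u v, G.Adj u v → σ u < σ v) ∧
      (∀ F : Finset (Fin n × Fin n), (∀ e ∈ F, G.Adj e.1 e.2) →
        (∀ e ∈ F, ∀ e' ∈ F, e ≠ e' →
          (σ e.1 < σ e'.1 ∧ σ e'.1 < σ e.2 ∧ σ e.2 < σ e'.2) ∨
          (σ e'.1 < σ e.1 ∧ σ e.1 < σ e'.2 ∧ σ e'.2 < σ e.2)) →
        F.card ≤ 15 * Nat.sqrt (n + 2) + 12) ∧
      (∀ a b c d, G.Adj a b → G.Adj c d → p a b = p c d →
        ¬ (σ a < σ c ∧ σ c < σ b ∧ σ b < σ d)) := by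
  classical
  obtain ⟨D, _⟩ := exists_drw_y f hf γ h1 h2
  obtain ⟨V2, E, iV, iE, P, i, j, hi, hj, hc⟩ := goalB (Fin n) G.Adj D
  obtain ⟨ρ, r1, r2, r3, r4, r5⟩ := core P (Nat.sqrt (n + 2) + 1) (Nat.succ_pos _)
  rw [Fintype.card_fin] at hc
  obtain ⟨σ, hσ⟩ := exists_perm (fun a b => ρ (i a) (i b)) (fun a => r1 _)
    (fun a b c => r2 _ _ _) (fun a b hab => r3 _ _ (fun h => hab (hi h)))
  have hfw : ∀ u v, G.Adj u v → σ u < σ v := by
    intro u v huv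
    rw [hσ]
    have h3 := r4 (j ⟨(u, v), huv⟩)
    rw [(hj ⟨(u, v), huv⟩).1, (hj ⟨(u, v), huv⟩).2] at h3
    exact h3
  have hjinj : Function.Injective j := by
    intro p p' h
    have k1 := (hj p).1
    have k2 := (hj p).2
    rw [h, (hj p').1] at k1
    rw [h, (hj p').2] at k2
    exact Subtype.ext (Prod.ext (hi k1).symm (hi k2).symm)
  have htw : ∀ F : Finset (Fin n × Fin n), (∀ e ∈ F, G.Adj e.1 e.2) →
      IsTwist Prod.fst Prod.snd (fun x y => σ x < σ y) F →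
      F.card ≤ 15 * Nat.sqrt (n + 2) + 12 := by
    intro F hF hT
    have hinj : Function.Injective fun e : {e // e ∈ F} => j ⟨e.1, hF e.1 e.2⟩ := by
      intro e e' h
      have := hjinj h
      exact Subtype.ext (by simpa using this)
    have h3 := r5 (F.attach.map ⟨_, hinj⟩) (by
      intro e he e' he' hne
      obtain ⟨g, _, rfl⟩ := Finset.mem_map.1 he
      obtain ⟨g', _, rfl⟩ := Finset.mem_map.1 he'
      have hgg : g.1 ≠ g'.1 := fun h => hne (by rw [Subtype.ext h])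
      have h4 := hT g.1 g.2 g'.1 g'.2 hgg
      simp only [hσ] at h4
      simp only [Function.Embedding.coeFn_mk, (hj _).1, (hj _).2]
      exact h4)
    rw [Finset.card_map, Finset.card_attach] at h3
    exact h3.trans (bound_le n _ hc)
  obtain ⟨p, hp⟩ := pages_of_twist (K := 15 * Nat.sqrt (n + 2) + 12) (by omega) σ G.Adj hfw htw
  exact ⟨σ, p, hfw, htw, hp⟩

end Pool.Agent.W_a4f561_h25
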