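import Pool.Agent.W_a4f561_h25.Cut

/-!
MP_a4f561_co, proofs row 554, section 5: pairs of edges between the same walls.
-/

set_option autoImplicit false

namespace Pool.Agent.W_a4f561_h25

open Sum Y

variable {V E : Type} {A : Pl V E} {D : E → Prop}

/-- Edges `e` of the twist which are not bad (in terms of what is needed from this), not on a wall. -/
structure Mid (A : Pl V E) (D : E → Prop) {q : ℕ} (s : Fin q → Y V E → ℤ) (T : Y V E → Prop)
    (F : Finset E) (e : E) : Prop where
  mem : e ∈ F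
  nD : ¬ D e
  bt : T (bot A D e)
  tp : ¬ T (top A D e)
  off : ∀ c, s c (m e) ≠ 0

theorem Mid.rot {q : ℕ} {s : Fin q → Y V E → ℤ} {T : Y V E → Prop} {F : Finset E} {e : E}
    (h : Mid A D s T F e) : Mid A.rot D (fun c x => - s c x.rot) (fun x => ¬ T x.rot) F e where
  mem := h.mem
  nD := h.nD
  bt := by
    rw [bot_rot, rot_rot]
    exact h.tp
  tp := by
    rw [top_rot, rot_rot, not_not]
    exact h.bt
  off := fun c => neg_ne_zero.2 (h.off c)

/-- Q1: `j` left of `k`, the same walls, `k` has a D-edge left of it with the same head. -/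
theorem Q1 [Finite V] [Finite E] {q : ℕ} {s : Fin q → Y V E → ℤ} (h : Sta A D q s)
    {T : Y V E → Prop} {F : Finset E} (hF : Cut A D T F) {j k : E} (hj : Mid A D s T F j)
    (hk : Mid A D s T F k) (hl : Lf A D (m j) (m k)) (hs : ∀ c, s c (m j) = s c (m k))
    (hB : ∃ f, Sf A D k f) : Lo A D (top A D j) (top A D k) := by
  rcases top_cases A D k with ⟨h1, _⟩ | ⟨f, hf, _, hft⟩
  · obtain ⟨f, hf⟩ := hB
    exact absurd hf (h1 f)
  have hjk : j ≠ k := by
    rintro rfl
    exact ro_irr _ hl.1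
  have hne : top A D j ≠ top A D k := fun h1 => hjk (hF.hi _ hj.mem _ hk.mem (top_inj h1))
  rcases lo_tot (A := A) (D := D) hne with h1 | h1
  · exact h1
  exfalso
  have hkf : Lt A D (m k) (m f) := by
    have := m_lt_top A D k
    rwa [hft] at this
  rw [hft] at h1
  have c1 : ¬ Lt A D (m j) (m f) := by
    intro h2
    rcases m_lt hj.nD h2 with h3 | h3 | h3
    · exact absurd h3 (by simp)
    · rw [h3] at h1
      exact lo_irr _ h1
    · exact lo_as h1 (lt_lo h3)
  have c2 : ¬ Lt A D (m f) (m j) := fun h2 => hl.2.2 (hkf.tr h2)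
  have hfj : m f ≠ (m j : Y V E) := by
    intro h2
    have h3 : f = j := by simpa using h2
    exact hj.nD (h3 ▸ hf.1)
  have c3 : ¬ Lt A D (a f) (m j) := by
    intro h2
    rcases a_lt h2 with h3 | h3
    · exact hfj h3
    · exact c2 h3
  have c4 : ¬ Lt A D (m j) (a f) := fun h2 => c1 (h2.tail (St.am f))
  have c5 : ¬ Lt A D (m k) (a f) := by
    intro h2
    rcases m_lt hk.nD h2 with h3 | h3 | h3
    · exact absurd h3 (by simp)
    · rw [hft] at h3
      exact absurd h3 (by simp)
    · rw [hft] at h3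
      exact lt_as h3 (Relation.TransGen.single (St.am f))
  have c6 : ¬ Lt A D (a f) (m k) := by
    intro h2
    rcases a_lt h2 with h3 | h3
    · have h4 : f = k := by simpa using h3
      exact hk.nD (h4 ▸ hf.1)
    · exact lt_as h3 hkf
  have l1 : Lf A D (a f) (m k) := ⟨Or.inl hf.2.2.2, c6, c5⟩
  have l2 : Lf A D (m j) (a f) := by
    refine ⟨?_, c4, c3⟩
    rcases ro_tot (A := A) (x := a f) (y := m j) (by simp) with h2 | h2
    · exact h2
    · exfalso
      have h3 : Ro A (m j) (m f) := ro_tr h2 (st_ro (D := D) (St.am f))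
      rcases btw hkf hl.1 h3 with h4 | h4
      · exact hl.2.2 h4
      · exact c1 h4
  obtain ⟨c, _, hc, _⟩ := h.w3 f hf.1
  have w1 := h.w1 c _ _ l1
  have w2 := h.w1 c _ _ l2
  rw [hc] at w1 w2
  have w3 := hs c
  have w4 : s c (m k) ≠ 0 := fun h2 => w1.2 ⟨rfl, h2⟩
  have w5 := w1.1
  have w6 := w2.1
  omega

/-- Q2: `j` left of `k`, the same walls, `j` has a D-edge right of it with the same tail. -/
theorem Q2 [Finite V] [Finite E] {q : ℕ} {s : Fin q → Y V E → ℤ} (h : Sta A D q s)
    {T : Y V E → Prop} {F : Finset E} (hF : Cut A D T F) {j k : E} (hj : Mid A D s T F j)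
    (hk : Mid A D s T F k) (hl : Lf A D (m j) (m k)) (hs : ∀ c, s c (m j) = s c (m k))
    (hB : ∃ f, Pf A D j f) : Lo A D (bot A D j) (bot A D k) := by
  have h1 := Q1 h.rot hF.rot hk.rot hj.rot (by rw [lf_rot]; exact hl)
    (fun c => by
      have := hs c
      simp only [rot_m]
      rw [this]) hB
  rw [lo_rot, top_rot, top_rot, rot_rot, rot_rot] at h1
  exact h1

/-- The pair `e, e'` is a left-right pair. -/
def LR (A : Pl V E) (D : E → Prop) (e e' : E) : Prop :=
  Lf A D (m e) (m e') ∧ Lo A D (v (A.hd e)) (v (A.hd e'))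

/-- No left-right triple, if the tops and bots are in the same order (`core`). -/
theorem no_core_triple [Finite V] [Finite E] {q : ℕ} {s : Fin q → Y V E → ℤ}
    {T : Y V E → Prop} {F : Finset E} (hF : Cut A D T F) {i j k : E} (hi : Mid A D s T F i)
    (hj : Mid A D s T F j) (hk : Mid A D s T F k) (h1 : Lf A D (m i) (m j))
    (h2 : Lf A D (m j) (m k)) (h3 : Lo A D (top A D i) (top A D j))
    (h4 : Lo A D (bot A D j) (bot A D k)) : False := by
  have h5 := (lemS hj.nD h1 h3).1
  have h6 := (lemS' hj.nD h2 h4).1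
  exact hi.tp (hF.dn _ _ (lo_tr h5 h6) hk.bt)

/-- R: a real left-right pair has its tops in this order. -/
theorem R_top [Finite V] [Finite E] {q : ℕ} {s : Fin q → Y V E → ℤ} (h : Sta A D q s)
    {T : Y V E → Prop} {F : Finset E} (hF : Cut A D T F) {j k : E} (hj : Mid A D s T F j)
    (hk : Mid A D s T F k) (hl : Lf A D (m j) (m k)) (hs : ∀ c, s c (m j) = s c (m k))
    (hv : Lo A D (v (A.hd j)) (v (A.hd k))) : Lo A D (top A D j) (top A D k) := by
  rcases top_cases A D k with ⟨_, h2⟩ | ⟨f, hf, _, _⟩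
  · rw [h2]
    rcases top_le_hd A D j with h3 | h3
    · rw [h3]
      exact hv
    · exact lo_tr (lt_lo h3) hv
  · exact Q1 h hF hj hk hl hs ⟨f, hf⟩

theorem R_bot [Finite V] [Finite E] {q : ℕ} {s : Fin q → Y V E → ℤ} (h : Sta A D q s)
    {T : Y V E → Prop} {F : Finset E} (hF : Cut A D T F) {j k : E} (hj : Mid A D s T F j)
    (hk : Mid A D s T F k) (hl : Lf A D (m j) (m k)) (hs : ∀ c, s c (m j) = s c (m k))
    (hv : Lo A D (v (A.tl j)) (v (A.tl k))) : Lo A D (bot A D j) (bot A D k) := by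
  have h1 := R_top h.rot hF.rot hk.rot hj.rot (by rw [lf_rot]; exact hl)
    (fun c => by
      have := hs c
      simp only [rot_m]
      rw [this]) (by rw [lo_rot]; exact hv)
  rw [lo_rot, top_rot, top_rot, rot_rot, rot_rot] at h1
  exact h1

/-- If the tops are in left-right order, then the pair is left-right (Lemma S). -/
theorem LR_of_top [Finite V] [Finite E] {q : ℕ} {s : Fin q → Y V E → ℤ}
    {T : Y V E → Prop} {F : Finset E} {j k : E}
    (hk : Mid A D s T F k) (hl : Lf A D (m j) (m k)) (ht : Lo A D (top A D j) (top A D k)) :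
    LR A D j k :=
  ⟨hl, lo_tr (lemS hk.nD hl ht).2 (lt_lo ((((Relation.TransGen.single (St.mb k)).tail (St.hd k)))))⟩

/-- If the bots are in left-right order, then the pair is left-right (Lemma S'). -/
theorem LR_of_bot [Finite V] [Finite E] {q : ℕ} {s : Fin q → Y V E → ℤ}
    {T : Y V E → Prop} {F : Finset E} (hF : Cut A D T F) {j k : E} (hj : Mid A D s T F j)
    (hk : Mid A D s T F k) (hl : Lf A D (m j) (m k)) (ht : Lo A D (bot A D j) (bot A D k)) :
    LR A D j k := by
  refine ⟨hl, (hF.cr j hj.mem k hk.mem).1 ?_⟩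
  exact lo_tr (lt_lo ((Relation.TransGen.single (St.tl j)).tail (St.am j))) (lemS' hj.nD hl ht).2

/-- No left-right triple between the same walls. -/
theorem no_LR_triple [Finite V] [Finite E] {q : ℕ} {s : Fin q → Y V E → ℤ} (h : Sta A D q s)
    {T : Y V E → Prop} {F : Finset E} (hF : Cut A D T F) {i j k : E} (hi : Mid A D s T F i)
    (hj : Mid A D s T F j) (hk : Mid A D s T F k) (hij : ∀ c, s c (m i) = s c (m j))
    (hjk : ∀ c, s c (m j) = s c (m k)) (h1 : LR A D i j) (h2 : LR A D j k) : False :=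
  no_core_triple hF hi hj hk h1.1 h2.1 (R_top h hF hi hj h1.1 hij h1.2)
    (R_bot h hF hj hk h2.1 hjk ((hF.cr j hj.mem k hk.mem).2 h2.2))

/-- No left-right triple of edges without D-edges at their ends (any walls). -/
theorem no_LR_triple' [Finite V] [Finite E] {q : ℕ} {s : Fin q → Y V E → ℤ}
    {T : Y V E → Prop} {F : Finset E} (hF : Cut A D T F) {i j k : E} (hi : Mid A D s T F i)
    (hj : Mid A D s T F j) (hk : Mid A D s T F k)
    (ti : top A D i = v (A.hd i)) (tj : top A D j = v (A.hd j))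
    (bj : bot A D j = v (A.tl j)) (bk : bot A D k = v (A.tl k))
    (h1 : LR A D i j) (h2 : LR A D j k) : False :=
  no_core_triple hF hi hj hk h1.1 h2.1 (by rw [ti, tj]; exact h1.2)
    (by rw [bj, bk]; exact (hF.cr j hj.mem k hk.mem).2 h2.2)

/-- Section 6: `j` left of `k`, not left-right, no D-edges at the ends: then the tail of `j` is left of
`m k`. -/
theorem tl_left [Finite V] [Finite E] {q : ℕ} {s : Fin q → Y V E → ℤ}
    {T : Y V E → Prop} {F : Finset E} (hF : Cut A D T F) {j k : E} (hj : Mid A D s T F j)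
    (hk : Mid A D s T F k) (bk : bot A D k = v (A.tl k)) (tk : top A D k = v (A.hd k))
    (hl : Lf A D (m j) (m k)) (h1 : ¬ LR A D j k) :
    Lf A D (v (A.tl j)) (m k) ∧ Lo A D (v (A.tl k)) (v (A.tl j)) := by
  have hjk : j ≠ k := by
    rintro rfl
    exact ro_irr _ hl.1
  have hne : (v (A.hd j) : Y V E) ≠ v (A.hd k) := by
    intro h2
    exact hjk (hF.hi _ hj.mem _ hk.mem (by simpa using h2))
  have h3 : Lo A D (v (A.hd k)) (v (A.hd j)) := by
    rcases lo_tot (A := A) (D := D) hne with h2 | h2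
    · exact absurd ⟨hl, h2⟩ h1
    · exact h2
  have h4 : Lo A D (v (A.tl k)) (v (A.tl j)) := (hF.cr k hk.mem j hj.mem).2 h3
  refine ⟨⟨?_, ?_, ?_⟩, h4⟩
  · rcases ro_tot (A := A) (x := m k) (y := v (A.tl j)) (by simp) with h5 | h5
    · exact h5
    · exfalso
      have c1 : ¬ Lt A D (m k) (v (A.tl j)) := fun h6 => ro_as h5 (lt_ro h6)
      have h6 : Lo A D (m k) (v (A.tl j)) ∨ Lo A D (v (A.tl j)) (m k) := lo_tot (by simp)
      rcases h6 with h6 | h6
      · refine lo_as hl.lo (lo_tr h6 (lt_lo ?_))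
        exact (Relation.TransGen.single (St.tl j)).tail (St.am j)
      · have h7 := lo_ro_lt h6 h5
        rcases lt_m hk.nD h7 with h8 | h8 | h8
        · exact absurd h8 (by simp)
        · rw [bk] at h8
          rw [h8] at h4
          exact lo_irr _ h4
        · rw [bk] at h8
          exact lo_as h4 (lt_lo h8)
  · intro h7
    rcases lt_m hk.nD h7 with h8 | h8 | h8
    · exact absurd h8 (by simp)
    · rw [bk] at h8
      rw [h8] at h4
      exact lo_irr _ h4
    · rw [bk] at h8
      exact lo_as h4 (lt_lo h8)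
  · intro h7
    rcases m_lt hk.nD h7 with h8 | h8 | h8
    · exact absurd h8 (by simp)
    · rw [tk] at h8
      exact hF.hd k hk.mem (h8 ▸ hF.tl j hj.mem)
    · rw [tk] at h8
      exact hF.hd k hk.mem (hF.dn _ _ (lt_lo h8) (hF.tl j hj.mem))

/-- Rotated: then `m j` is left of the head of `k`. -/
theorem left_hd [Finite V] [Finite E] {q : ℕ} {s : Fin q → Y V E → ℤ}
    {T : Y V E → Prop} {F : Finset E} (hF : Cut A D T F) {j k : E} (hj : Mid A D s T F j)
    (hk : Mid A D s T F k) (bj : bot A D j = v (A.tl j)) (tj : top A D j = v (A.hd j))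
    (hl : Lf A D (m j) (m k)) (h1 : ¬ LR A D j k) :
    Lf A D (m j) (v (A.hd k)) ∧ Lo A D (v (A.hd k)) (v (A.hd j)) := by
  have h2 := tl_left hF.rot hk.rot hj.rot (by rw [bot_rot, tj]; rfl) (by rw [top_rot, bj]; rfl)
    (by rw [lf_rot]; exact hl) (by
      rintro ⟨_, h3⟩
      rw [lo_rot] at h3
      exact h1 ⟨hl, (hF.cr j hj.mem k hk.mem).1 h3⟩)
  rw [lf_rot, lo_rot] at h2
  exact h2

end Pool.Agent.W_a4f561_h25
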