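import Pool.Agent.W_a4f561_h25.Cls

/-!
MP_a4f561_co, proofs row 554, section 6: counting, basics.
-/

set_option autoImplicit false

namespace Pool.Agent.W_a4f561_h25

open Sum Y

variable {V E : Type} {A : Pl V E} {D : E → Prop}

open Classical in
/-- A relation without chains `a R b R c` whose free sets have at most `K` elements. -/
theorem card_le_two {E : Type} (F : Finset E) (R : E → E → Prop) (K : ℕ)
    (h1 : ∀ a ∈ F, ∀ b ∈ F, ∀ c ∈ F, R a b → R b c → False)
    (h2 : ∀ S ⊆ F, (∀ a ∈ S, ∀ b ∈ S, ¬ R a b) → S.card ≤ K) : F.card ≤ 2 * K := by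
  -- split `F` into the elements with and without a predecessor
  have e1 : (F.filter fun x => ∃ a ∈ F, R a x).card ≤ K := by
    refine h2 _ (Finset.filter_subset _ _) ?_
    intro a ha b hb hab
    obtain ⟨ha1, z, hz, hza⟩ := Finset.mem_filter.1 ha
    exact h1 z hz a ha1 b (Finset.mem_filter.1 hb).1 hza hab
  have e2 : (F.filter fun x => ¬ ∃ a ∈ F, R a x).card ≤ K := by
    refine h2 _ (Finset.filter_subset _ _) ?_
    intro a ha b hb hab
    exact (Finset.mem_filter.1 hb).2 ⟨a, (Finset.mem_filter.1 ha).1, hab⟩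
  have e3 := Finset.card_filter_add_card_filter_not (s := F) (fun x => ∃ a ∈ F, R a x)
  omega

/-- The points `m e` of the edges in the middle are ordered from left to right. -/
theorem mid_lf [Finite V] [Finite E] {q : ℕ} {s : Fin q → Y V E → ℤ}
    {T : Y V E → Prop} {F : Finset E} (hF : Cut A D T F) {j k : E} (hj : Mid A D s T F j)
    (hk : Mid A D s T F k) (hne : j ≠ k) : Lf A D (m j) (m k) ∨ Lf A D (m k) (m j) := by
  -- `cmp` and `anti`
  have hne' : (m j : Y V E) ≠ m k := fun h => hne (by simpa using h)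
  rcases cmp (A := A) (D := D) hne' with h1 | h1 | h1 | h1
  · exact absurd h1 (anti hF hj.nD hk.nD hj.tp hk.bt)
  · exact absurd h1 (anti hF hk.nD hj.nD hk.tp hj.bt)
  · exact Or.inl h1
  · exact Or.inr h1

open Classical in
/-- Edges which are not bad, but on a wall. -/
theorem card_on [Finite V] [Finite E] {q : ℕ} {s : Fin q → Y V E → ℤ} (h : Sta A D q s)
    {T : Y V E → Prop} {F : Finset E} (hF : Cut A D T F) :
    (F.filter fun e => ¬ Bad A D s T e ∧ ∃ c, s c (m e) = 0).card ≤ q := by
  -- for every `c` at most one such edge (`not_bad`, `anti`, `cmp`, `h.w1`)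
  set S := F.filter (fun e => ¬ Bad A D s T e ∧ ∃ c, s c (m e) = 0) with hS
  have key : ∀ e : S, ∃ c : Fin q, s c (m (e : E)) = 0 := fun e => (Finset.mem_filter.1 e.2).2.2
  choose g hg using key
  have hinj : Function.Injective g := by
    intro e e' hee
    by_contra hne
    have he1 := Finset.mem_filter.1 e.2
    have he2 := Finset.mem_filter.1 e'.2
    obtain ⟨n1, n2, n3⟩ := not_bad h hF he1.1 he1.2.1
    obtain ⟨n1', n2', n3'⟩ := not_bad h hF he2.1 he2.2.1
    have h0 : s (g e) (m (e : E)) = 0 := hg e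
    have h0' : s (g e) (m (e' : E)) = 0 := by
      rw [hee]
      exact hg e'
    have hne' : (m (e : E) : Y V E) ≠ m (e' : E) := fun h => hne (Subtype.ext (by simpa using h))
    rcases h.chain h0 h0' hne' with h1 | h1
    · exact anti hF n1 n1' n3 n2' h1
    · exact anti hF n1' n1 n3' n2 h1
  have h3 := Fintype.card_le_of_injective g hinj
  simpa using h3

end Pool.Agent.W_a4f561_h25
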