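import Pool.Agent.W_a4f561_h25.CntA

/-!
MP_a4f561_co, proofs row 554, section 6: types B and C.
-/

set_option autoImplicit false

namespace Pool.Agent.W_a4f561_h25

open Sum Y

variable {V E : Type} {A : Pl V E} {D : E → Prop}

open Classical in
/-- Type B: at most 2 between the same walls. -/
theorem card_B [Finite V] [Finite E] {q : ℕ} {s : Fin q → Y V E → ℤ} (h : Sta A D q s)
    {T : Y V E → Prop} {F : Finset E} (hF : Cut A D T F) (S : Finset E)
    (hS : ∀ e ∈ S, Mid A D s T F e) (hs : ∀ e ∈ S, ∀ e' ∈ S, ∀ c, s c (m e) = s c (m e')) :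
    (S.filter fun e => ∃ f, Sf A D e f).card ≤ 2 := by
  -- `card_le_two` with `R := LR A D`, `K := 1`; `no_LR_triple`; `mid_lf`, `Q1`, `LR_of_top`
  have hm : ∀ e ∈ S.filter (fun e => ∃ f, Sf A D e f), e ∈ S ∧ ∃ f, Sf A D e f :=
    fun e he => Finset.mem_filter.1 he
  refine card_le_two (S.filter fun e => ∃ f, Sf A D e f) (LR A D) 1 ?_ ?_
  · intro a ha b hb c hc hab hbc
    have ha' := (hm a ha).1
    have hb' := (hm b hb).1
    have hc' := (hm c hc).1
    exact no_LR_triple h hF (hS a ha') (hS b hb') (hS c hc') (hs a ha' b hb') (hs b hb' c hc')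
      hab hbc
  · intro S' hS' hfree
    rw [Finset.card_le_one]
    intro a ha b hb
    by_contra hne
    obtain ⟨ha1, ha2⟩ := hm a (hS' ha)
    obtain ⟨hb1, hb2⟩ := hm b (hS' hb)
    rcases mid_lf hF (hS a ha1) (hS b hb1) hne with hl | hl
    · exact hfree a ha b hb (LR_of_top (hS b hb1) hl
        (Q1 h hF (hS a ha1) (hS b hb1) hl (hs a ha1 b hb1) hb2))
    · exact hfree b hb a ha (LR_of_top (hS a ha1) hl
        (Q1 h hF (hS b hb1) (hS a ha1) hl (hs b hb1 a ha1) ha2))

open Classical in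
/-- Type C: at most 2 between the same walls. -/
theorem card_C [Finite V] [Finite E] {q : ℕ} {s : Fin q → Y V E → ℤ} (h : Sta A D q s)
    {T : Y V E → Prop} {F : Finset E} (hF : Cut A D T F) (S : Finset E)
    (hS : ∀ e ∈ S, Mid A D s T F e) (hs : ∀ e ∈ S, ∀ e' ∈ S, ∀ c, s c (m e) = s c (m e')) :
    (S.filter fun e => ∃ f, Pf A D e f).card ≤ 2 := by
  -- in the same way, with `Q2` and `LR_of_bot` (or by rotation)
  have hm : ∀ e ∈ S.filter (fun e => ∃ f, Pf A D e f), e ∈ S ∧ ∃ f, Pf A D e f :=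
    fun e he => Finset.mem_filter.1 he
  refine card_le_two (S.filter fun e => ∃ f, Pf A D e f) (LR A D) 1 ?_ ?_
  · intro a ha b hb c hc hab hbc
    have ha' := (hm a ha).1
    have hb' := (hm b hb).1
    have hc' := (hm c hc).1
    exact no_LR_triple h hF (hS a ha') (hS b hb') (hS c hc') (hs a ha' b hb') (hs b hb' c hc')
      hab hbc
  · intro S' hS' hfree
    rw [Finset.card_le_one]
    intro a ha b hb
    by_contra hne
    obtain ⟨ha1, ha2⟩ := hm a (hS' ha)
    obtain ⟨hb1, hb2⟩ := hm b (hS' hb)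
    rcases mid_lf hF (hS a ha1) (hS b hb1) hne with hl | hl
    · exact hfree a ha b hb (LR_of_bot hF (hS a ha1) (hS b hb1) hl
        (Q2 h hF (hS a ha1) (hS b hb1) hl (hs a ha1 b hb1) ha2))
    · exact hfree b hb a ha (LR_of_bot hF (hS b hb1) (hS a ha1) hl
        (Q2 h hF (hS b hb1) (hS a ha1) hl (hs b hb1 a ha1) hb2))

end Pool.Agent.W_a4f561_h25
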