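import Pool.Agent.W_a4f561_h25.CntA

/-!
MP_a4f561_co, proofs row 554, section 6: both ends covered.
-/

set_option autoImplicit false

namespace Pool.Agent.W_a4f561_h25

open Sum Y

variable {V E : Type} {A : Pl V E} {D : E → Prop}

/-- Three elements in a row of a transitive relation which is total on them. -/
private theorem CntC_three {E : Type} {S : Finset E} {r : E → E → Prop}
    (ht : ∀ x ∈ S, ∀ y ∈ S, x ≠ y → r x y ∨ r y x) (h : 2 < S.card) :
    ∃ x ∈ S, ∃ y ∈ S, ∃ z ∈ S, r x y ∧ r y z := by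
  obtain ⟨x, y, z, hx, hy, hz, hxy, hxz, hyz⟩ := Finset.two_lt_card_iff.1 h
  rcases ht x hx y hy hxy with h1 | h1 <;> rcases ht y hy z hz hyz with h2 | h2 <;>
    rcases ht x hx z hz hxz with h3 | h3
  · exact ⟨x, hx, y, hy, z, hz, h1, h2⟩
  · exact ⟨x, hx, y, hy, z, hz, h1, h2⟩
  · exact ⟨x, hx, z, hz, y, hy, h3, h2⟩
  · exact ⟨z, hz, x, hx, y, hy, h3, h1⟩
  · exact ⟨y, hy, x, hx, z, hz, h1, h3⟩
  · exact ⟨y, hy, z, hz, x, hx, h2, h3⟩
  · exact ⟨z, hz, y, hy, x, hx, h2, h1⟩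
  · exact ⟨z, hz, y, hy, x, hx, h2, h1⟩

open Classical in
/-- No D-edges at the ends, both ends covered: at most 4 between the same walls. -/
theorem card_D [Finite V] [Finite E] {l q : ℕ} {s : Fin q → Y V E → ℤ} (h : Good A l D q s)
    {T : Y V E → Prop} {F : Finset E} (hF : Cut A D T F) (S : Finset E)
    (hS : ∀ e ∈ S, Mid A D s T F e) (hs : ∀ e ∈ S, ∀ e' ∈ S, ∀ c, s c (m e) = s c (m e')) :
    (S.filter fun e => (∀ f, ¬ Sf A D e f) ∧ (∀ f, ¬ Pf A D e f) ∧ Cov s (A.tl e) ∧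
      Cov s (A.hd e)).card ≤ 4 := by
  -- `card_le_two` with `R := LR A D`, `K := 2`; a set without left-right pairs with 3 elements
  -- `e1, e2, e3` (from left to right, `mid_lf`, `lf_tr`): `h.i3 e2`: in the first case `tl_left` for
  -- `e2, e3` and (w1): `0 = s u_2 ≤ s (m e3) = s (m e2) = -1`; in the second case `left_hd` for `e1, e2`
  have hbot : ∀ e, (∀ f, ¬ Pf A D e f) → bot A D e = v (A.tl e) := by
    intro e he
    rcases bot_cases A D e with ⟨_, h1⟩ | ⟨f, h1, _⟩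
    · exact h1
    · exact absurd h1 (he f)
  have htop : ∀ e, (∀ f, ¬ Sf A D e f) → top A D e = v (A.hd e) := by
    intro e he
    rcases top_cases A D e with ⟨_, h1⟩ | ⟨f, h1, _⟩
    · exact h1
    · exact absurd h1 (he f)
  refine card_le_two _ (LR A D) 2 ?_ ?_
  · intro i hi j hj k hk hij hjk
    rw [Finset.mem_filter] at hi hj hk
    exact no_LR_triple h.st hF (hS i hi.1) (hS j hj.1) (hS k hk.1) (hs i hi.1 j hj.1)
      (hs j hj.1 k hk.1) hij hjk
  · intro S' hS' hn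
    by_contra hc
    rw [not_le] at hc
    obtain ⟨e1, h1, e2, h2, e3, h3, h12, h23⟩ := CntC_three (S := S')
      (r := fun x y => Lf A D (m x) (m y))
      (fun x hx y hy hxy => mid_lf hF (hS x (Finset.mem_filter.1 (hS' hx)).1)
        (hS y (Finset.mem_filter.1 (hS' hy)).1) hxy) hc
    have k1 := Finset.mem_filter.1 (hS' h1)
    have k2 := Finset.mem_filter.1 (hS' h2)
    have k3 := Finset.mem_filter.1 (hS' h3)
    obtain ⟨k1S, s1, p1, -, -⟩ := k1
    obtain ⟨k2S, s2, p2, c2, d2⟩ := k2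
    obtain ⟨k3S, s3, p3, -, -⟩ := k3
    have M1 := hS e1 k1S
    have M2 := hS e2 k2S
    have M3 := hS e3 k3S
    rcases h.i3 e2 M2.nD p2 s2 M2.off c2 d2 with ⟨c, hc1, hc2⟩ | ⟨c, hc1, hc2⟩
    · have h4 := (tl_left hF M2 M3 (hbot e3 p3) (htop e3 s3) h23 (hn e2 h2 e3 h3)).1
      have h5 := (h.st.w1 c _ _ h4).1
      rw [hc1, ← hs e2 k2S e3 k3S c, hc2] at h5
      norm_num at h5
    · have h4 := (left_hd hF M1 M2 (hbot e1 p1) (htop e1 s1) h12 (hn e1 h1 e2 h2)).1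
      have h5 := (h.st.w1 c _ _ h4).1
      rw [hc1, hs e1 k1S e2 k2S c, hc2] at h5
      norm_num at h5

end Pool.Agent.W_a4f561_h25
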