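import Pool.Agent.W_a4f561_h25.CntA

/-!
MP_a4f561_co, proofs row 554, section 7.
-/

set_option autoImplicit false

namespace Pool.Agent.W_a4f561_h25

open Sum Y

variable {V E : Type} {A : Pl V E} {D : E → Prop}

open Classical in
/-- No D-edges at the ends, an end not covered. -/
theorem card_A [Finite V] [Finite E] {l q : ℕ} {s : Fin q → Y V E → ℤ} (h : Good A l D q s)
    {T : Y V E → Prop} {F : Finset E} (hF : Cut A D T F) (S : Finset E)
    (hS : ∀ e ∈ S, Mid A D s T F e) :
    (S.filter fun e => (∀ f, ¬ Sf A D e f) ∧ (∀ f, ¬ Pf A D e f) ∧ ¬ (Cov s (A.tl e) ∧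
      Cov s (A.hd e))).card ≤ 4 * l := by
  classical
  -- no D-edges at the ends: `top e` is the head, `bot e` is the tail
  have htop : ∀ e, (∀ f, ¬ Sf A D e f) → top A D e = v (A.hd e) := by
    intro e he
    rcases top_cases A D e with ⟨_, h1⟩ | ⟨f, h1, _⟩
    · exact h1
    · exact absurd h1 (he f)
  have hbot : ∀ e, (∀ f, ¬ Pf A D e f) → bot A D e = v (A.tl e) := by
    intro e he
    rcases bot_cases A D e with ⟨_, h1⟩ | ⟨f, h1, _⟩
    · exact h1
    · exact absurd h1 (he f)
  have key := card_le_two (S.filter fun e => (∀ f, ¬ Sf A D e f) ∧ (∀ f, ¬ Pf A D e f) ∧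
    ¬ (Cov s (A.tl e) ∧ Cov s (A.hd e))) (LR A D) (2 * l) ?_ ?_
  · have h4 : 2 * (2 * l) = 4 * l := by ring
    rw [h4] at key
    convert key
  · intro a ha b hb c hc h1 h2
    rw [Finset.mem_filter] at ha hb hc
    exact no_LR_triple' hF (hS a ha.1) (hS b hb.1) (hS c hc.1) (htop a ha.2.1) (htop b hb.2.1)
      (hbot b hb.2.2.1) (hbot c hc.2.2.1) h1 h2
  · intro S' hS' hfree
    have hmem : ∀ e ∈ S', Mid A D s T F e ∧ (∀ f, ¬ Sf A D e f) ∧ (∀ f, ¬ Pf A D e f) ∧
        ¬ (Cov s (A.tl e) ∧ Cov s (A.hd e)) := by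
      intro e he
      have h1 := Finset.mem_filter.1 (hS' he)
      exact ⟨hS e h1.1, h1.2⟩
    -- the tails form a chain
    have ht : ∀ j ∈ S', ∀ k ∈ S', Lf A D (m j) (m k) → Lt A D (v (A.tl k)) (v (A.tl j)) := by
      intro j hj k hk hl
      obtain ⟨mj, -, -, -⟩ := hmem j hj
      obtain ⟨mk, sk, pk, -⟩ := hmem k hk
      obtain ⟨h1, h2⟩ := tl_left hF mj mk (hbot k pk) (htop k sk) hl (hfree j hj k hk)
      refine lo_ro_lt h2 (ro_tr (lt_ro (D := D) ?_) h1.1)
      exact (Relation.TransGen.single (St.tl k)).tail (St.am k)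
    have hh : ∀ j ∈ S', ∀ k ∈ S', Lf A D (m j) (m k) → Lt A D (v (A.hd k)) (v (A.hd j)) := by
      intro j hj k hk hl
      obtain ⟨mj, sj, pj, -⟩ := hmem j hj
      obtain ⟨mk, -, -, -⟩ := hmem k hk
      obtain ⟨h1, h2⟩ := left_hd hF mj mk (hbot j pj) (htop j sj) hl (hfree j hj k hk)
      refine lo_ro_lt h2 (ro_tr h1.1 (lt_ro (D := D) ?_))
      exact (Relation.TransGen.single (St.mb j)).tail (St.hd j)
    -- uncovered tails
    have c1 : (S'.filter fun e => ¬ Cov s (A.tl e)).card < l := by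
      have hinj : Set.InjOn A.tl (↑(S'.filter fun e => ¬ Cov s (A.tl e)) : Set E) := by
        intro e he e' he' hee
        rw [Finset.mem_coe, Finset.mem_filter] at he he'
        exact hF.ti e (hmem e he.1).1.mem e' (hmem e' he'.1).1.mem hee
      rw [← Finset.card_image_of_injOn hinj]
      refine h.i4 _ ?_ ?_
      · intro w hw
        obtain ⟨e, he, rfl⟩ := Finset.mem_image.1 hw
        exact (Finset.mem_filter.1 he).2
      · intro x hx y hy hxy
        obtain ⟨e, he, rfl⟩ := Finset.mem_image.1 hx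
        obtain ⟨e', he', rfl⟩ := Finset.mem_image.1 hy
        have hne : e ≠ e' := fun h1 => hxy (by rw [h1])
        have he1 := (Finset.mem_filter.1 he).1
        have he1' := (Finset.mem_filter.1 he').1
        rcases mid_lf hF (hmem e he1).1 (hmem e' he1').1 hne with h1 | h1
        · exact Or.inr (ht e he1 e' he1' h1)
        · exact Or.inl (ht e' he1' e he1 h1)
    -- uncovered heads
    have c2 : (S'.filter fun e => ¬ Cov s (A.hd e)).card < l := by
      have hinj : Set.InjOn A.hd (↑(S'.filter fun e => ¬ Cov s (A.hd e)) : Set E) := by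
        intro e he e' he' hee
        rw [Finset.mem_coe, Finset.mem_filter] at he he'
        exact hF.hi e (hmem e he.1).1.mem e' (hmem e' he'.1).1.mem hee
      rw [← Finset.card_image_of_injOn hinj]
      refine h.i4 _ ?_ ?_
      · intro w hw
        obtain ⟨e, he, rfl⟩ := Finset.mem_image.1 hw
        exact (Finset.mem_filter.1 he).2
      · intro x hx y hy hxy
        obtain ⟨e, he, rfl⟩ := Finset.mem_image.1 hx
        obtain ⟨e', he', rfl⟩ := Finset.mem_image.1 hy
        have hne : e ≠ e' := fun h1 => hxy (by rw [h1])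
        have he1 := (Finset.mem_filter.1 he).1
        have he1' := (Finset.mem_filter.1 he').1
        rcases mid_lf hF (hmem e he1).1 (hmem e' he1').1 hne with h1 | h1
        · exact Or.inr (hh e he1 e' he1' h1)
        · exact Or.inl (hh e' he1' e he1 h1)
    have hsub : S' ⊆ (S'.filter fun e => ¬ Cov s (A.tl e)) ∪
        (S'.filter fun e => ¬ Cov s (A.hd e)) := by
      intro e he
      have h1 := (hmem e he).2.2.2
      rw [Finset.mem_union, Finset.mem_filter, Finset.mem_filter]
      by_cases h2 : Cov s (A.tl e)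
      · exact Or.inr ⟨he, fun h3 => h1 ⟨h2, h3⟩⟩
      · exact Or.inl ⟨he, h2⟩
    have c3 := (Finset.card_le_card hsub).trans (Finset.card_union_le _ _)
    omega

end Pool.Agent.W_a4f561_h25
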