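import Pool.Agent.W_a4f561_h25.CntA

/-!
MP_a4f561_co, proofs row 554, classes.
-/

set_option autoImplicit false

namespace Pool.Agent.W_a4f561_h25

open Sum Y

variable {V E : Type} {A : Pl V E} {D : E → Prop}

open Classical in
/-- The number of walls left of `m e`. -/
noncomputable def kap {q : ℕ} (s : Fin q → Y V E → ℤ) (e : E) : ℕ :=
  (Finset.univ.filter fun c => s c (m e) = 1).card

theorem CntE_aux {q : ℕ} {s : Fin q → Y V E → ℤ} (h : Sta A D q s)
    {T : Y V E → Prop} {F : Finset E} {j k : E} (hj : Mid A D s T F j)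
    (hk : Mid A D s T F k) (hne : kap s j = kap s k) (hl : Lf A D (m j) (m k)) :
    ∀ c, s c (m j) = s c (m k) := by
  classical
  have hle : ∀ c, s c (m j) ≤ s c (m k) := fun c => (h.w1 c _ _ hl).1
  have hsub : (Finset.univ.filter fun c => s c (m j) = 1) ⊆
      (Finset.univ.filter fun c => s c (m k) = 1) := by
    intro c hc
    rw [Finset.mem_filter] at hc ⊢
    refine ⟨hc.1, ?_⟩
    have h1 := hle c
    have h2 := hc.2
    rcases h.rg c (m k) with h3 | h3 | h3 <;> omega
  have heq : (Finset.univ.filter fun c => s c (m j) = 1) =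
      (Finset.univ.filter fun c => s c (m k) = 1) := by
    refine Finset.eq_of_subset_of_card_le hsub ?_
    unfold kap at hne
    convert hne.ge
  intro c
  have h1 : (s c (m j) = 1) ↔ (s c (m k) = 1) := by
    have h2 := Finset.ext_iff.1 heq c
    simpa using h2
  have hj0 := hj.off c
  have hk0 := hk.off c
  rcases h.rg c (m j) with h3 | h3 | h3 <;> rcases h.rg c (m k) with h4 | h4 | h4 <;> omega

theorem same_kap [Finite V] [Finite E] {q : ℕ} {s : Fin q → Y V E → ℤ} (h : Sta A D q s)
    {T : Y V E → Prop} {F : Finset E} (hF : Cut A D T F) {j k : E} (hj : Mid A D s T F j)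
    (hk : Mid A D s T F k) (hne : kap s j = kap s k) : ∀ c, s c (m j) = s c (m k) := by
  -- `mid_lf`, (w1): one of the two sets is contained in the other; values are `1` or `-1` (`rg`, `off`)
  by_cases hjk : j = k
  · subst hjk
    exact fun c => rfl
  · rcases mid_lf hF hj hk hjk with hl | hl
    · exact CntE_aux h hj hk hne hl
    · exact fun c => (CntE_aux h hk hj hne.symm hl c).symm

end Pool.Agent.W_a4f561_h25
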