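import Pool.Agent.W_a4f561_h25.CntB
import Pool.Agent.W_a4f561_h25.CntC
import Pool.Agent.W_a4f561_h25.CntD
import Pool.Agent.W_a4f561_h25.CntE

/-!
MP_a4f561_co, proofs row 554, total.
-/

set_option autoImplicit false

namespace Pool.Agent.W_a4f561_h25

open Sum Y

variable {V E : Type} {A : Pl V E} {D : E → Prop}

open Classical in
/-- Total. -/
theorem card_total [Finite V] [Finite E] {l q : ℕ} {s : Fin q → Y V E → ℤ} (h : Good A l D q s)
    {T : Y V E → Prop} {F : Finset E} (hF : Cut A D T F) :
    F.card ≤ 11 * q + 8 + 4 * l := by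
  -- `bad_card`, `card_on`; the rest is `Mid` (`not_bad`); `card_A`; the remaining edges:
  -- `Finset.card_le_mul_card_image` for `kap s` (image in `range (q + 1)`), 8 in every class by `same_kap`,
  -- `card_B`, `card_C`, `card_D`
  set M : Finset E := F.filter fun e => ¬ Bad A D s T e ∧ ¬ ∃ c, s c (m e) = 0 with hMdef
  have hM : ∀ e ∈ M, Mid A D s T F e := by
    intro e he
    obtain ⟨he1, he2, he3⟩ := Finset.mem_filter.1 he
    obtain ⟨h1, h2, h3⟩ := not_bad h.st hF he1 he2
    exact ⟨he1, h1, h2, h3, fun c hc => he3 ⟨c, hc⟩⟩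
  -- the edges of the last kind
  set R : Finset E := M.filter fun e => ¬ ((∀ f, ¬ Sf A D e f) ∧ (∀ f, ¬ Pf A D e f) ∧
    ¬ (Cov s (A.tl e) ∧ Cov s (A.hd e))) with hRdef
  have hR : R.card ≤ 8 * (q + 1) := by
    have h1 : R.card ≤ 8 * (R.image (kap s)).card := by
      refine Finset.card_le_mul_card_image R 8 fun a _ => ?_
      set S : Finset E := M.filter fun e => kap s e = a with hSdef
      have hS : ∀ e ∈ S, Mid A D s T F e := fun e he => hM e (Finset.mem_filter.1 he).1
      have hs : ∀ e ∈ S, ∀ e' ∈ S, ∀ c, s c (m e) = s c (m e') := by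
        intro e he e' he'
        refine same_kap h.st hF (hS e he) (hS e' he') ?_
        rw [(Finset.mem_filter.1 he).2, (Finset.mem_filter.1 he').2]
      have h2 := card_B h.st hF S hS hs
      have h3 := card_C h.st hF S hS hs
      have h4 := card_D h hF S hS hs
      have h5 : (R.filter fun e => kap s e = a) ⊆
          ((S.filter fun e => ∃ f, Sf A D e f) ∪ (S.filter fun e => ∃ f, Pf A D e f)) ∪
          (S.filter fun e => (∀ f, ¬ Sf A D e f) ∧ (∀ f, ¬ Pf A D e f) ∧ Cov s (A.tl e) ∧
            Cov s (A.hd e)) := by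
        intro e he
        obtain ⟨he1, he2⟩ := Finset.mem_filter.1 he
        obtain ⟨he3, he4⟩ := Finset.mem_filter.1 he1
        have heS : e ∈ S := Finset.mem_filter.2 ⟨he3, he2⟩
        by_cases h6 : ∃ f, Sf A D e f
        · exact Finset.mem_union_left _ (Finset.mem_union_left _ (Finset.mem_filter.2 ⟨heS, h6⟩))
        · by_cases h7 : ∃ f, Pf A D e f
          · exact Finset.mem_union_left _ (Finset.mem_union_right _
              (Finset.mem_filter.2 ⟨heS, h7⟩))
          · refine Finset.mem_union_right _ (Finset.mem_filter.2 ?_)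
            push Not at h6 h7
            have h8 : Cov s (A.tl e) ∧ Cov s (A.hd e) := by
              by_contra h9
              exact he4 ⟨h6, h7, h9⟩
            exact ⟨heS, h6, h7, h8.1, h8.2⟩
      have h6 := Finset.card_le_card h5
      have h7 := Finset.card_union_le ((S.filter fun e => ∃ f, Sf A D e f) ∪
        (S.filter fun e => ∃ f, Pf A D e f))
        (S.filter fun e => (∀ f, ¬ Sf A D e f) ∧ (∀ f, ¬ Pf A D e f) ∧ Cov s (A.tl e) ∧
            Cov s (A.hd e))
      have h8 := Finset.card_union_le (S.filter fun e => ∃ f, Sf A D e f)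
        (S.filter fun e => ∃ f, Pf A D e f)
      omega
    have h2 : (R.image (kap s)).card ≤ q + 1 := by
      have h3 : R.image (kap s) ⊆ Finset.range (q + 1) := by
        intro a ha
        obtain ⟨e, -, rfl⟩ := Finset.mem_image.1 ha
        rw [Finset.mem_range]
        have h4 : kap s e ≤ q := by
          unfold kap
          refine (Finset.card_filter_le _ _).trans ?_
          simp
        omega
      simpa using Finset.card_le_card h3
    calc R.card ≤ 8 * (R.image (kap s)).card := h1
      _ ≤ 8 * (q + 1) := Nat.mul_le_mul_left 8 h2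
  have hA := card_A h hF M hM
  have hB := bad_card (s := s) hF
  have hO := card_on h.st hF
  -- the pieces
  have h1 : M.card = (M.filter fun e => (∀ f, ¬ Sf A D e f) ∧ (∀ f, ¬ Pf A D e f) ∧
      ¬ (Cov s (A.tl e) ∧ Cov s (A.hd e))).card + R.card :=
    (Finset.card_filter_add_card_filter_not (s := M) _).symm
  have h2 : F ⊆ ((F.filter fun e => Bad A D s T e) ∪
      (F.filter fun e => ¬ Bad A D s T e ∧ ∃ c, s c (m e) = 0)) ∪ M := by
    intro e he
    by_cases h3 : Bad A D s T e
    · exact Finset.mem_union_left _ (Finset.mem_union_left _ (Finset.mem_filter.2 ⟨he, h3⟩))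
    · by_cases h4 : ∃ c, s c (m e) = 0
      · exact Finset.mem_union_left _ (Finset.mem_union_right _
          (Finset.mem_filter.2 ⟨he, h3, h4⟩))
      · exact Finset.mem_union_right _ (Finset.mem_filter.2 ⟨he, h3, h4⟩)
  have h3 := Finset.card_le_card h2
  have h4 := Finset.card_union_le ((F.filter fun e => Bad A D s T e) ∪
      (F.filter fun e => ¬ Bad A D s T e ∧ ∃ c, s c (m e) = 0)) M
  have h5 := Finset.card_union_le (F.filter fun e => Bad A D s T e)
      (F.filter fun e => ¬ Bad A D s T e ∧ ∃ c, s c (m e) = 0)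
  omega

end Pool.Agent.W_a4f561_h25
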