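import Mathlib

/-!
MP_a4f561_co: twists.
-/

set_option autoImplicit false

namespace Pool.Agent.W_a4f561_h25

/-- A set of pairwise crossing edges for the order `σ`. -/
def IsTwist {V E : Type} (tl hd : E → V) (σ : V → V → Prop) (F : Finset E) : Prop :=
  ∀ e ∈ F, ∀ e' ∈ F, e ≠ e' →
    (σ (tl e) (tl e') ∧ σ (tl e') (hd e) ∧ σ (hd e) (hd e')) ∨
    (σ (tl e') (tl e) ∧ σ (tl e) (hd e') ∧ σ (hd e') (hd e))

end Pool.Agent.W_a4f561_h25
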