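import Pool.Agent.W_a4f561_h25.CntF
import Pool.Agent.W_a4f561_h25.Twist

/-!
MP_a4f561_co: the core theorem (part A).
-/

set_option autoImplicit false

namespace Pool.Agent.W_a4f561_h25

open Sum Y

theorem core {V E : Type} [Fintype V] [Fintype E] (A : Pl V E) (l : ℕ) (hl : 0 < l) :
    ∃ σ : V → V → Prop, (∀ x, ¬ σ x x) ∧ (∀ x y z, σ x y → σ y z → σ x z) ∧
      (∀ x y, x ≠ y → σ x y ∨ σ y x) ∧ (∀ e, σ (A.tl e) (A.hd e)) ∧
      ∀ F : Finset E, IsTwist A.tl A.hd σ F → F.card ≤ 11 * (Fintype.card V / l) + 8 + 4 * l := by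
  classical
  obtain ⟨D, q, s, h, hq⟩ := exists_good A l hl
  refine ⟨fun x y => Lo A D (v x) (v y), fun x => lo_irr _, fun x y z => lo_tr, ?_, ?_, ?_⟩
  · intro x y hxy
    exact lo_tot fun h => hxy (by simpa using h)
  · intro e
    exact lt_lo ((((Relation.TransGen.single (St.tl e)).tail (St.am e)).tail (St.mb e)).tail
      (St.hd e))
  · intro F hF
    rcases F.eq_empty_or_nonempty with rfl | hne
    · simp
    -- the edge with the last tail
    obtain ⟨e0, he0, hmax⟩ : ∃ e0 ∈ F, ∀ e ∈ F, ¬ Lo A D (v (A.tl e0)) (v (A.tl e)) := by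
      have wf : WellFounded (fun e e' : E => Lo A D (v (A.tl e')) (v (A.tl e))) := by
        have i1 : IsTrans E (fun e e' : E => Lo A D (v (A.tl e')) (v (A.tl e))) :=
          ⟨fun _ _ _ h1 h2 => lo_tr h2 h1⟩
        have i2 : Std.Irrefl (fun e e' : E => Lo A D (v (A.tl e')) (v (A.tl e))) :=
          ⟨fun _ => lo_irr _⟩
        exact Finite.wellFounded_of_trans_of_irrefl _
      obtain ⟨e0, h0, h1⟩ := wf.has_min (F : Set E) hne
      exact ⟨e0, h0, fun e he => h1 e he⟩
    have hC : Cut A D (fun x => x = v (A.tl e0) ∨ Lo A D x (v (A.tl e0))) F := by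
      refine ⟨?_, ?_, ?_, ?_, ?_, ?_⟩
      · rintro x y h1 (h2 | h2)
        · rw [h2] at h1
          exact Or.inr h1
        · exact Or.inr (lo_tr h1 h2)
      · intro e he
        by_cases h1 : (v (A.tl e) : Y V E) = v (A.tl e0)
        · exact Or.inl h1
        · rcases lo_tot (A := A) (D := D) h1 with h2 | h2
          · exact Or.inr h2
          · exact absurd h2 (hmax e he)
      · intro e he h1
        have h2 : Lo A D (v (A.tl e0)) (v (A.hd e)) := by
          by_cases hee : e = e0
          · rw [hee]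
            exact lt_lo ((((Relation.TransGen.single (St.tl e0)).tail (St.am e0)).tail
              (St.mb e0)).tail (St.hd e0))
          · rcases hF e he e0 he0 hee with ⟨_, h3, _⟩ | ⟨h3, _⟩
            · exact h3
            · exact absurd h3 (hmax e he)
        rcases h1 with h1 | h1
        · rw [h1] at h2
          exact lo_irr _ h2
        · exact lo_as h2 h1
      · intro e he e' he' h1
        by_contra hne'
        rcases hF e he e' he' hne' with ⟨h2, _⟩ | ⟨h2, _⟩
        · rw [h1] at h2
          exact lo_irr _ h2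
        · rw [h1] at h2
          exact lo_irr _ h2
      · intro e he e' he' h1
        by_contra hne'
        rcases hF e he e' he' hne' with ⟨_, _, h2⟩ | ⟨_, _, h2⟩
        · rw [h1] at h2
          exact lo_irr _ h2
        · rw [h1] at h2
          exact lo_irr _ h2
      · intro e he e' he'
        by_cases hee : e = e'
        · subst hee
          exact ⟨fun h1 => absurd h1 (lo_irr _), fun h1 => absurd h1 (lo_irr _)⟩
        · rcases hF e he e' he' hee with ⟨h2, _, h3⟩ | ⟨h2, _, h3⟩
          · exact ⟨fun _ => h3, fun _ => h2⟩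
          · exact ⟨fun h1 => absurd h1 (lo_as h2), fun h1 => absurd h1 (lo_as h3)⟩
    have h1 := card_total h hC
    have h2 : q ≤ Fintype.card V / l := (Nat.le_div_iff_mul_le hl).2 hq
    omega

end Pool.Agent.W_a4f561_h25
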