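import Pool.Agent.W_a4f561_h25.Good

/-!
MP_a4f561_co, proofs row 554, section 4: twists, bad edges.
-/

set_option autoImplicit false

namespace Pool.Agent.W_a4f561_h25

open Sum Y

variable {V E : Type} {A : Pl V E} {D : E → Prop}

/-- A twist `F` with a `lo_D`-down-set `T` which contains all tails and no head. -/
structure Cut (A : Pl V E) (D : E → Prop) (T : Y V E → Prop) (F : Finset E) : Prop where
  dn : ∀ x y, Lo A D x y → T y → T x
  tl : ∀ e ∈ F, T (v (A.tl e))
  hd : ∀ e ∈ F, ¬ T (v (A.hd e))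
  ti : ∀ e ∈ F, ∀ e' ∈ F, A.tl e = A.tl e' → e = e'
  hi : ∀ e ∈ F, ∀ e' ∈ F, A.hd e = A.hd e' → e = e'
  cr : ∀ e ∈ F, ∀ e' ∈ F, Lo A D (v (A.tl e)) (v (A.tl e')) ↔ Lo A D (v (A.hd e)) (v (A.hd e'))

theorem Cut.rot {T : Y V E → Prop} {F : Finset E} (h : Cut A D T F) :
    Cut A.rot D (fun x => ¬ T x.rot) F where
  dn := fun x y h1 h2 h3 => h2 (h.dn _ _ ((lo_rot x y).1 h1) h3)
  tl := h.hd
  hd := fun e he h1 => h1 (h.tl e he)
  ti := h.hi
  hi := h.ti
  cr := fun e he e' he' => by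
    rw [lo_rot, lo_rot]
    exact (h.cr e' he' e he).symm

/-- The tail of `e` is the last vertex of a wall in `T`. -/
def BadT (A : Pl V E) (D : E → Prop) {q : ℕ} (s : Fin q → Y V E → ℤ) (T : Y V E → Prop) (e : E)
    (c : Fin q) : Prop :=
  s c (v (A.tl e)) = 0 ∧ ∀ w, s c (v w) = 0 → T (v w) → w = A.tl e ∨ Lt A D (v w) (v (A.tl e))

/-- The head of `e` is the first vertex of a wall outside `T`. -/
def BadH (A : Pl V E) (D : E → Prop) {q : ℕ} (s : Fin q → Y V E → ℤ) (T : Y V E → Prop) (e : E)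
    (c : Fin q) : Prop :=
  s c (v (A.hd e)) = 0 ∧ ∀ w, s c (v w) = 0 → ¬ T (v w) → w = A.hd e ∨ Lt A D (v (A.hd e)) (v w)

def Bad (A : Pl V E) (D : E → Prop) {q : ℕ} (s : Fin q → Y V E → ℤ) (T : Y V E → Prop) (e : E) : Prop :=
  ∃ c, BadT A D s T e c ∨ BadH A D s T e c

theorem bad_rot {q : ℕ} {s : Fin q → Y V E → ℤ} {T : Y V E → Prop} {e : E} :
    Bad A.rot D (fun c x => - s c x.rot) (fun x => ¬ T x.rot) e ↔ Bad A D s T e := by
  unfold Bad BadT BadH
  refine exists_congr fun c => ?_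
  rw [or_comm]
  refine or_congr (and_congr neg_eq_zero (forall_congr' fun w => ?_))
    (and_congr neg_eq_zero (forall_congr' fun w => ?_))
  · rw [lt_rot]
    simp only [rot_v, neg_eq_zero, not_not]
    rfl
  · rw [lt_rot]
    simp only [rot_v, neg_eq_zero]
    rfl

open Classical in
/-- At most `2 q` bad edges. -/
theorem bad_card {q : ℕ} {s : Fin q → Y V E → ℤ} {T : Y V E → Prop} {F : Finset E}
    (hF : Cut A D T F) : (F.filter fun e => Bad A D s T e).card ≤ 2 * q := by
  have hT : ∀ c, ∀ e ∈ F, ∀ e' ∈ F, BadT A D s T e c → BadT A D s T e' c → e = e' := by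
    intro c e he e' he' h1 h2
    refine hF.ti e he e' he' ?_
    rcases h1.2 _ h2.1 (hF.tl e' he') with h3 | h3
    · exact h3.symm
    rcases h2.2 _ h1.1 (hF.tl e he) with h4 | h4
    · exact h4
    · exact absurd h3 (lt_as h4)
  have hH : ∀ c, ∀ e ∈ F, ∀ e' ∈ F, BadH A D s T e c → BadH A D s T e' c → e = e' := by
    intro c e he e' he' h1 h2
    refine hF.hi e he e' he' ?_
    rcases h1.2 _ h2.1 (hF.hd e' he') with h3 | h3
    · exact h3.symm
    rcases h2.2 _ h1.1 (hF.hd e he) with h4 | h4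
    · exact h4
    · exact absurd h3 (lt_as h4)
  have hsub : (F.filter fun e => Bad A D s T e) ⊆
      ((Finset.univ : Finset (Fin q)).biUnion fun c => F.filter fun e => BadT A D s T e c) ∪
      ((Finset.univ : Finset (Fin q)).biUnion fun c => F.filter fun e => BadH A D s T e c) := by
    intro e he
    rw [Finset.mem_filter] at he
    obtain ⟨he, c, h1 | h1⟩ := he
    · refine Finset.mem_union_left _ (Finset.mem_biUnion.2 ⟨c, Finset.mem_univ _, ?_⟩)
      exact Finset.mem_filter.2 ⟨he, h1⟩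
    · refine Finset.mem_union_right _ (Finset.mem_biUnion.2 ⟨c, Finset.mem_univ _, ?_⟩)
      exact Finset.mem_filter.2 ⟨he, h1⟩
  have h1 : ((Finset.univ : Finset (Fin q)).biUnion fun c =>
      F.filter fun e => BadT A D s T e c).card ≤ q := by
    refine (Finset.card_biUnion_le_card_mul _ _ 1 ?_).trans (by simp)
    intro c _
    refine Finset.card_le_one.2 ?_
    intro e he e' he'
    rw [Finset.mem_filter] at he he'
    exact hT c e he.1 e' he'.1 he.2 he'.2
  have h2 : ((Finset.univ : Finset (Fin q)).biUnion fun c =>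
      F.filter fun e => BadH A D s T e c).card ≤ q := by
    refine (Finset.card_biUnion_le_card_mul _ _ 1 ?_).trans (by simp)
    intro c _
    refine Finset.card_le_one.2 ?_
    intro e he e' he'
    rw [Finset.mem_filter] at he he'
    exact hH c e he.1 e' he'.1 he.2 he'.2
  have h3 := (Finset.card_le_card hsub).trans (Finset.card_union_le _ _)
  omega

/-- A D-edge `f` with tail in `T` and `m f` not in `T`: its tail is the last vertex of a wall in `T`. -/
theorem badT_of {q : ℕ} {s : Fin q → Y V E → ℤ} (h : Sta A D q s) {T : Y V E → Prop}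
    {F : Finset E} (hF : Cut A D T F) {f : E} (hf : D f) (h2 : ¬ T (m f)) :
    ∃ c, BadT A D s T f c := by
  obtain ⟨c, h3, _, h4⟩ := h.w3 f hf
  refine ⟨c, h3, fun w hw hTw => ?_⟩
  by_cases hne : w = A.tl f
  · exact Or.inl hne
  right
  rcases h.chain (x := v w) (y := v (A.tl f)) hw h3 (fun h5 => hne (by simpa using h5)) with h5 | h5
  · exact h5
  · exact absurd (hF.dn _ _ (lt_lo (h4 w hw h5)) hTw) h2

/-- A D-edge `f` with `m f` in `T`: its head is the first vertex of a wall outside `T`. -/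
theorem badH_of {q : ℕ} {s : Fin q → Y V E → ℤ} (h : Sta A D q s) {T : Y V E → Prop}
    {F : Finset E} (hF : Cut A D T F) {f : E} (hf : D f) (h2 : T (m f)) :
    ∃ c, BadH A D s T f c := by
  obtain ⟨c, hc⟩ := badT_of h.rot hF.rot hf (by simpa using h2)
  refine ⟨c, neg_eq_zero.1 hc.1, fun w h3 h4 => ?_⟩
  have h5 := hc.2 w (neg_eq_zero.2 h3) h4
  rw [lt_rot] at h5
  exact h5

/-- Edges which are not bad. -/
theorem not_bad [Finite E] {q : ℕ} {s : Fin q → Y V E → ℤ} (h : Sta A D q s)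
    {T : Y V E → Prop} {F : Finset E} (hF : Cut A D T F) {e : E} (he : e ∈ F)
    (hb : ¬ Bad A D s T e) : ¬ D e ∧ T (bot A D e) ∧ ¬ T (top A D e) := by
  refine ⟨fun hD => ?_, ?_, ?_⟩
  · by_cases h1 : T (m e)
    · obtain ⟨c, hc⟩ := badH_of h hF hD h1
      exact hb ⟨c, Or.inr hc⟩
    · obtain ⟨c, hc⟩ := badT_of h hF hD h1
      exact hb ⟨c, Or.inl hc⟩
  · rcases bot_cases A D e with ⟨_, h1⟩ | ⟨f, h1, _, h3⟩
    · rw [h1]
      exact hF.tl e he
    · rw [h3]
      by_contra hcon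
      obtain ⟨c, hc⟩ := badT_of h hF h1.1 hcon
      refine hb ⟨c, Or.inl ?_⟩
      unfold BadT at hc ⊢
      rw [← h1.2.1]
      exact hc
  · rcases top_cases A D e with ⟨_, h1⟩ | ⟨f, h1, _, h3⟩
    · rw [h1]
      exact hF.hd e he
    · rw [h3]
      intro hcon
      obtain ⟨c, hc⟩ := badH_of h hF h1.1 hcon
      refine hb ⟨c, Or.inr ?_⟩
      unfold BadH at hc ⊢
      rw [← h1.2.1]
      exact hc

/-- The points `m e` of edges which are not bad are incomparable. -/
theorem anti [Finite E] {T : Y V E → Prop} {F : Finset E} (hF : Cut A D T F) {e e' : E}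
    (h1 : ¬ D e) (h2 : ¬ D e') (h3 : ¬ T (top A D e)) (h4 : T (bot A D e')) :
    ¬ Lt A D (m e) (m e') := by
  intro hlt
  rcases lt_m h2 hlt with h5 | h5 | h5
  · simp at h5
  · exact bot_ne_m h1 h5.symm
  · rcases m_lt h1 h5 with h6 | h6 | h6
    · rcases bot_cases A D e' with ⟨_, h7⟩ | ⟨f, _, _, h7⟩
      · rw [h7] at h6
        simp at h6
      · rw [h7] at h6
        simp at h6
    · rw [h6] at h3
      exact h3 h4
    · exact h3 (hF.dn _ _ (lt_lo h6) h4)

end Pool.Agent.W_a4f561_h25
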