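import Mathlib

/-!
MP_a4f561_co: planar st-graphs as two linear orders, cut edges (pinching), the order `P_D`.
See proofs row 554 (sections 1 and 2).
-/

set_option autoImplicit false

namespace Pool.Agent.W_a4f561_h25

open Sum

/-- Planar st-structure: vertices `V`, edges `E`, the left-first order `lo` and the right-first order
`ro` on vertices and edges.  `lo ∩ ro` is reachability, `x` is left of `y` if `lo x y` and `ro y x`. -/
structure Pl (V E : Type) where
  tl : E → V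
  hd : E → V
  lo : V ⊕ E → V ⊕ E → Prop
  ro : V ⊕ E → V ⊕ E → Prop
  lo_irr : ∀ x, ¬ lo x x
  lo_tr : ∀ x y z, lo x y → lo y z → lo x z
  lo_tot : ∀ x y, x ≠ y → lo x y ∨ lo y x
  ro_irr : ∀ x, ¬ ro x x
  ro_tr : ∀ x y z, ro x y → ro y z → ro x z
  ro_tot : ∀ x y, x ≠ y → ro x y ∨ ro y x
  tl_lo : ∀ e, lo (inl (tl e)) (inr e)
  tl_ro : ∀ e, ro (inl (tl e)) (inr e)
  hd_lo : ∀ e, lo (inr e) (inl (hd e))
  hd_ro : ∀ e, ro (inr e) (inl (hd e))
  dn_e : ∀ x e, lo x (inr e) → ro x (inr e) → x = inl (tl e) ∨ (lo x (inl (tl e)) ∧ ro x (inl (tl e)))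
  up_e : ∀ x e, lo (inr e) x → ro (inr e) x → x = inl (hd e) ∨ (lo (inl (hd e)) x ∧ ro (inl (hd e)) x)
  dn_v : ∀ x v, lo x (inl v) → ro x (inl v) → ∃ r, hd r = v ∧ (x = inr r ∨ (lo x (inr r) ∧ ro x (inr r)))
  up_v : ∀ x v, lo (inl v) x → ro (inl v) x → ∃ r, tl r = v ∧ (x = inr r ∨ (lo (inr r) x ∧ ro (inr r) x))

variable {V E : Type}

/-- Rotation by 180 degrees. -/
def Pl.rot (A : Pl V E) : Pl V E where
  tl := A.hd
  hd := A.tl
  lo := fun x y => A.lo y x
  ro := fun x y => A.ro y x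
  lo_irr := A.lo_irr
  lo_tr := fun x y z h1 h2 => A.lo_tr z y x h2 h1
  lo_tot := fun x y h => A.lo_tot y x h.symm
  ro_irr := A.ro_irr
  ro_tr := fun x y z h1 h2 => A.ro_tr z y x h2 h1
  ro_tot := fun x y h => A.ro_tot y x h.symm
  tl_lo := A.hd_lo
  tl_ro := A.hd_ro
  hd_lo := A.tl_lo
  hd_ro := A.tl_ro
  dn_e := A.up_e
  up_e := A.dn_e
  dn_v := A.up_v
  up_v := A.dn_v

/-- Vertices, and three points `a e < m e < b e` for every edge. -/
inductive Y (V E : Type) : Type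
  | v : V → Y V E
  | a : E → Y V E
  | m : E → Y V E
  | b : E → Y V E

namespace Y

/-- The place of a point. -/
def pl : Y V E → V ⊕ E
  | v x => inl x
  | a e => inr e
  | m e => inr e
  | b e => inr e

def ix : Y V E → ℕ
  | v _ => 0
  | a _ => 0
  | m _ => 1
  | b _ => 2

/-- Rotation. -/
def rot : Y V E → Y V E
  | v x => v x
  | a e => b e
  | m e => m e
  | b e => a e

@[simp] theorem rot_v (x : V) : (v x : Y V E).rot = v x := rfl
@[simp] theorem rot_a (e : E) : (a e : Y V E).rot = b e := rfl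
@[simp] theorem rot_m (e : E) : (m e : Y V E).rot = m e := rfl
@[simp] theorem rot_b (e : E) : (b e : Y V E).rot = a e := rfl
@[simp] theorem rot_rot (x : Y V E) : x.rot.rot = x := by cases x <;> rfl
@[simp] theorem pl_v (x : V) : (v x : Y V E).pl = inl x := rfl
@[simp] theorem pl_a (e : E) : (a e : Y V E).pl = inr e := rfl
@[simp] theorem pl_m (e : E) : (m e : Y V E).pl = inr e := rfl
@[simp] theorem pl_b (e : E) : (b e : Y V E).pl = inr e := rfl
@[simp] theorem ix_v (x : V) : (v x : Y V E).ix = 0 := rfl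
@[simp] theorem ix_a (e : E) : (a e : Y V E).ix = 0 := rfl
@[simp] theorem ix_m (e : E) : (m e : Y V E).ix = 1 := rfl
@[simp] theorem ix_b (e : E) : (b e : Y V E).ix = 2 := rfl
@[simp] theorem pl_rot (x : Y V E) : x.rot.pl = x.pl := by cases x <;> rfl

theorem rot_inj {x y : Y V E} (h : x.rot = y.rot) : x = y := by
  rw [← rot_rot x, h, rot_rot]

theorem ext' {x y : Y V E} (h1 : x.pl = y.pl) (h2 : x.ix = y.ix) : x = y := by
  cases x <;> cases y <;> simp_all

end Y

open Y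

/-- `x` is left of `y`. -/
def Pl.L (A : Pl V E) (x y : V ⊕ E) : Prop := A.lo x y ∧ A.ro y x

/-- The right-first order on the points. -/
def Ro (A : Pl V E) (x y : Y V E) : Prop := A.ro x.pl y.pl ∨ (x.pl = y.pl ∧ x.ix < y.ix)

/-- Generators of `P_D`. -/
inductive St (A : Pl V E) (D : E → Prop) : Y V E → Y V E → Prop
  | tl (e : E) : St A D (v (A.tl e)) (a e)
  | am (e : E) : St A D (a e) (m e)
  | mb (e : E) : St A D (m e) (b e)
  | hd (e : E) : St A D (b e) (v (A.hd e))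
  | p (f g : E) : D f → A.hd g = A.hd f → A.L (inr f) (inr g) → St A D (b g) (m f)
  | q (f h : E) : D f → A.tl h = A.tl f → A.L (inr h) (inr f) → St A D (m f) (a h)

/-- The order `P_D`. -/
def Lt (A : Pl V E) (D : E → Prop) : Y V E → Y V E → Prop := Relation.TransGen (St A D)

/-- The order `lo_D`. -/
def Lo (A : Pl V E) (D : E → Prop) (x y : Y V E) : Prop :=
  (Ro A x y ∧ Lt A D x y) ∨ (Ro A y x ∧ ¬ Lt A D y x)

/-- `x` is left of `y` for `P_D`. -/
def Lf (A : Pl V E) (D : E → Prop) (x y : Y V E) : Prop :=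
  Ro A y x ∧ ¬ Lt A D x y ∧ ¬ Lt A D y x

variable {A : Pl V E} {D : E → Prop}

theorem ro_rot (x y : Y V E) : Ro A.rot x y ↔ Ro A y.rot x.rot := by
  unfold Ro
  rw [pl_rot, pl_rot]
  have h : x.pl = y.pl → (x.ix < y.ix ↔ y.rot.ix < x.rot.ix) := by
    cases x <;> cases y <;> simp [Y.ix, Y.rot]
  constructor
  · rintro (h1 | ⟨h1, h2⟩)
    · exact Or.inl h1
    · exact Or.inr ⟨h1.symm, (h h1).1 h2⟩
  · rintro (h1 | ⟨h1, h2⟩)
    · exact Or.inl h1
    · exact Or.inr ⟨h1.symm, (h h1.symm).2 h2⟩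

theorem st_rot_aux {x y : Y V E} (h : St A D x y) : St A.rot D y.rot x.rot := by
  cases h with
  | tl e => exact St.hd (A := A.rot) e
  | am e => exact St.mb e
  | mb e => exact St.am e
  | hd e => exact St.tl (A := A.rot) e
  | p f g h1 h2 h3 => exact St.q f g h1 h2 ⟨h3.1, h3.2⟩
  | q f g h1 h2 h3 => exact St.p f g h1 h2 ⟨h3.1, h3.2⟩

theorem st_rot (x y : Y V E) : St A.rot D x y ↔ St A D y.rot x.rot :=
  ⟨fun h => st_rot_aux (A := A.rot) h, fun h => by simpa using st_rot_aux h⟩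

theorem lt_rot_aux {x y : Y V E} (h : Lt A D x y) : Lt A.rot D y.rot x.rot := by
  induction h with
  | single h => exact Relation.TransGen.single (st_rot_aux h)
  | tail _ h ih => exact Relation.TransGen.head (st_rot_aux h) ih

theorem lt_rot (x y : Y V E) : Lt A.rot D x y ↔ Lt A D y.rot x.rot :=
  ⟨fun h => lt_rot_aux (A := A.rot) h, fun h => by simpa using lt_rot_aux h⟩

theorem lo_rot (x y : Y V E) : Lo A.rot D x y ↔ Lo A D y.rot x.rot := by
  unfold Lo
  rw [ro_rot, ro_rot, lt_rot, lt_rot]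

theorem lf_rot (x y : Y V E) : Lf A.rot D x y ↔ Lf A D y.rot x.rot := by
  unfold Lf
  rw [ro_rot, lt_rot, lt_rot]

theorem Lt.tr {x y z : Y V E} (h1 : Lt A D x y) (h2 : Lt A D y z) : Lt A D x z :=
  Relation.TransGen.trans h1 h2

/-- `P_D` grows with `D`. -/
theorem lt_mono {D' : E → Prop} (h : ∀ f, D f → D' f) {x y : Y V E} (h1 : Lt A D x y) :
    Lt A D' x y := by
  refine Relation.TransGen.mono (p := St A D') ?_ x y h1
  intro x y h2
  cases h2 with
  | tl e => exact St.tl e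
  | am e => exact St.am e
  | mb e => exact St.mb e
  | hd e => exact St.hd e
  | p f g h1 h2 h3 => exact St.p f g (h f h1) h2 h3
  | q f g h1 h2 h3 => exact St.q f g (h f h1) h2 h3

end Pool.Agent.W_a4f561_h25
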