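import Pool.Agent.W_a4f561_h25.SwC

/-!
MP_a4f561_co, drawings with several sources and sinks, 1: the step of the sweep with explicit orders
(the proof is the one of `Inv.step` in SwB).
-/

set_option autoImplicit false

namespace Pool.Agent.W_a4f561_h25

open Sum

variable {V E : Type} {tl hd : E → V} {S : Set (V ⊕ E)} {lo ro : V ⊕ E → V ⊕ E → Prop}
  {A B C O : List E} {v : V}

/-- The first element of a block of the live list. -/
theorem Inv.blk1 (H : Inv tl hd S (A ++ B ++ C) lo ro) {b1 : E} {B' : List E} (e1 : B = b1 :: B') :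
    b1 ∈ B ∧ ∀ b ∈ B, b = b1 ∨ (lo (inr b1) (inr b) ∧ ro (inr b) (inr b1)) := by
  subst e1
  refine ⟨List.mem_cons_self, ?_⟩
  intro b hb
  rcases List.mem_cons.1 hb with rfl | hb
  · exact Or.inl rfl
  · have h1 := (List.pairwise_append.1 (List.pairwise_append.1 H.lv_lo).1).2.1
    have h2 := (List.pairwise_append.1 (List.pairwise_append.1 H.lv_ro).1).2.1
    exact Or.inr ⟨(List.pairwise_cons.1 h1).1 b hb, (List.pairwise_cons.1 h2).1 b hb⟩

/-- The last element of a block of the live list. -/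
theorem Inv.blk2 (H : Inv tl hd S (A ++ B ++ C) lo ro) {bk : E} {B' : List E} (e2 : B = B' ++ [bk]) :
    bk ∈ B ∧ ∀ b ∈ B, b = bk ∨ (lo (inr b) (inr bk) ∧ ro (inr bk) (inr b)) := by
  subst e2
  refine ⟨by simp, ?_⟩
  intro b hb
  have h1 := (List.pairwise_append.1 (List.pairwise_append.1 H.lv_lo).1).2.1
  have h2 := (List.pairwise_append.1 (List.pairwise_append.1 H.lv_ro).1).2.1
  rw [List.pairwise_append] at h1 h2
  rcases List.mem_append.1 hb with hb | hb
  · exact Or.inr ⟨h1.2.2 b hb bk (by simp), h2.2.2 b hb bk (by simp)⟩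
  · exact Or.inl (List.mem_singleton.1 hb)

open Classical in
theorem Inv.step2 (H : Inv tl hd S (A ++ B ++ C) lo ro) {b1 bk : E} {B1 B2 : List E}
    (e1 : B = b1 :: B1) (e2 : B = B2 ++ [bk]) (hv : inl v ∉ S) (hO : O ≠ [])
    (hOt : ∀ o ∈ O, tl o = v) {q : E → E → Prop} (hq : LinOn {e | e ∈ O} q)
    (hqO : O.Pairwise q) :
    Inv tl (fun e => if e ∈ B then v else hd e) (S ∪ Nw v O) (A ++ O ++ C)
      (Ins lo (inr bk) (Nw v O) (Vf q)) (Ins ro (inr b1) (Nw v O) (Vf fun x y => q y x)) := by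
  obtain ⟨hb1, hB1⟩ := H.blk1 e1
  obtain ⟨hbk, hBk⟩ := H.blk2 e2
  have hAB : ∀ a ∈ A, ∀ b ∈ B, lo (inr a) (inr b) ∧ ro (inr b) (inr a) := fun a ha b hb =>
    ⟨(List.pairwise_append.1 (List.pairwise_append.1 H.lv_lo).1).2.2 a ha b hb,
      (List.pairwise_append.1 (List.pairwise_append.1 H.lv_ro).1).2.2 a ha b hb⟩
  have hAC : ∀ a ∈ A, ∀ c ∈ C, lo (inr a) (inr c) ∧ ro (inr c) (inr a) := fun a ha c hc =>
    ⟨(List.pairwise_append.1 H.lv_lo).2.2 a (List.mem_append_left _ ha) c hc,
      (List.pairwise_append.1 H.lv_ro).2.2 a (List.mem_append_left _ ha) c hc⟩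
  have hBC : ∀ b ∈ B, ∀ c ∈ C, lo (inr b) (inr c) ∧ ro (inr c) (inr b) := fun b hb c hc =>
    ⟨(List.pairwise_append.1 H.lv_lo).2.2 b (List.mem_append_right _ hb) c hc,
      (List.pairwise_append.1 H.lv_ro).2.2 b (List.mem_append_right _ hb) c hc⟩
  have mA : ∀ a ∈ A, a ∈ A ++ B ++ C := fun a ha =>
    List.mem_append_left _ (List.mem_append_left _ ha)
  have mB : ∀ b ∈ B, b ∈ A ++ B ++ C := fun b hb =>
    List.mem_append_left _ (List.mem_append_right _ hb)
  have mC : ∀ c ∈ C, c ∈ A ++ B ++ C := fun c hc => List.mem_append_right _ hc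
  have sA : ∀ a ∈ A, inr a ∈ S := fun a ha => H.lvS a (mA a ha)
  have sB : ∀ b ∈ B, inr b ∈ S := fun b hb => H.lvS b (mB b hb)
  have sC : ∀ c ∈ C, inr c ∈ S := fun c hc => H.lvS c (mC c hc)
  have hBA : ∀ b ∈ B, b ∉ A := fun b hb hA => H.lo_lin.irr _ (sB b hb) (hAB b hA b hb).1
  have hBC' : ∀ b ∈ B, b ∉ C := fun b hb hC => H.lo_lin.irr _ (sB b hb) (hBC b hb b hC).1
  have hSN : ∀ x ∈ S, x ∉ Nw v O := by
    rintro x hx (rfl | ⟨e, he, rfl⟩)
    · exact hv hx
    · exact hv (hOt e he ▸ H.tlS e hx)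
  have hBO : ∀ b ∈ B, b ∉ O := fun b hb h => hSN _ (sB b hb) (nw_e h)
  have hBl : ∀ b ∈ B, b ∉ A ++ O ++ C := by
    intro b hb h
    rcases List.mem_append.1 h with h | h
    · rcases List.mem_append.1 h with h | h
      · exact hBA b hb h
      · exact hBO b hb h
    · exact hBC' b hb h
  have hlive : ∀ e, inr e ∈ S → e ∉ A ++ O ++ C → e ∉ B → e ∉ A ++ B ++ C := by
    intro e he h1 h2 h3
    rcases List.mem_append.1 h3 with h | h
    · rcases List.mem_append.1 h with h | h
      · exact h1 (List.mem_append_left _ (List.mem_append_left _ h))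
      · exact h2 h
    · exact h1 (List.mem_append_right _ h)
  have hdead : ∀ e, inr e ∈ S → e ∉ A ++ B ++ C → e ∉ A ++ O ++ C := by
    intro e he h1 h2
    rcases List.mem_append.1 h2 with h | h
    · rcases List.mem_append.1 h with h | h
      · exact h1 (mA e h)
      · exact hSN _ he (nw_e h)
    · exact h1 (mC e h)
  -- the key claims
  have K : ∀ x ∈ S, (x = inr bk ∨ lo x (inr bk)) → (x = inr b1 ∨ ro x (inr b1)) →
      ∃ b ∈ B, x = inr b ∨ (lo x (inr b) ∧ ro x (inr b)) := by
    intro x hx h1 h2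
    obtain ⟨e, he, hxe⟩ := H.cov x hx
    rcases List.mem_append.1 he with h | h
    · rcases List.mem_append.1 h with h | h
      · refine ⟨b1, hb1, ?_⟩
        rcases h2 with h2 | h2
        · exact Or.inl h2
        · refine Or.inr ⟨?_, h2⟩
          rcases hxe with rfl | hxe
          · exact (hAB e h b1 hb1).1
          · exact H.lo_lin.tr x hx _ (sA e h) _ (sB b1 hb1) hxe.1 (hAB e h b1 hb1).1
      · exact ⟨e, h, hxe⟩
    · refine ⟨bk, hbk, ?_⟩
      rcases h1 with h1 | h1
      · exact Or.inl h1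
      · refine Or.inr ⟨h1, ?_⟩
        rcases hxe with rfl | hxe
        · exact (hBC bk hbk e h).2
        · exact H.ro_lin.tr x hx _ (sC e h) _ (sB bk hbk) hxe.2 (hBC bk hbk e h).2
  have K' : ∀ x ∈ S, ∀ b ∈ B, (x = inr b ∨ (lo x (inr b) ∧ ro x (inr b))) →
      (x = inr bk ∨ lo x (inr bk)) ∧ (x = inr b1 ∨ ro x (inr b1)) := by
    intro x hx b hb h
    constructor
    · rcases hBk b hb with rfl | h1
      · rcases h with h | h
        · exact Or.inl h
        · exact Or.inr h.1
      · rcases h with rfl | h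
        · exact Or.inr h1.1
        · exact Or.inr (H.lo_lin.tr x hx _ (sB b hb) _ (sB bk hbk) h.1 h1.1)
    · rcases hB1 b hb with rfl | h1
      · rcases h with h | h
        · exact Or.inl h
        · exact Or.inr h.2
      · rcases h with rfl | h
        · exact Or.inr h1.2
        · exact Or.inr (H.ro_lin.tr x hx _ (sB b hb) _ (sB b1 hb1) h.2 h1.2)
  have T : ∀ x ∈ S, lo (inr bk) x → ro (inr b1) x → False := by
    intro x hx h1 h2
    refine H.top bk (mB bk hbk) x hx h1 ?_
    rcases hB1 bk hbk with h | h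
    · rw [h]
      exact h2
    · exact H.ro_lin.tr _ (sB bk hbk) _ (sB b1 hb1) x hx h.2 h2
  -- the new orders
  set lo' : V ⊕ E → V ⊕ E → Prop := Ins lo (inr bk) (Nw v O) (Vf q) with hlo'
  set ro' : V ⊕ E → V ⊕ E → Prop := Ins ro (inr b1) (Nw v O) (Vf fun x y => q y x) with hro'
  have lin1 : LinOn (S ∪ Nw v O) lo' := ins_lin H.lo_lin (vf_lin hq) (sB bk hbk) hSN
  have lin2 : LinOn (S ∪ Nw v O) ro' := ins_lin H.ro_lin (vf_lin hq.flip) (sB b1 hb1) hSN
  have lo_oo : ∀ x ∈ S, ∀ y ∈ S, (lo' x y ↔ lo x y) := fun x hx y hy =>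
    ins_oo (hSN x hx) (hSN y hy)
  have ro_oo : ∀ x ∈ S, ∀ y ∈ S, (ro' x y ↔ ro x y) := fun x hx y hy =>
    ins_oo (hSN x hx) (hSN y hy)
  -- a new element is above exactly what is below or in the block
  have dnN : ∀ x ∈ S, ∀ y ∈ Nw v O, lo' x y → ro' x y →
      ∃ b ∈ B, x = inr b ∨ (lo x (inr b) ∧ ro x (inr b)) := by
    intro x hx y hy h1 h2
    rw [hlo', ins_on (hSN x hx) hy] at h1
    rw [hro', ins_on (hSN x hx) hy] at h2
    exact K x hx h1 h2
  have upN : ∀ x ∈ S, ∀ y ∈ Nw v O, ∀ b ∈ B, (x = inr b ∨ (lo x (inr b) ∧ ro x (inr b))) →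
      lo' x y ∧ ro' x y := by
    intro x hx y hy b hb h
    obtain ⟨h1, h2⟩ := K' x hx b hb h
    rw [hlo', hro', ins_on (hSN x hx) hy, ins_on (hSN x hx) hy]
    exact ⟨h1, h2⟩
  have noN : ∀ x ∈ S, ∀ y ∈ Nw v O, lo' y x → ro' y x → False := by
    intro x hx y hy h1 h2
    rw [hlo', ins_no hy (hSN x hx)] at h1
    rw [hro', ins_no hy (hSN x hx)] at h2
    exact T x hx h1 h2
  have vO : ∀ o ∈ O, lo' (inl v) (inr o) ∧ ro' (inl v) (inr o) := by
    intro o ho
    rw [hlo', hro', ins_nn nw_v (nw_e ho), ins_nn nw_v (nw_e ho)]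
    exact ⟨trivial, trivial⟩
  have Ov : ∀ o ∈ O, ¬ lo' (inr o) (inl v) := by
    intro o ho h
    rw [hlo', ins_nn (nw_e ho) nw_v] at h
    exact h
  have OO : ∀ o ∈ O, ∀ o' ∈ O, lo' (inr o) (inr o') → ro' (inr o) (inr o') → False := by
    intro o ho o' ho' h1 h2
    rw [hlo', ins_nn (nw_e ho) (nw_e ho')] at h1
    rw [hro', ins_nn (nw_e ho) (nw_e ho')] at h2
    exact hq.as ho ho' h1 h2
  -- nothing placed is above the new elements of `O`
  have topO : ∀ o ∈ O, ∀ x ∈ S ∪ Nw v O, lo' (inr o) x → ro' (inr o) x → False := by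
    rintro o ho x (hx | hx) h1 h2
    · exact noN x hx _ (nw_e ho) h1 h2
    · rcases hx with rfl | ⟨o', ho', rfl⟩
      · exact Ov o ho h1
      · exact OO o ho o' ho' h1 h2
  -- nothing new is above a live element outside the block
  have topN : ∀ e ∈ A ++ B ++ C, e ∉ B → ∀ y ∈ Nw v O, lo' (inr e) y → ro' (inr e) y → False := by
    intro e he heB y hy h1 h2
    obtain ⟨b, hb, h | ⟨h, h'⟩⟩ := dnN _ (H.lvS e he) y hy h1 h2
    · exact heB (inr_injective h ▸ hb)
    · exact H.top e he _ (sB b hb) h h'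
  constructor
  case fin =>
    refine H.fin.union ?_
    refine Set.Finite.subset (((Set.finite_singleton (inl v)).union
      ((List.finite_toSet O).image inr))) ?_
    rintro x (rfl | ⟨e, he, rfl⟩)
    · exact Or.inl rfl
    · exact Or.inr ⟨e, he, rfl⟩
  case lo_lin => exact lin1
  case ro_lin => exact lin2
  case lvS =>
    intro e he
    rcases List.mem_append.1 he with h | h
    · rcases List.mem_append.1 h with h | h
      · exact Or.inl (sA e h)
      · exact Or.inr (nw_e h)
    · exact Or.inl (sC e h)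
  case lv_lo =>
    have h1 := (List.pairwise_append.1 (List.pairwise_append.1 H.lv_lo).1).1
    have h2 := (List.pairwise_append.1 H.lv_lo).2.1
    rw [List.pairwise_append, List.pairwise_append]
    refine ⟨⟨?_, ?_, ?_⟩, ?_, ?_⟩
    · exact h1.imp_of_mem fun {a b} ha hb h => (lo_oo _ (sA a ha) _ (sA b hb)).2 h
    · exact hqO.imp_of_mem fun {a b} ha hb h => (ins_nn (nw_e ha) (nw_e hb)).2 h
    · intro a ha o ho
      exact (ins_on (hSN _ (sA a ha)) (nw_e ho)).2 (Or.inr (hAB a ha bk hbk).1)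
    · exact h2.imp_of_mem fun {a b} ha hb h => (lo_oo _ (sC a ha) _ (sC b hb)).2 h
    · intro a ha c hc
      rcases List.mem_append.1 ha with ha | ha
      · exact (lo_oo _ (sA a ha) _ (sC c hc)).2 (hAC a ha c hc).1
      · exact (ins_no (nw_e ha) (hSN _ (sC c hc))).2 (hBC bk hbk c hc).1
  case lv_ro =>
    have h1 := (List.pairwise_append.1 (List.pairwise_append.1 H.lv_ro).1).1
    have h2 := (List.pairwise_append.1 H.lv_ro).2.1
    rw [List.pairwise_append, List.pairwise_append]
    refine ⟨⟨?_, ?_, ?_⟩, ?_, ?_⟩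
    · exact h1.imp_of_mem fun {a b} ha hb h => (ro_oo _ (sA b hb) _ (sA a ha)).2 h
    · exact hqO.imp_of_mem fun {a b} ha hb h => (ins_nn (nw_e hb) (nw_e ha)).2 h
    · intro a ha o ho
      exact (ins_no (nw_e ho) (hSN _ (sA a ha))).2 (hAB a ha b1 hb1).2
    · exact h2.imp_of_mem fun {a b} ha hb h => (ro_oo _ (sC b hb) _ (sC a ha)).2 h
    · intro a ha c hc
      rcases List.mem_append.1 ha with ha | ha
      · exact (ro_oo _ (sC c hc) _ (sA a ha)).2 (hAC a ha c hc).2
      · exact (ins_on (hSN _ (sC c hc)) (nw_e ha)).2 (Or.inr (hBC b1 hb1 c hc).2)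
  case top =>
    intro e he x hx h1 h2
    have hold : ∀ e ∈ A ++ B ++ C, e ∉ B → lo' (inr e) x → ro' (inr e) x → False := by
      intro e he heB h1 h2
      rcases hx with hx | hx
      · exact H.top e he x hx ((lo_oo _ (H.lvS e he) _ hx).1 h1)
          ((ro_oo _ (H.lvS e he) _ hx).1 h2)
      · exact topN e he heB x hx h1 h2
    rcases List.mem_append.1 he with h | h
    · rcases List.mem_append.1 h with h | h
      · exact hold e (mA e h) (fun h' => hBA e h' h) h1 h2
      · exact topO e h x hx h1 h2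
    · exact hold e (mC e h) (fun h' => hBC' e h' h) h1 h2
  case cov =>
    obtain ⟨o, ho⟩ := List.exists_mem_of_ne_nil O hO
    have hol : o ∈ A ++ O ++ C := List.mem_append_left _ (List.mem_append_right _ ho)
    rintro x (hx | hx)
    · obtain ⟨e, he, hxe⟩ := H.cov x hx
      by_cases heB : e ∈ B
      · exact ⟨o, hol, Or.inr (upN x hx _ (nw_e ho) e heB hxe)⟩
      · refine ⟨e, ?_, ?_⟩
        · rcases List.mem_append.1 he with h | h
          · rcases List.mem_append.1 h with h | h
            · exact List.mem_append_left _ (List.mem_append_left _ h)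
            · exact absurd h heB
          · exact List.mem_append_right _ h
        · rcases hxe with h | ⟨h, h'⟩
          · exact Or.inl h
          · exact Or.inr ⟨(lo_oo x hx _ (H.lvS e he)).2 h, (ro_oo x hx _ (H.lvS e he)).2 h'⟩
    · rcases hx with rfl | ⟨e, he, rfl⟩
      · exact ⟨o, hol, Or.inr (vO o ho)⟩
      · exact ⟨e, List.mem_append_left _ (List.mem_append_right _ he), Or.inl rfl⟩
  case tlS =>
    rintro e (he | he)
    · exact Or.inl (H.tlS e he)
    · rw [hOt e (nw_e' he)]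
      exact Or.inr nw_v
  case tl_lt =>
    rintro e (he | he)
    · exact ⟨(lo_oo _ (H.tlS e he) _ he).2 (H.tl_lt e he).1,
        (ro_oo _ (H.tlS e he) _ he).2 (H.tl_lt e he).2⟩
    · rw [hOt e (nw_e' he)]
      exact vO e (nw_e' he)
  case hdS =>
    rintro e (he | he) hl
    · show inl (if e ∈ B then v else hd e) ∈ S ∪ Nw v O
      by_cases heB : e ∈ B
      · rw [if_pos heB]
        exact Or.inr nw_v
      · rw [if_neg heB]
        exact Or.inl (H.hdS e he (hlive e he hl heB))
    · exact absurd (List.mem_append_left _ (List.mem_append_right _ (nw_e' he))) hl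
  case hd_lt =>
    rintro e (he | he) hl
    · show lo' (inr e) (inl (if e ∈ B then v else hd e)) ∧
        ro' (inr e) (inl (if e ∈ B then v else hd e))
      by_cases heB : e ∈ B
      · rw [if_pos heB]
        exact upN _ he _ nw_v e heB (Or.inl rfl)
      · rw [if_neg heB]
        have h1 := H.hd_lt e he (hlive e he hl heB)
        have h2 := H.hdS e he (hlive e he hl heB)
        exact ⟨(lo_oo _ he _ h2).2 h1.1, (ro_oo _ he _ h2).2 h1.2⟩
    · exact absurd (List.mem_append_left _ (List.mem_append_right _ (nw_e' he))) hl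
  case dn_e =>
    rintro x hx e (he | he) h1 h2
    · rcases hx with hx | hx
      · have h3 := H.dn_e x hx e he ((lo_oo _ hx _ he).1 h1) ((ro_oo _ hx _ he).1 h2)
        rcases h3 with h3 | ⟨h3, h4⟩
        · exact Or.inl h3
        · exact Or.inr ⟨(lo_oo _ hx _ (H.tlS e he)).2 h3, (ro_oo _ hx _ (H.tlS e he)).2 h4⟩
      · exact (noN _ he x hx h1 h2).elim
    · rw [hOt e (nw_e' he)]
      rcases hx with hx | hx
      · obtain ⟨b, hb, h⟩ := dnN x hx _ he h1 h2
        exact Or.inr (upN x hx _ nw_v b hb h)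
      · rcases hx with rfl | ⟨o, ho, rfl⟩
        · exact Or.inl rfl
        · exact (OO o ho e (nw_e' he) h1 h2).elim
  case up_e =>
    rintro x hx e (he | he) h1 h2
    · show x = inl (if e ∈ B then v else hd e) ∨ (lo' (inl (if e ∈ B then v else hd e)) x ∧
        ro' (inl (if e ∈ B then v else hd e)) x)
      rcases hx with hx | hx
      · have k1 := (lo_oo _ he _ hx).1 h1
        have k2 := (ro_oo _ he _ hx).1 h2
        by_cases heB : e ∈ B
        · exact (H.top e (mB e heB) x hx k1 k2).elim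
        · rw [if_neg heB]
          by_cases hl : e ∈ A ++ B ++ C
          · exact (H.top e hl x hx k1 k2).elim
          · rcases H.up_e x hx e he k1 k2 with h3 | ⟨h3, h4⟩
            · exact Or.inl h3
            · exact Or.inr ⟨(lo_oo _ (H.hdS e he hl) _ hx).2 h3,
                (ro_oo _ (H.hdS e he hl) _ hx).2 h4⟩
      · -- a new element above an old edge
        by_cases heB : e ∈ B
        · rw [if_pos heB]
          rcases hx with rfl | ⟨o, ho, rfl⟩
          · exact Or.inl rfl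
          · exact Or.inr (vO o ho)
        · rw [if_neg heB]
          obtain ⟨b, hb, h⟩ := dnN _ he x hx h1 h2
          have hne : e ≠ b := fun h' => heB (h' ▸ hb)
          rcases h with h | ⟨h, h'⟩
          · exact absurd (inr_injective h) hne
          · have hl : e ∉ A ++ B ++ C := fun hl => H.top e hl _ (sB b hb) h h'
            rcases H.up_e _ (sB b hb) e he h h' with h3 | h3
            · cases h3
            · exact Or.inr (upN _ (H.hdS e he hl) x hx b hb (Or.inr h3))
    · exact (topO e (nw_e' he) x hx h1 h2).elim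
  case dn_v =>
    rintro x hx w (hw | hw) h1 h2
    · rcases hx with hx | hx
      · obtain ⟨r, hr, hrl, hrw, h⟩ :=
          H.dn_v x hx w hw ((lo_oo _ hx _ hw).1 h1) ((ro_oo _ hx _ hw).1 h2)
        refine ⟨r, Or.inl hr, hdead r hr hrl, ?_, ?_⟩
        · show (if r ∈ B then v else hd r) = w
          rw [if_neg (fun h => hrl (mB r h))]
          exact hrw
        · rcases h with h | ⟨h, h'⟩
          · exact Or.inl h
          · exact Or.inr ⟨(lo_oo _ hx _ hr).2 h, (ro_oo _ hx _ hr).2 h'⟩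
      · exact (noN _ hw x hx h1 h2).elim
    · rcases hx with hx | hx
      · obtain ⟨b, hb, h⟩ := dnN x hx _ hw h1 h2
        refine ⟨b, Or.inl (sB b hb), hBl b hb, ?_, ?_⟩
        · show (if b ∈ B then v else hd b) = w
          rw [if_pos hb]
          exact (nw_v' hw).symm
        · rcases h with h | ⟨h, h'⟩
          · exact Or.inl h
          · exact Or.inr ⟨(lo_oo _ hx _ (sB b hb)).2 h, (ro_oo _ hx _ (sB b hb)).2 h'⟩
      · obtain rfl := nw_v' hw
        rcases hx with rfl | ⟨o, ho, rfl⟩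
        · exact (lin1.irr _ (Or.inr nw_v) h1).elim
        · exact (Ov o ho h1).elim
  case up_v =>
    rintro x hx w (hw | hw) h1 h2
    · rcases hx with hx | hx
      · obtain ⟨r, hr, hrw, h⟩ := H.up_v x hx w hw ((lo_oo _ hw _ hx).1 h1)
          ((ro_oo _ hw _ hx).1 h2)
        refine ⟨r, Or.inl hr, hrw, ?_⟩
        rcases h with h | ⟨h, h'⟩
        · exact Or.inl h
        · exact Or.inr ⟨(lo_oo _ hr _ hx).2 h, (ro_oo _ hr _ hx).2 h'⟩
      · obtain ⟨b, hb, h⟩ := dnN _ hw x hx h1 h2
        rcases h with h | ⟨h, h'⟩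
        · cases h
        · obtain ⟨r, hr, hrw, h3⟩ := H.up_v _ (sB b hb) w hw h h'
          refine ⟨r, Or.inl hr, hrw, Or.inr (upN _ hr x hx b hb ?_)⟩
          rcases h3 with h3 | h3
          · exact Or.inl h3.symm
          · exact Or.inr h3
    · obtain rfl := nw_v' hw
      rcases hx with hx | hx
      · exact (noN x hx _ nw_v h1 h2).elim
      · rcases hx with rfl | ⟨o, ho, rfl⟩
        · exact (lin1.irr _ (Or.inr nw_v) h1).elim
        · exact ⟨o, Or.inr (nw_e ho), hOt o ho, Or.inl rfl⟩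

end Pool.Agent.W_a4f561_h25
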