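import Pool.Agent.W_a4f561_h25.Dr1A

/-!
MP_a4f561_co, drawings with several sources and sinks, 2: the bottom of two consecutive live edges, a new
live edge out of the bottom.
-/

set_option autoImplicit false

namespace Pool.Agent.W_a4f561_h25

open Sum

variable {V E : Type} {tl hd : E → V} {S : Set (V ⊕ E)} {lo ro : V ⊕ E → V ⊕ E → Prop}
  {A B C O : List E} {v : V}

/-- `b` is the bottom of the consecutive live edges `x`, `y`. -/
structure Bo (S : Set (V ⊕ E)) (lo ro : V ⊕ E → V ⊕ E → Prop) (b : V) (x y : E) : Prop where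
  mem : inl b ∈ S
  blo : lo (inl b) (inr x)
  bro : ro (inl b) (inr y)
  max : ∀ z ∈ S, (z = inr x ∨ lo z (inr x)) → (z = inr y ∨ ro z (inr y)) →
    z = inl b ∨ (lo z (inl b) ∧ ro z (inl b))

/-- The bottom `b` has edges `o`, `o'` with `R` on both sides. -/
structure Bq (tl : E → V) (R : E → Prop) (S : Set (V ⊕ E)) (lo ro : V ⊕ E → V ⊕ E → Prop) (b : V)
    (x y o o' : E) : Prop where
  r : R o
  r' : R o'
  t : tl o = b
  t' : tl o' = b
  m : inr o ∈ S
  m' : inr o' ∈ S
  l1 : o = x ∨ lo (inr o) (inr x)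
  l2 : lo (inr x) (inr o')
  l3 : o' = y ∨ ro (inr o') (inr y)
  l4 : ro (inr y) (inr o)

/-- The relation between consecutive live edges. -/
def Bt (tl : E → V) (R : E → Prop) (s0 : V) (S : Set (V ⊕ E)) (lo ro : V ⊕ E → V ⊕ E → Prop)
    (x y : E) : Prop :=
  ∃ b, Bo S lo ro b x y ∧ (b = s0 ∨ ∃ o o', Bq tl R S lo ro b x y o o')

/-- A new live edge `d` between `x` and `y`, out of their bottom. -/
theorem Inv.add {x y d : E} (H : Inv tl hd S (A ++ x :: y :: C) lo ro) (hdS : inr d ∉ S)
    (hb : Bo S lo ro (tl d) x y) :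
    Inv tl hd (S ∪ {inr d}) (A ++ x :: d :: y :: C) (Ins lo (inr x) {inr d} (fun _ _ => False))
      (Ins ro (inr y) {inr d} (fun _ _ => False)) := by
  classical
  have hl := H.lv_lo
  have hr := H.lv_ro
  rw [List.pairwise_append, List.pairwise_cons, List.pairwise_cons] at hl hr
  obtain ⟨hlA, ⟨hlx, hly, hlC⟩, hlAC⟩ := hl
  obtain ⟨hrA, ⟨hrx, hry, hrC⟩, hrAC⟩ := hr
  have mx : x ∈ A ++ x :: y :: C := by simp
  have my : y ∈ A ++ x :: y :: C := by simp
  have sx : inr x ∈ S := H.lvS x mx
  have sy : inr y ∈ S := H.lvS y my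
  have sA : ∀ a ∈ A, inr a ∈ S := fun a ha => H.lvS a (by simp [ha])
  have sC : ∀ a ∈ C, inr a ∈ S := fun a ha => H.lvS a (by simp [ha])
  have hSN : ∀ z ∈ S, z ∉ ({inr d} : Set (V ⊕ E)) := by
    rintro z hz h
    rw [Set.mem_singleton_iff] at h
    exact hdS (h ▸ hz)
  have md : (inr d : V ⊕ E) ∈ ({inr d} : Set (V ⊕ E)) := Set.mem_singleton _
  have hq : LinOn ({inr d} : Set (V ⊕ E)) (fun _ _ => False) := by
    refine ⟨fun x _ h => h, fun _ _ _ _ _ _ h _ => h, ?_⟩
    intro x hx y hy hne
    rw [Set.mem_singleton_iff] at hx hy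
    exact (hne (hx.trans hy.symm)).elim
  set lo' : V ⊕ E → V ⊕ E → Prop := Ins lo (inr x) {inr d} (fun _ _ => False) with hlo'
  set ro' : V ⊕ E → V ⊕ E → Prop := Ins ro (inr y) {inr d} (fun _ _ => False) with hro'
  have lin1 : LinOn (S ∪ {inr d}) lo' := ins_lin H.lo_lin hq sx hSN
  have lin2 : LinOn (S ∪ {inr d}) ro' := ins_lin H.ro_lin hq sy hSN
  have lo_oo : ∀ x ∈ S, ∀ y ∈ S, (lo' x y ↔ lo x y) := fun x hx y hy =>
    ins_oo (hSN x hx) (hSN y hy)
  have ro_oo : ∀ x ∈ S, ∀ y ∈ S, (ro' x y ↔ ro x y) := fun x hx y hy =>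
    ins_oo (hSN x hx) (hSN y hy)
  have lo_od : ∀ z ∈ S, (lo' z (inr d) ↔ (z = inr x ∨ lo z (inr x))) := fun z hz =>
    ins_on (hSN z hz) md
  have ro_od : ∀ z ∈ S, (ro' z (inr d) ↔ (z = inr y ∨ ro z (inr y))) := fun z hz =>
    ins_on (hSN z hz) md
  have lo_do : ∀ z ∈ S, (lo' (inr d) z ↔ lo (inr x) z) := fun z hz => ins_no md (hSN z hz)
  have ro_do : ∀ z ∈ S, (ro' (inr d) z ↔ ro (inr y) z) := fun z hz => ins_no md (hSN z hz)
  have lo_dd : ¬ lo' (inr d) (inr d) := fun h => by
    rw [hlo', ins_nn md md] at h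
    exact h
  -- nothing is above the new edge
  have K : ∀ z ∈ S, lo (inr x) z → ro (inr y) z → False := by
    intro z hz h1 h2
    obtain ⟨e, he, hze⟩ := H.cov z hz
    have se := H.lvS e he
    have h3 : lo (inr x) (inr e) := by
      rcases hze with rfl | h
      · exact h1
      · exact H.lo_lin.tr _ sx _ hz _ se h1 h.1
    have h4 : ro (inr y) (inr e) := by
      rcases hze with rfl | h
      · exact h2
      · exact H.ro_lin.tr _ sy _ hz _ se h2 h.2
    rcases List.mem_append.1 he with h | h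
    · exact H.lo_lin.as sx se h3 (hlAC e h x (by simp))
    · rcases List.mem_cons.1 h with h | h
      · subst h
        exact H.lo_lin.irr _ sx h3
      · rcases List.mem_cons.1 h with h | h
        · subst h
          exact H.ro_lin.irr _ sy h4
        · exact H.ro_lin.as sy se h4 (hry e h)
  have K' : ∀ z ∈ S, lo' (inr d) z → ro' (inr d) z → False := fun z hz h1 h2 =>
    K z hz ((lo_do z hz).1 h1) ((ro_do z hz).1 h2)
  have dn : ∀ z ∈ S, lo' z (inr d) → ro' z (inr d) →
      z = inl (tl d) ∨ (lo z (inl (tl d)) ∧ ro z (inl (tl d))) := fun z hz h1 h2 =>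
    hb.max z hz ((lo_od z hz).1 h1) ((ro_od z hz).1 h2)
  have td : lo' (inl (tl d)) (inr d) ∧ ro' (inl (tl d)) (inr d) :=
    ⟨(lo_od _ hb.mem).2 (Or.inr hb.blo), (ro_od _ hb.mem).2 (Or.inr hb.bro)⟩
  have up : ∀ z ∈ S, z = inl (tl d) ∨ (lo z (inl (tl d)) ∧ ro z (inl (tl d))) →
      lo' z (inr d) ∧ ro' z (inr d) := by
    rintro z hz (rfl | h)
    · exact td
    · exact ⟨lin1.tr _ (Or.inl hz) _ (Or.inl hb.mem) _ (Or.inr md) ((lo_oo _ hz _ hb.mem).2 h.1) td.1,
        lin2.tr _ (Or.inl hz) _ (Or.inl hb.mem) _ (Or.inr md) ((ro_oo _ hz _ hb.mem).2 h.2) td.2⟩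
  have mem' : ∀ e, e ∈ A ++ x :: d :: y :: C ↔ (e ∈ A ++ x :: y :: C ∨ e = d) := by
    intro e
    simp only [List.mem_append, List.mem_cons]
    tauto
  have hndl : d ∉ A ++ x :: y :: C := fun h => hdS (H.lvS d h)
  constructor
  case fin => exact H.fin.union (Set.finite_singleton _)
  case lo_lin => exact lin1
  case ro_lin => exact lin2
  case lvS =>
    intro e he
    rcases (mem' e).1 he with h | h
    · exact Or.inl (H.lvS e h)
    · exact Or.inr (by rw [h]; exact md)
  case lv_lo =>
    rw [List.pairwise_append, List.pairwise_cons, List.pairwise_cons, List.pairwise_cons]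
    refine ⟨hlA.imp_of_mem fun {a b} ha hb h => (lo_oo _ (sA a ha) _ (sA b hb)).2 h,
      ⟨?_, ?_, ?_, hlC.imp_of_mem fun {a b} ha hb h => (lo_oo _ (sC a ha) _ (sC b hb)).2 h⟩, ?_⟩
    · intro a ha
      rcases List.mem_cons.1 ha with h | h
      · rw [h]
        exact (lo_od _ sx).2 (Or.inl rfl)
      · rcases List.mem_cons.1 h with h | h
        · rw [h]
          exact (lo_oo _ sx _ sy).2 (hlx y (by simp))
        · exact (lo_oo _ sx _ (sC a h)).2 (hlx a (by simp [h]))
    · intro a ha
      rcases List.mem_cons.1 ha with h | h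
      · rw [h]
        exact (lo_do _ sy).2 (hlx y (by simp))
      · exact (lo_do _ (sC a h)).2 (hlx a (by simp [h]))
    · intro a ha
      exact (lo_oo _ sy _ (sC a ha)).2 (hly a ha)
    · intro a ha c hc
      rcases List.mem_cons.1 hc with h | h
      · rw [h]
        exact (lo_oo _ (sA a ha) _ sx).2 (hlAC a ha x (by simp))
      · rcases List.mem_cons.1 h with h | h
        · rw [h]
          exact (lo_od _ (sA a ha)).2 (Or.inr (hlAC a ha x (by simp)))
        · rcases List.mem_cons.1 h with h | h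
          · rw [h]
            exact (lo_oo _ (sA a ha) _ sy).2 (hlAC a ha y (by simp))
          · exact (lo_oo _ (sA a ha) _ (sC c h)).2 (hlAC a ha c (by simp [h]))
  case lv_ro =>
    rw [List.pairwise_append, List.pairwise_cons, List.pairwise_cons, List.pairwise_cons]
    refine ⟨hrA.imp_of_mem fun {a b} ha hb h => (ro_oo _ (sA b hb) _ (sA a ha)).2 h,
      ⟨?_, ?_, ?_, hrC.imp_of_mem fun {a b} ha hb h => (ro_oo _ (sC b hb) _ (sC a ha)).2 h⟩, ?_⟩
    · intro a ha
      rcases List.mem_cons.1 ha with h | h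
      · rw [h]
        exact (ro_do _ sx).2 (hrx y (by simp))
      · rcases List.mem_cons.1 h with h | h
        · rw [h]
          exact (ro_oo _ sy _ sx).2 (hrx y (by simp))
        · exact (ro_oo _ (sC a h) _ sx).2 (hrx a (by simp [h]))
    · intro a ha
      rcases List.mem_cons.1 ha with h | h
      · rw [h]
        exact (ro_od _ sy).2 (Or.inl rfl)
      · exact (ro_od _ (sC a h)).2 (Or.inr (hry a h))
    · intro a ha
      exact (ro_oo _ (sC a ha) _ sy).2 (hry a ha)
    · intro a ha c hc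
      rcases List.mem_cons.1 hc with h | h
      · rw [h]
        exact (ro_oo _ sx _ (sA a ha)).2 (hrAC a ha x (by simp))
      · rcases List.mem_cons.1 h with h | h
        · rw [h]
          exact (ro_do _ (sA a ha)).2 (hrAC a ha y (by simp))
        · rcases List.mem_cons.1 h with h | h
          · rw [h]
            exact (ro_oo _ sy _ (sA a ha)).2 (hrAC a ha y (by simp))
          · exact (ro_oo _ (sC c h) _ (sA a ha)).2 (hrAC a ha c (by simp [h]))
  case top =>
    rintro e he z (hz | hz) h1 h2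
    · rcases (mem' e).1 he with h | h
      · exact H.top e h z hz ((lo_oo _ (H.lvS e h) _ hz).1 h1) ((ro_oo _ (H.lvS e h) _ hz).1 h2)
      · rw [h] at h1 h2
        exact K' z hz h1 h2
    · rw [Set.mem_singleton_iff] at hz
      subst hz
      rcases (mem' e).1 he with h | h
      · rcases dn _ (H.lvS e h) h1 h2 with h3 | h3
        · cases h3
        · exact H.top e h _ hb.mem h3.1 h3.2
      · rw [h] at h1
        exact lo_dd h1
  case cov =>
    rintro z (hz | hz)
    · obtain ⟨e, he, hze⟩ := H.cov z hz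
      refine ⟨e, (mem' e).2 (Or.inl he), ?_⟩
      rcases hze with h | h
      · exact Or.inl h
      · exact Or.inr ⟨(lo_oo _ hz _ (H.lvS e he)).2 h.1, (ro_oo _ hz _ (H.lvS e he)).2 h.2⟩
    · exact ⟨d, by simp, Or.inl hz⟩
  case tlS =>
    rintro e (he | he)
    · exact Or.inl (H.tlS e he)
    · rw [Set.mem_singleton_iff] at he
      cases he
      exact Or.inl hb.mem
  case tl_lt =>
    rintro e (he | he)
    · exact ⟨(lo_oo _ (H.tlS e he) _ he).2 (H.tl_lt e he).1,
        (ro_oo _ (H.tlS e he) _ he).2 (H.tl_lt e he).2⟩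
    · rw [Set.mem_singleton_iff] at he
      cases he
      exact td
  case hdS =>
    rintro e (he | he) hl
    · exact Or.inl (H.hdS e he fun h => hl ((mem' e).2 (Or.inl h)))
    · rw [Set.mem_singleton_iff] at he
      cases he
      exact (hl (by simp)).elim
  case hd_lt =>
    rintro e (he | he) hl
    · have hl' : e ∉ A ++ x :: y :: C := fun h => hl ((mem' e).2 (Or.inl h))
      exact ⟨(lo_oo _ he _ (H.hdS e he hl')).2 (H.hd_lt e he hl').1,
        (ro_oo _ he _ (H.hdS e he hl')).2 (H.hd_lt e he hl').2⟩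
    · rw [Set.mem_singleton_iff] at he
      cases he
      exact (hl (by simp)).elim
  case dn_e =>
    rintro z hz e (he | he) h1 h2
    · rcases hz with hz | hz
      · rcases H.dn_e z hz e he ((lo_oo _ hz _ he).1 h1) ((ro_oo _ hz _ he).1 h2) with h3 | h3
        · exact Or.inl h3
        · exact Or.inr ⟨(lo_oo _ hz _ (H.tlS e he)).2 h3.1, (ro_oo _ hz _ (H.tlS e he)).2 h3.2⟩
      · rw [Set.mem_singleton_iff] at hz
        subst hz
        exact (K' _ he h1 h2).elim
    · rw [Set.mem_singleton_iff] at he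
      cases he
      rcases hz with hz | hz
      · rcases dn z hz h1 h2 with h3 | h3
        · exact Or.inl h3
        · exact Or.inr ⟨(lo_oo _ hz _ hb.mem).2 h3.1, (ro_oo _ hz _ hb.mem).2 h3.2⟩
      · rw [Set.mem_singleton_iff] at hz
        subst hz
        exact (lo_dd h1).elim
  case up_e =>
    rintro z hz e (he | he) h1 h2
    · rcases hz with hz | hz
      · have k1 := (lo_oo _ he _ hz).1 h1
        have k2 := (ro_oo _ he _ hz).1 h2
        rcases H.up_e z hz e he k1 k2 with h3 | h3
        · exact Or.inl h3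
        · have hl' : e ∉ A ++ x :: y :: C := fun h => H.top e h z hz k1 k2
          exact Or.inr ⟨(lo_oo _ (H.hdS e he hl') _ hz).2 h3.1,
            (ro_oo _ (H.hdS e he hl') _ hz).2 h3.2⟩
      · rw [Set.mem_singleton_iff] at hz
        subst hz
        rcases dn _ he h1 h2 with h3 | h3
        · cases h3
        · have hl' : e ∉ A ++ x :: y :: C := fun h => H.top e h _ hb.mem h3.1 h3.2
          have h4 := H.up_e _ hb.mem e he h3.1 h3.2
          refine Or.inr (up _ (H.hdS e he hl') ?_)
          rcases h4 with h4 | h4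
          · exact Or.inl h4.symm
          · exact Or.inr h4
    · rw [Set.mem_singleton_iff] at he
      cases he
      rcases hz with hz | hz
      · exact (K' _ hz h1 h2).elim
      · rw [Set.mem_singleton_iff] at hz
        subst hz
        exact (lo_dd h1).elim
  case dn_v =>
    rintro z hz w (hw | hw) h1 h2
    · rcases hz with hz | hz
      · obtain ⟨r, hr, hrl, hrw, h⟩ :=
          H.dn_v z hz w hw ((lo_oo _ hz _ hw).1 h1) ((ro_oo _ hz _ hw).1 h2)
        refine ⟨r, Or.inl hr, ?_, hrw, ?_⟩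
        · intro h'
          rcases (mem' r).1 h' with h' | h'
          · exact hrl h'
          · rw [h'] at hr
            exact hdS hr
        · rcases h with h | h
          · exact Or.inl h
          · exact Or.inr ⟨(lo_oo _ hz _ hr).2 h.1, (ro_oo _ hz _ hr).2 h.2⟩
      · rw [Set.mem_singleton_iff] at hz
        subst hz
        exact (K' _ hw h1 h2).elim
    · rw [Set.mem_singleton_iff] at hw
      cases hw
  case up_v =>
    rintro z hz w (hw | hw) h1 h2
    · rcases hz with hz | hz
      · obtain ⟨r, hr, hrw, h⟩ := H.up_v z hz w hw ((lo_oo _ hw _ hz).1 h1) ((ro_oo _ hw _ hz).1 h2)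
        refine ⟨r, Or.inl hr, hrw, ?_⟩
        rcases h with h | h
        · exact Or.inl h
        · exact Or.inr ⟨(lo_oo _ hr _ hz).2 h.1, (ro_oo _ hr _ hz).2 h.2⟩
      · rw [Set.mem_singleton_iff] at hz
        subst hz
        rcases dn _ hw h1 h2 with h3 | h3
        · exact ⟨d, Or.inr md, (inl_injective h3).symm, Or.inl rfl⟩
        · obtain ⟨r, hr, hrw, h⟩ := H.up_v _ hb.mem w hw h3.1 h3.2
          refine ⟨r, Or.inl hr, hrw, Or.inr (up _ hr ?_)⟩
          rcases h with h | h
          · cases h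
          · exact Or.inr h
    · rw [Set.mem_singleton_iff] at hw
      cases hw

end Pool.Agent.W_a4f561_h25
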