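import Pool.Agent.W_a4f561_h25.Dr1B

/-!
MP_a4f561_co, drawings with several sources and sinks, 3: consecutive live edges keep their bottoms.
-/

set_option autoImplicit false

namespace Pool.Agent.W_a4f561_h25

open Sum

variable {V E : Type} {tl hd : E → V} {S S' : Set (V ⊕ E)} {lo ro lo' ro' : V ⊕ E → V ⊕ E → Prop}
  {A B C O : List E} {v s0 : V} {R : E → Prop}

/-- Transfer of a bottom to a new pair. -/
theorem Bt.tr {p q p' q' : E} (h : Bt tl R s0 S lo ro p q) (sub : ∀ z ∈ S, z ∈ S')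
    (c6 : ∀ x ∈ S, ∀ y ∈ S, (lo' x y ↔ lo x y)) (c7 : ∀ x ∈ S, ∀ y ∈ S, (ro' x y ↔ ro x y))
    (c1 : ∀ z ∈ S, ((z = inr p' ∨ lo' z (inr p')) ↔ (z = inr p ∨ lo z (inr p))))
    (c2 : ∀ z ∈ S, lo (inr p) z → lo' (inr p') z)
    (c3 : ∀ z ∈ S, ((z = inr q' ∨ ro' z (inr q')) ↔ (z = inr q ∨ ro z (inr q))))
    (c4 : ∀ z ∈ S, ro (inr q) z → ro' (inr q') z)
    (c5 : ∀ z ∈ S', z ∉ S → (z = inr p' ∨ lo' z (inr p')) → (z = inr q' ∨ ro' z (inr q')) → False) :
    Bt tl R s0 S' lo' ro' p' q' := by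
  obtain ⟨b, hb, h⟩ := h
  refine ⟨b, ⟨sub _ hb.mem, ?_, ?_, ?_⟩, ?_⟩
  · rcases (c1 _ hb.mem).2 (Or.inr hb.blo) with h1 | h1
    · cases h1
    · exact h1
  · rcases (c3 _ hb.mem).2 (Or.inr hb.bro) with h1 | h1
    · cases h1
    · exact h1
  · intro z hz h1 h2
    by_cases hzS : z ∈ S
    · rcases hb.max z hzS ((c1 z hzS).1 h1) ((c3 z hzS).1 h2) with h3 | h3
      · exact Or.inl h3
      · exact Or.inr ⟨(c6 _ hzS _ hb.mem).2 h3.1, (c7 _ hzS _ hb.mem).2 h3.2⟩
    · exact (c5 z hz hzS h1 h2).elim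
  · rcases h with h | ⟨o, o', h⟩
    · exact Or.inl h
    · refine Or.inr ⟨o, o', h.r, h.r', h.t, h.t', sub _ h.m, sub _ h.m', ?_, c2 _ h.m' h.l2, ?_,
        c4 _ h.m h.l4⟩
      · have h1 := (c1 _ h.m).2 (by
          rcases h.l1 with h1 | h1
          · exact Or.inl (by rw [h1])
          · exact Or.inr h1)
        rcases h1 with h1 | h1
        · exact Or.inl (inr_injective h1)
        · exact Or.inr h1
      · have h1 := (c3 _ h.m').2 (by
          rcases h.l3 with h1 | h1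
          · exact Or.inl (by rw [h1])
          · exact Or.inr h1)
        rcases h1 with h1 | h1
        · exact Or.inl (inr_injective h1)
        · exact Or.inr h1

/-- The step of the sweep keeps the bottoms. -/
theorem bt_step (H : Inv tl hd S (A ++ B ++ C) lo ro) {b1 bk : E} {B1 B2 : List E}
    (e1 : B = b1 :: B1) (e2 : B = B2 ++ [bk]) (hv : inl v ∉ S) (hO : O ≠ [])
    (hOt : ∀ o ∈ O, tl o = v) {q : E → E → Prop} (hq : LinOn {e | e ∈ O} q)
    (hqO : O.Pairwise q) (hR : (∀ o ∈ O, R o) ∨ ∃ o, O = [o])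
    (hc : (A ++ B ++ C).IsChain (Bt tl R s0 S lo ro)) :
    (A ++ O ++ C).IsChain (Bt tl R s0 (S ∪ Nw v O)
      (Ins lo (inr bk) (Nw v O) (Vf q)) (Ins ro (inr b1) (Nw v O) (Vf fun x y => q y x))) := by
  obtain ⟨hb1, -⟩ := H.blk1 e1
  obtain ⟨hbk, -⟩ := H.blk2 e2
  have mA : ∀ a ∈ A, a ∈ A ++ B ++ C := fun a ha =>
    List.mem_append_left _ (List.mem_append_left _ ha)
  have mB : ∀ b ∈ B, b ∈ A ++ B ++ C := fun b hb =>
    List.mem_append_left _ (List.mem_append_right _ hb)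
  have mC : ∀ c ∈ C, c ∈ A ++ B ++ C := fun c hc => List.mem_append_right _ hc
  have sA : ∀ a ∈ A, inr a ∈ S := fun a ha => H.lvS a (mA a ha)
  have sB : ∀ b ∈ B, inr b ∈ S := fun b hb => H.lvS b (mB b hb)
  have sC : ∀ c ∈ C, inr c ∈ S := fun c hc => H.lvS c (mC c hc)
  have hAB : ∀ a ∈ A, ∀ b ∈ B, lo (inr a) (inr b) ∧ ro (inr b) (inr a) := fun a ha b hb =>
    ⟨(List.pairwise_append.1 (List.pairwise_append.1 H.lv_lo).1).2.2 a ha b hb,
      (List.pairwise_append.1 (List.pairwise_append.1 H.lv_ro).1).2.2 a ha b hb⟩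
  have hBC : ∀ b ∈ B, ∀ c ∈ C, lo (inr b) (inr c) ∧ ro (inr c) (inr b) := fun b hb c hc =>
    ⟨(List.pairwise_append.1 H.lv_lo).2.2 b (List.mem_append_right _ hb) c hc,
      (List.pairwise_append.1 H.lv_ro).2.2 b (List.mem_append_right _ hb) c hc⟩
  have hSN : ∀ x ∈ S, x ∉ Nw v O := by
    rintro x hx (rfl | ⟨e, he, rfl⟩)
    · exact hv hx
    · exact hv (hOt e he ▸ H.tlS e hx)
  set lo' : V ⊕ E → V ⊕ E → Prop := Ins lo (inr bk) (Nw v O) (Vf q) with hlo'
  set ro' : V ⊕ E → V ⊕ E → Prop := Ins ro (inr b1) (Nw v O) (Vf fun x y => q y x) with hro'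
  have sub : ∀ z ∈ S, z ∈ S ∪ Nw v O := fun z hz => Or.inl hz
  have lo_oo : ∀ x ∈ S, ∀ y ∈ S, (lo' x y ↔ lo x y) := fun x hx y hy =>
    ins_oo (hSN x hx) (hSN y hy)
  have ro_oo : ∀ x ∈ S, ∀ y ∈ S, (ro' x y ↔ ro x y) := fun x hx y hy =>
    ins_oo (hSN x hx) (hSN y hy)
  have lo_on : ∀ z ∈ S, ∀ n ∈ Nw v O, (lo' z n ↔ (z = inr bk ∨ lo z (inr bk))) := fun z hz n hn =>
    ins_on (hSN z hz) hn
  have ro_on : ∀ z ∈ S, ∀ n ∈ Nw v O, (ro' z n ↔ (z = inr b1 ∨ ro z (inr b1))) := fun z hz n hn =>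
    ins_on (hSN z hz) hn
  have lo_no : ∀ z ∈ S, ∀ n ∈ Nw v O, (lo' n z ↔ lo (inr bk) z) := fun z hz n hn =>
    ins_no hn (hSN z hz)
  have ro_no : ∀ z ∈ S, ∀ n ∈ Nw v O, (ro' n z ↔ ro (inr b1) z) := fun z hz n hn =>
    ins_no hn (hSN z hz)
  have new : ∀ z ∈ S ∪ Nw v O, z ∉ S → z ∈ Nw v O := fun z hz h => by
    rcases hz with hz | hz
    · exact absurd hz h
    · exact hz
  -- conditions of the transfer
  have a1 : ∀ p, inr p ∈ S → ∀ z ∈ S,
      ((z = inr p ∨ lo' z (inr p)) ↔ (z = inr p ∨ lo z (inr p))) := fun p hp z hz => by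
    rw [lo_oo z hz _ hp]
  have a3 : ∀ p, inr p ∈ S → ∀ z ∈ S,
      ((z = inr p ∨ ro' z (inr p)) ↔ (z = inr p ∨ ro z (inr p))) := fun p hp z hz => by
    rw [ro_oo z hz _ hp]
  have o1 : ∀ o ∈ O, ∀ z ∈ S,
      ((z = inr o ∨ lo' z (inr o)) ↔ (z = inr bk ∨ lo z (inr bk))) := fun o ho z hz => by
    rw [lo_on z hz _ (nw_e ho)]
    constructor
    · rintro (h | h)
      · exact (hSN z hz (h ▸ nw_e ho)).elim
      · exact h
    · exact Or.inr
  have o3 : ∀ o ∈ O, ∀ z ∈ S,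
      ((z = inr o ∨ ro' z (inr o)) ↔ (z = inr b1 ∨ ro z (inr b1))) := fun o ho z hz => by
    rw [ro_on z hz _ (nw_e ho)]
    constructor
    · rintro (h | h)
      · exact (hSN z hz (h ▸ nw_e ho)).elim
      · exact h
    · exact Or.inr
  have n1 : ∀ a ∈ A, ∀ z ∈ Nw v O, (z = inr a ∨ lo' z (inr a)) → False := by
    rintro a ha z hz (h | h)
    · exact hSN _ (sA a ha) (h ▸ hz)
    · rw [lo_no _ (sA a ha) z hz] at h
      exact H.lo_lin.as (sB bk hbk) (sA a ha) h (hAB a ha bk hbk).1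
  have n3 : ∀ c ∈ C, ∀ z ∈ Nw v O, (z = inr c ∨ ro' z (inr c)) → False := by
    rintro c hc z hz (h | h)
    · exact hSN _ (sC c hc) (h ▸ hz)
    · rw [ro_no _ (sC c hc) z hz] at h
      exact H.ro_lin.as (sB b1 hb1) (sC c hc) h (hBC b1 hb1 c hc).2
  rw [List.isChain_append, List.isChain_append] at hc
  obtain ⟨⟨cA, -, cAB⟩, cC, cBC⟩ := hc
  rw [List.isChain_append, List.isChain_append]
  refine ⟨⟨?_, ?_, ?_⟩, ?_, ?_⟩
  · refine List.IsChain.imp_of_mem_imp ?_ cA
    intro p r hp hr h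
    exact h.tr sub lo_oo ro_oo (a1 p (sA p hp)) (fun z hz h => (lo_oo _ (sA p hp) _ hz).2 h)
      (a3 r (sA r hr)) (fun z hz h => (ro_oo _ (sA r hr) _ hz).2 h)
      (fun z hz h1 h2 _ => n1 p hp z (new z hz h1) h2)
  · rcases hR with hR | ⟨o, ho⟩
    · rw [List.isChain_iff_forall_rel_of_append_cons_cons]
      intro o o' l1 l2 e
      have mo : o ∈ O := by rw [e]; simp
      have mo' : o' ∈ O := by rw [e]; simp
      have hoo : q o o' := by
        rw [e, List.pairwise_append, List.pairwise_cons] at hqO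
        exact hqO.2.1.1 o' (by simp)
      refine ⟨v, ⟨Or.inr nw_v, ?_, ?_, ?_⟩, Or.inr ⟨o, o', hR o mo, hR o' mo', hOt o mo, hOt o' mo',
        Or.inr (nw_e mo), Or.inr (nw_e mo'), Or.inl rfl, ?_, Or.inl rfl, ?_⟩⟩
      · rw [hlo', ins_nn nw_v (nw_e mo)]
        trivial
      · rw [hro', ins_nn nw_v (nw_e mo')]
        trivial
      · rintro z (hz | hz) h1 h2
        · have h1' := (o1 o mo z hz).1 h1
          have h2' := (o3 o' mo' z hz).1 h2
          exact Or.inr ⟨(lo_on z hz _ nw_v).2 h1', (ro_on z hz _ nw_v).2 h2'⟩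
        · rcases hz with rfl | ⟨e', he', rfl⟩
          · exact Or.inl rfl
          · exfalso
            have h1' : e' = o ∨ q e' o := by
              rcases h1 with h1 | h1
              · exact Or.inl (inr_injective h1)
              · rw [hlo', ins_nn (nw_e he') (nw_e mo)] at h1
                exact Or.inr h1
            have h2' : e' = o' ∨ q o' e' := by
              rcases h2 with h2 | h2
              · exact Or.inl (inr_injective h2)
              · rw [hro', ins_nn (nw_e he') (nw_e mo')] at h2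
                exact Or.inr h2
            have h3 : ¬ q o' o := hq.as mo mo' hoo
            rcases h1' with rfl | h1'
            · rcases h2' with rfl | h2'
              · exact hq.irr _ mo hoo
              · exact h3 h2'
            · rcases h2' with rfl | h2'
              · exact h3 h1'
              · exact h3 (hq.tr _ mo' _ he' _ mo h2' h1')
      · rw [hlo', ins_nn (nw_e mo) (nw_e mo')]
        exact hoo
      · rw [hro', ins_nn (nw_e mo') (nw_e mo)]
        exact hoo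
    · rw [ho]
      exact List.isChain_singleton o
  · intro a ha o ho
    have ha' : a ∈ A := List.mem_of_mem_getLast? ha
    have ho' : o ∈ O := List.mem_of_mem_head? ho
    have h := cAB a ha b1 (by rw [e1]; rfl)
    exact h.tr sub lo_oo ro_oo (a1 a (sA a ha')) (fun z hz h => (lo_oo _ (sA a ha') _ hz).2 h)
      (o3 o ho') (fun z hz h => (ro_no _ hz _ (nw_e ho')).2 h)
      (fun z hz h1 h2 _ => n1 a ha' z (new z hz h1) h2)
  · refine List.IsChain.imp_of_mem_imp ?_ cC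
    intro p r hp hr h
    exact h.tr sub lo_oo ro_oo (a1 p (sC p hp)) (fun z hz h => (lo_oo _ (sC p hp) _ hz).2 h)
      (a3 r (sC r hr)) (fun z hz h => (ro_oo _ (sC r hr) _ hz).2 h)
      (fun z hz h1 _ h2 => n3 r hr z (new z hz h1) h2)
  · intro o ho c hc'
    have hc'' : c ∈ C := List.mem_of_mem_head? hc'
    have ho' : o ∈ O := by
      obtain ⟨O', ok, rfl⟩ := List.eq_nil_or_concat O |>.resolve_left hO
      rw [List.concat_eq_append, ← List.append_assoc, List.getLast?_append] at ho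
      simp at ho
      rw [← ho]
      simp
    have h := cBC bk (by rw [e2, ← List.append_assoc, List.getLast?_append]; simp) c hc'
    exact h.tr sub lo_oo ro_oo (o1 o ho') (fun z hz h => (lo_no _ hz _ (nw_e ho')).2 h)
      (a3 c (sC c hc'')) (fun z hz h => (ro_oo _ (sC c hc'') _ hz).2 h)
      (fun z hz h1 _ h2 => n3 c hc'' z (new z hz h1) h2)

/-- A new live edge between `x` and `y` keeps the bottoms. -/
theorem bt_add {x y d : E} (H : Inv tl hd S (A ++ x :: y :: C) lo ro) (hdS : inr d ∉ S)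
    (hc : (A ++ x :: y :: C).IsChain (Bt tl R s0 S lo ro)) :
    (A ++ x :: d :: y :: C).IsChain (Bt tl R s0 (S ∪ {inr d})
      (Ins lo (inr x) {inr d} (fun _ _ => False)) (Ins ro (inr y) {inr d} (fun _ _ => False))) := by
  have hl := H.lv_lo
  have hr := H.lv_ro
  rw [List.pairwise_append, List.pairwise_cons, List.pairwise_cons] at hl hr
  obtain ⟨hlA, ⟨hlx, hly, hlC⟩, hlAC⟩ := hl
  obtain ⟨hrA, ⟨hrx, hry, hrC⟩, hrAC⟩ := hr
  have mx : x ∈ A ++ x :: y :: C := by simp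
  have my : y ∈ A ++ x :: y :: C := by simp
  have sx : inr x ∈ S := H.lvS x mx
  have sy : inr y ∈ S := H.lvS y my
  have sA : ∀ a ∈ A, inr a ∈ S := fun a ha => H.lvS a (by simp [ha])
  have sC : ∀ a ∈ C, inr a ∈ S := fun a ha => H.lvS a (by simp [ha])
  have hSN : ∀ z ∈ S, z ∉ ({inr d} : Set (V ⊕ E)) := by
    rintro z hz h
    rw [Set.mem_singleton_iff] at h
    exact hdS (h ▸ hz)
  have md : (inr d : V ⊕ E) ∈ ({inr d} : Set (V ⊕ E)) := Set.mem_singleton _
  set lo' : V ⊕ E → V ⊕ E → Prop := Ins lo (inr x) {inr d} (fun _ _ => False) with hlo'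
  set ro' : V ⊕ E → V ⊕ E → Prop := Ins ro (inr y) {inr d} (fun _ _ => False) with hro'
  have sub : ∀ z ∈ S, z ∈ S ∪ {inr d} := fun z hz => Or.inl hz
  have lo_oo : ∀ x ∈ S, ∀ y ∈ S, (lo' x y ↔ lo x y) := fun x hx y hy =>
    ins_oo (hSN x hx) (hSN y hy)
  have ro_oo : ∀ x ∈ S, ∀ y ∈ S, (ro' x y ↔ ro x y) := fun x hx y hy =>
    ins_oo (hSN x hx) (hSN y hy)
  have lo_od : ∀ z ∈ S, (lo' z (inr d) ↔ (z = inr x ∨ lo z (inr x))) := fun z hz =>
    ins_on (hSN z hz) md
  have ro_od : ∀ z ∈ S, (ro' z (inr d) ↔ (z = inr y ∨ ro z (inr y))) := fun z hz =>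
    ins_on (hSN z hz) md
  have lo_do : ∀ z ∈ S, (lo' (inr d) z ↔ lo (inr x) z) := fun z hz => ins_no md (hSN z hz)
  have ro_do : ∀ z ∈ S, (ro' (inr d) z ↔ ro (inr y) z) := fun z hz => ins_no md (hSN z hz)
  have new : ∀ z ∈ S ∪ {inr d}, z ∉ S → z = inr d := fun z hz h => by
    rcases hz with hz | hz
    · exact absurd hz h
    · exact hz
  have a1 : ∀ p, inr p ∈ S → ∀ z ∈ S,
      ((z = inr p ∨ lo' z (inr p)) ↔ (z = inr p ∨ lo z (inr p))) := fun p hp z hz => by
    rw [lo_oo z hz _ hp]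
  have a3 : ∀ p, inr p ∈ S → ∀ z ∈ S,
      ((z = inr p ∨ ro' z (inr p)) ↔ (z = inr p ∨ ro z (inr p))) := fun p hp z hz => by
    rw [ro_oo z hz _ hp]
  have d1 : ∀ z ∈ S, ((z = inr d ∨ lo' z (inr d)) ↔ (z = inr x ∨ lo z (inr x))) := fun z hz => by
    rw [lo_od z hz]
    constructor
    · rintro (h | h)
      · exact (hdS (h ▸ hz)).elim
      · exact h
    · exact Or.inr
  have d3 : ∀ z ∈ S, ((z = inr d ∨ ro' z (inr d)) ↔ (z = inr y ∨ ro z (inr y))) := fun z hz => by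
    rw [ro_od z hz]
    constructor
    · rintro (h | h)
      · exact (hdS (h ▸ hz)).elim
      · exact h
    · exact Or.inr
  -- the new edge is not left-first below `x` and what is left of it
  have n1 : ∀ a, a ∈ A ++ [x] → ∀ z, z = inr d → (z = inr a ∨ lo' z (inr a)) → False := by
    rintro a ha z rfl (h | h)
    · cases h
      rcases List.mem_append.1 ha with h | h
      · exact hdS (sA _ h)
      · rw [List.mem_singleton] at h
        exact hdS (h ▸ sx)
    · rcases List.mem_append.1 ha with h' | h'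
      · rw [lo_do _ (sA a h')] at h
        exact H.lo_lin.as sx (sA a h') h (hlAC a h' x (by simp))
      · rw [List.mem_singleton] at h'
        subst h'
        rw [lo_do _ sx] at h
        exact H.lo_lin.irr _ sx h
  have n3 : ∀ c, c ∈ y :: C → ∀ z, z = inr d → (z = inr c ∨ ro' z (inr c)) → False := by
    rintro c hc z rfl (h | h)
    · cases h
      rcases List.mem_cons.1 hc with h | h
      · exact hdS (h ▸ sy)
      · exact hdS (sC _ h)
    · rcases List.mem_cons.1 hc with h' | h'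
      · subst h'
        rw [ro_do _ sy] at h
        exact H.ro_lin.irr _ sy h
      · rw [ro_do _ (sC c h')] at h
        exact H.ro_lin.as sy (sC c h') h (hry c h')
  have sAx : ∀ a ∈ A ++ [x], inr a ∈ S := by
    intro a ha
    rcases List.mem_append.1 ha with h | h
    · exact sA a h
    · rw [List.mem_singleton] at h
      rw [h]
      exact sx
  have syC : ∀ c ∈ y :: C, inr c ∈ S := by
    intro c hc
    rcases List.mem_cons.1 hc with h | h
    · rw [h]
      exact sy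
    · exact sC c h
  rw [List.isChain_append_cons_cons] at hc
  rw [List.isChain_append_cons_cons, List.isChain_cons_cons]
  obtain ⟨cA, cxy, cC⟩ := hc
  refine ⟨?_, ?_, ?_, ?_⟩
  · refine List.IsChain.imp_of_mem_imp ?_ cA
    intro p r hp hr h
    exact h.tr sub lo_oo ro_oo (a1 p (sAx p hp)) (fun z hz h => (lo_oo _ (sAx p hp) _ hz).2 h)
      (a3 r (sAx r hr)) (fun z hz h => (ro_oo _ (sAx r hr) _ hz).2 h)
      (fun z hz h1 h2 _ => n1 p hp z (new z hz h1) h2)
  · exact cxy.tr sub lo_oo ro_oo (a1 x sx) (fun z hz h => (lo_oo _ sx _ hz).2 h)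
      d3 (fun z hz h => (ro_do _ hz).2 h)
      (fun z hz h1 h2 _ => n1 x (by simp) z (new z hz h1) h2)
  · exact cxy.tr sub lo_oo ro_oo d1 (fun z hz h => (lo_do _ hz).2 h)
      (a3 y sy) (fun z hz h => (ro_oo _ sy _ hz).2 h)
      (fun z hz h1 _ h2 => n3 y (by simp) z (new z hz h1) h2)
  · refine List.IsChain.imp_of_mem_imp ?_ cC
    intro p r hp hr h
    exact h.tr sub lo_oo ro_oo (a1 p (syC p hp)) (fun z hz h => (lo_oo _ (syC p hp) _ hz).2 h)
      (a3 r (syC r hr)) (fun z hz h => (ro_oo _ (syC r hr) _ hz).2 h)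
      (fun z hz h1 _ h2 => n3 r hr z (new z hz h1) h2)

end Pool.Agent.W_a4f561_h25
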