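import Pool.Agent.W_a4f561_h25.SwC
import Pool.Agent.W_a4f561_h73.A4Drw

/-!
MP_a4f561_co, part B (drawing side), 1: lists of live edges with gaps, the left relation of edges of a
drawing, one vertex of the sweep.
-/

set_option autoImplicit false

namespace Pool.Agent.W_a4f561_h25

open Sum Pool.Agent.W_a4f561_h73

/-- A finite set sorted by an injective key. -/
theorem exists_sorted {α β : Type} [LinearOrder β] (s : Finset α) (f : α → β)
    (hf : ∀ a ∈ s, ∀ b ∈ s, f a = f b → a = b) :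
    ∃ l : List α, l.Nodup ∧ (∀ a, a ∈ l ↔ a ∈ s) ∧ l.Pairwise (fun a b => f a < f b) := by
  classical
  induction s using Finset.induction_on_max_value f with
  | empty => exact ⟨[], List.nodup_nil, by simp, List.Pairwise.nil⟩
  | insert a s ha hmax ih =>
    obtain ⟨l, h1, h2, h3⟩ := ih fun x hx y hy => hf x (Finset.mem_insert_of_mem hx) y
      (Finset.mem_insert_of_mem hy)
    have hal : a ∉ l := fun h => ha ((h2 a).1 h)
    refine ⟨l ++ [a], ?_, ?_, ?_⟩
    · rw [List.nodup_append]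
      refine ⟨h1, List.nodup_singleton a, ?_⟩
      intro x hx y hy hxy
      rw [List.mem_singleton] at hy
      exact hal (hy ▸ hxy ▸ hx)
    · intro x
      simp [h2, or_comm]
    · rw [List.pairwise_append]
      refine ⟨h3, List.pairwise_singleton _ _, ?_⟩
      intro x hx y hy
      rw [List.mem_singleton] at hy
      subst hy
      have hxs := (h2 x).1 hx
      refine lt_of_le_of_ne (hmax x hxs) fun h => ?_
      exact ha (hf x (Finset.mem_insert_of_mem hxs) y (Finset.mem_insert_self _ _) h ▸ hxs)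

/-- A list whose keys increase is split at a value. -/
theorem split_key {α : Type} (f : α → ℝ) (c : ℝ) : ∀ l : List α,
    l.Pairwise (fun a b => f a ≤ f b) → ∃ l1 l2 l3, l = l1 ++ l2 ++ l3 ∧ (∀ a ∈ l1, f a < c) ∧
      (∀ a ∈ l2, f a = c) ∧ ∀ a ∈ l3, c < f a := by
  intro l
  induction l with
  | nil => intro _; exact ⟨[], [], [], rfl, by simp, by simp, by simp⟩
  | cons a l ih =>
    intro h
    rw [List.pairwise_cons] at h
    obtain ⟨l1, l2, l3, rfl, h1, h2, h3⟩ := ih h.2
    rcases lt_trichotomy (f a) c with k | k | k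
    · refine ⟨a :: l1, l2, l3, rfl, ?_, h2, h3⟩
      intro b hb
      rcases List.mem_cons.1 hb with rfl | hb
      · exact k
      · exact h1 b hb
    · have e1 : l1 = [] := by
        rw [List.eq_nil_iff_forall_not_mem]
        intro b hb
        have := h.1 b (by simp [hb])
        have := h1 b hb
        linarith
      subst e1
      refine ⟨[], a :: l2, l3, rfl, by simp, ?_, h3⟩
      intro b hb
      rcases List.mem_cons.1 hb with rfl | hb
      · exact k
      · exact h2 b hb
    · have e1 : l1 = [] := by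
        rw [List.eq_nil_iff_forall_not_mem]
        intro b hb
        have := h.1 b (by simp [hb])
        have := h1 b hb
        linarith
      have e2 : l2 = [] := by
        rw [List.eq_nil_iff_forall_not_mem]
        intro b hb
        have := h.1 b (by simp [hb])
        have := h2 b hb
        linarith
      subst e1
      subst e2
      refine ⟨[], [], a :: l3, rfl, by simp, by simp, ?_⟩
      intro b hb
      rcases List.mem_cons.1 hb with rfl | hb
      · exact k
      · exact h3 b hb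

/-! ### Names of edges: real edges and gaps -/

/-- Real edges `(u, w)` and gaps `(v, i)`: the gap number `i` emitted by `v` (`none` is the source). -/
abbrev EE (V : Type) : Type := (V × V) ⊕ (Option V × ℕ)

/-- Tail. -/
def tlE {V : Type} : EE V → Option V
  | inl e => some e.1
  | inr g => g.1

/-- Head (of real edges; not used for gaps). -/
def hd0 {V : Type} : EE V → Option V
  | inl e => some e.2
  | inr _ => none

/-- `W` is the list `gap, edge, gap, ..., edge, gap` with the list `L` of edges. -/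
inductive Alt {V : Type} : List (V × V) → List (EE V) → Prop
  | nil (g : Option V × ℕ) : Alt [] [inr g]
  | cons (e : V × V) (L : List (V × V)) (g : Option V × ℕ) (W : List (EE V)) : Alt L W →
      Alt (e :: L) (inr g :: inl e :: W)

variable {V : Type}

theorem Alt.mem {L : List (V × V)} {W : List (EE V)} (h : Alt L W) (e : V × V) :
    inl e ∈ W ↔ e ∈ L := by
  induction h with
  | nil g => simp
  | cons e' L g W _ ih => simp [ih]

theorem Alt.ne {L : List (V × V)} {W : List (EE V)} (h : Alt L W) : W ≠ [] := by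
  cases h <;> simp

theorem Alt.first {C : List (V × V)} {g g' : Option V × ℕ} {W : List (EE V)}
    (h : Alt C (inr g :: W)) : Alt C (inr g' :: W) := by
  cases h with
  | nil => exact Alt.nil g'
  | cons e L g W h => exact Alt.cons e L g' W h

theorem Alt.app {C : List (V × V)} {g : Option V × ℕ} {W : List (EE V)} (h : Alt C (inr g :: W)) :
    ∀ (O : List (V × V)) (WO : List (EE V)), Alt O WO → Alt (O ++ C) (WO ++ W) := by
  intro O WO hO
  induction hO with
  | nil g' => exact h.first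
  | cons e L g' W' _ ih => exact Alt.cons e _ g' _ ih

theorem Alt.splitB {C : List (V × V)} : ∀ (B : List (V × V)) (W : List (EE V)), Alt (B ++ C) W →
    ∃ WB WC, W = WB ++ WC ∧ Alt B WB ∧
      ∀ (O : List (V × V)) (WO : List (EE V)), Alt O WO → Alt (O ++ C) (WO ++ WC) := by
  intro B
  induction B with
  | nil =>
    intro W h
    have h' : ∃ g W', W = inr g :: W' := by
      cases h with
      | nil g => exact ⟨g, [], rfl⟩
      | cons e L g W _ => exact ⟨g, inl e :: W, rfl⟩
    obtain ⟨g, W', rfl⟩ := h'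
    exact ⟨[inr g], W', rfl, Alt.nil g, fun O WO hO => Alt.app h O WO hO⟩
  | cons e B ih =>
    intro W h
    cases h with
    | cons _ _ g W h =>
      obtain ⟨WB, WC, rfl, h1, h2⟩ := ih W h
      exact ⟨inr g :: inl e :: WB, WC, rfl, Alt.cons e B g WB h1, h2⟩

theorem Alt.split {B C : List (V × V)} : ∀ (A : List (V × V)) (W : List (EE V)),
    Alt (A ++ B ++ C) W →
    ∃ WA WB WC, W = WA ++ WB ++ WC ∧ Alt B WB ∧
      ∀ (O : List (V × V)) (WO : List (EE V)), Alt O WO → Alt (A ++ O ++ C) (WA ++ WO ++ WC) := by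
  intro A
  induction A with
  | nil =>
    intro W h
    obtain ⟨WB, WC, rfl, h1, h2⟩ := Alt.splitB B W h
    exact ⟨[], WB, WC, rfl, h1, h2⟩
  | cons e A ih =>
    intro W h
    cases h with
    | cons _ _ g W h =>
      obtain ⟨WA, WB, WC, rfl, h1, h2⟩ := ih W h
      exact ⟨inr g :: inl e :: WA, WB, WC, rfl, h1, fun O WO hO => Alt.cons e _ g _ (h2 O WO hO)⟩

/-- The list emitted by `v`. -/
def mkW (v : Option V) : ℕ → List (V × V) → List (EE V)
  | i, [] => [inr (v, i)]
  | i, e :: L => inr (v, i) :: inl e :: mkW v (i + 1) L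

theorem mk_alt (v : Option V) : ∀ (L : List (V × V)) (i : ℕ), Alt L (mkW v i L) := by
  intro L
  induction L with
  | nil => intro i; exact Alt.nil _
  | cons e L ih => intro i; exact Alt.cons e L _ _ (ih _)

theorem mk_gap (v w : Option V) : ∀ (L : List (V × V)) (i j : ℕ), inr (w, j) ∈ mkW v i L →
    w = v ∧ i ≤ j := by
  intro L
  induction L with
  | nil =>
    intro i j h
    simp only [mkW, List.mem_singleton] at h
    cases h
    exact ⟨rfl, le_rfl⟩
  | cons e L ih =>
    intro i j h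
    simp only [mkW, List.mem_cons] at h
    rcases h with h | h | h
    · cases h
      exact ⟨rfl, le_rfl⟩
    · cases h
    · obtain ⟨h1, h2⟩ := ih _ _ h
      exact ⟨h1, by omega⟩

theorem mk_nodup (v : Option V) : ∀ (L : List (V × V)) (i : ℕ), L.Nodup → (mkW v i L).Nodup := by
  intro L
  induction L with
  | nil => intro i _; exact List.nodup_singleton _
  | cons e L ih =>
    intro i h
    rw [List.nodup_cons] at h
    simp only [mkW, List.nodup_cons, List.mem_cons, not_or]
    refine ⟨⟨by simp, fun h' => ?_⟩, fun h' => ?_, ih _ h.2⟩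
    · have := (mk_gap v v L _ _ h').2
      omega
    · exact h.1 (((mk_alt v L _).mem e).1 h')

theorem mk_tl (v : V) (L : List (V × V)) (i : ℕ) (h : ∀ e ∈ L, e.1 = v) :
    ∀ o ∈ mkW (some v) i L, tlE o = some v := by
  rintro (e | ⟨w, j⟩) ho
  · show some e.1 = some v
    rw [h e (((mk_alt _ L _).mem e).1 ho)]
  · exact (mk_gap _ _ L _ _ ho).1

/-! ### Geometry -/

variable {A : V → V → Prop}

theorem ivt_ne {F G : ℝ → ℝ} {a b : ℝ} (hab : a ≤ b) (hF : ContinuousOn F (Set.Icc a b))
    (hG : ContinuousOn G (Set.Icc a b)) (hne : ∀ h ∈ Set.Icc a b, F h ≠ G h) :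
    F a < G a ↔ F b < G b := by
  have hc : ContinuousOn (fun k => F k - G k) (Set.Icc a b) := hF.sub hG
  have ha : a ∈ Set.Icc a b := ⟨le_rfl, hab⟩
  have hb : b ∈ Set.Icc a b := ⟨hab, le_rfl⟩
  constructor
  · intro h
    by_contra h'
    have h2 : G b < F b := lt_of_le_of_ne (not_lt.1 h') (hne b hb).symm
    obtain ⟨k, hk, h0⟩ := intermediate_value_Icc hab hc
      (show (0 : ℝ) ∈ Set.Icc (F a - G a) (F b - G b) from ⟨by linarith, by linarith⟩)
    exact hne k hk (sub_eq_zero.1 h0)
  · intro h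
    by_contra h'
    have h2 : G a < F a := lt_of_le_of_ne (not_lt.1 h') (hne a ha).symm
    obtain ⟨k, hk, h0⟩ := intermediate_value_Icc' hab hc
      (show (0 : ℝ) ∈ Set.Icc (F b - G b) (F a - G a) from ⟨by linarith, by linarith⟩)
    exact hne k hk (sub_eq_zero.1 h0)

/-- `e` is left of `f`. -/
def Rt (D : Drw V A) (e f : V × V) : Prop :=
  D.y f.1 < D.y e.2 ∧ ∀ h, D.y e.1 < h → h < D.y e.2 → D.y f.1 < h → h < D.y f.2 →
    D.X e.1 e.2 h < D.X f.1 f.2 h

/-- The order of the sweep. -/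
def Kl (D : Drw V A) (u v : V) : Prop := D.y u < D.y v ∨ (D.y u = D.y v ∧ D.x u < D.x v)

theorem Kl.le {D : Drw V A} {u v : V} (h : Kl D u v) : D.y u ≤ D.y v := by
  rcases h with h | h
  · exact h.le
  · exact h.1.le

/-- The situation in which the vertex `v` is processed: `dn` are the processed vertices. -/
structure Cur (D : Drw V A) (dn : V → Prop) (v : V) : Prop where
  nd : ¬ dn v
  lo : ∀ u, dn u → Kl D u v
  hi : ∀ w, ¬ dn w → w ≠ v → Kl D v w

/-- Live edges. -/
def Lv (A : V → V → Prop) (dn : V → Prop) (e : V × V) : Prop := A e.1 e.2 ∧ dn e.1 ∧ ¬ dn e.2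

section
variable {D : Drw V A} {dn : V → Prop} {v : V} {e f : V × V}

theorem Cur.y1 (H : Cur D dn v) (he : Lv A dn e) : D.y e.1 ≤ D.y v := (H.lo _ he.2.1).le

theorem Cur.y2 (H : Cur D dn v) (he : Lv A dn e) : D.y v ≤ D.y e.2 := by
  by_cases h : e.2 = v
  · rw [h]
  · exact (H.hi _ he.2.2 h).le

theorem Cur.key (H : Cur D dn v) (he : Lv A dn e) :
    D.X e.1 e.2 (D.y v) = D.x v ↔ e.2 = v := by
  constructor
  · intro h
    by_contra hne
    have h1 := H.hi _ he.2.2 hne
    rcases h1 with h1 | ⟨h1, h2⟩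
    · rcases (H.lo _ he.2.1) with h3 | ⟨h3, h4⟩
      · exact D.vert e.1 e.2 v he.1 h3 h1 h
      · rw [← h3, D.X0 _ _ he.1] at h
        linarith
    · rw [h1, D.X1 _ _ he.1] at h
      linarith
  · intro h
    rw [← h, D.X1 _ _ he.1]

theorem Cur.y2lt (H : Cur D dn v) (he : Lv A dn e) (hk : D.X e.1 e.2 (D.y v) < D.x v) :
    D.y v < D.y e.2 := by
  refine lt_of_le_of_ne (H.y2 he) fun h => ?_
  have hne : e.2 ≠ v := fun h' => by
    rw [(H.key he).2 h'] at hk
    exact lt_irrefl _ hk
  rcases H.hi _ he.2.2 hne with h1 | ⟨h1, h2⟩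
  · exact absurd h h1.ne
  · rw [h, D.X1 _ _ he.1] at hk
    linarith

theorem Cur.mono (H : Cur D dn v) (he : Lv A dn e) (hf : Lv A dn f) (h : Rt D e f) :
    D.X e.1 e.2 (D.y v) ≤ D.X f.1 f.2 (D.y v) := by
  have e1 := H.y1 he
  have e2 := H.y2 he
  have f1 := H.y1 hf
  have f2 := H.y2 hf
  have eu := D.up _ _ he.1
  have fu := D.up _ _ hf.1
  by_cases hov : D.y e.1 < D.y f.2
  · -- overlap
    set m := max (D.y e.1) (D.y f.1) with hm
    set M := min (D.y e.2) (D.y f.2) with hM
    have hmM : m < M := by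
      rw [hm, hM, max_lt_iff, lt_min_iff, lt_min_iff]
      exact ⟨⟨eu, hov⟩, h.1, fu⟩
    have hc : D.y v ∈ closure (Set.Ioo m M) := by
      rw [closure_Ioo hmM.ne]
      exact ⟨max_le e1 f1, le_min e2 f2⟩
    have hs1 : Set.Ioo m M ⊆ Set.Icc (D.y e.1) (D.y e.2) := fun k hk =>
      ⟨((le_max_left _ _).trans_lt hk.1).le, (hk.2.trans_le (min_le_left _ _)).le⟩
    have hs2 : Set.Ioo m M ⊆ Set.Icc (D.y f.1) (D.y f.2) := fun k hk =>
      ⟨((le_max_right _ _).trans_lt hk.1).le, (hk.2.trans_le (min_le_right _ _)).le⟩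
    refine ContinuousWithinAt.closure_le hc
      ((D.cont _ _ he.1 (D.y v) ⟨e1, e2⟩).mono hs1) ((D.cont _ _ hf.1 (D.y v) ⟨f1, f2⟩).mono hs2) ?_
    intro k hk
    exact (h.2 k ((le_max_left _ _).trans_lt hk.1) (hk.2.trans_le (min_le_left _ _))
      ((le_max_right _ _).trans_lt hk.1) (hk.2.trans_le (min_le_right _ _))).le
  · -- `f` ends where `e` begins
    have h1 : D.y e.1 = D.y v := le_antisymm e1 (by linarith)
    have h2 : D.y f.2 = D.y v := le_antisymm (by linarith) f2
    have h3 : D.X e.1 e.2 (D.y v) = D.x e.1 := by rw [← h1, D.X0 _ _ he.1]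
    have h4 : D.X f.1 f.2 (D.y v) = D.x f.2 := by rw [← h2, D.X1 _ _ hf.1]
    rw [h3, h4]
    have h5 : D.x e.1 < D.x v := by
      rcases H.lo _ he.2.1 with h | h
      · exact absurd h1 h.ne
      · exact h.2
    by_cases h6 : f.2 = v
    · rw [h6]
      exact h5.le
    · rcases H.hi _ hf.2.2 h6 with h | h
      · exact absurd h2.symm h.ne
      · linarith [h.2]

theorem Cur.left (H : Cur D dn v) (he : Lv A dn e) (hk : D.X e.1 e.2 (D.y v) < D.x v) {w : V}
    (hw : A v w) : Rt D e (v, w) := by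
  refine ⟨H.y2lt he hk, ?_⟩
  intro h h1 h2 h3 h4
  have h3' : D.y v < h := h3
  have h4' : h < D.y w := h4
  show D.X e.1 e.2 h < D.X v w h
  have hne : e ≠ (v, w) := fun h' => H.nd (by
    have := he.2.1
    rw [h'] at this
    exact this)
  refine (ivt_ne h3'.le ((D.cont _ _ he.1).mono (Set.Icc_subset_Icc (H.y1 he) h2.le))
    ((D.cont _ _ hw).mono (Set.Icc_subset_Icc le_rfl h4'.le)) ?_).1 ?_
  · rintro k ⟨k1, k2⟩
    rcases k1.eq_or_lt with k3 | k3
    · rw [← k3, D.X0 _ _ hw]
      exact hk.ne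
    · exact D.edge e.1 e.2 v w k he.1 hw (fun h' => hne (by rw [← h'])) ((H.y1 he).trans_lt k3)
        (k2.trans_lt h2) k3.le (k2.trans h4'.le)
  · rw [D.X0 _ _ hw]
    exact hk

theorem Cur.right (H : Cur D dn v) (he : Lv A dn e) (hk : D.x v < D.X e.1 e.2 (D.y v)) {w : V}
    (hw : A v w) : Rt D (v, w) e := by
  refine ⟨(H.y1 he).trans_lt (D.up _ _ hw), ?_⟩
  intro h h3 h4 h1 h2
  have h3' : D.y v < h := h3
  have h4' : h < D.y w := h4
  show D.X v w h < D.X e.1 e.2 h
  have hne : e ≠ (v, w) := fun h' => H.nd (by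
    have := he.2.1
    rw [h'] at this
    exact this)
  refine (ivt_ne h3'.le ((D.cont _ _ hw).mono (Set.Icc_subset_Icc le_rfl h4'.le))
    ((D.cont _ _ he.1).mono (Set.Icc_subset_Icc (H.y1 he) h2.le)) ?_).1 ?_
  · rintro k ⟨k1, k2⟩
    rcases k1.eq_or_lt with k3 | k3
    · rw [← k3, D.X0 _ _ hw]
      exact hk.ne
    · exact (D.edge e.1 e.2 v w k he.1 hw (fun h' => hne (by rw [← h'])) ((H.y1 he).trans_lt k3)
        (k2.trans_lt h2) k3.le (k2.trans h4'.le)).symm
  · rw [D.X0 _ _ hw]
    exact hk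

end

/-- The out-edges of a vertex from left to right. -/
theorem exists_out [Fintype V] (D : Drw V A) (v : V) :
    ∃ O : List (V × V), O.Nodup ∧ (∀ e, e ∈ O ↔ e.1 = v ∧ A v e.2) ∧ O.Pairwise (Rt D) := by
  classical
  obtain ⟨h0, hv, hlt⟩ : ∃ h0, D.y v < h0 ∧ ∀ w, A v w → h0 < D.y w := by
    by_cases hne : (Finset.univ.filter fun w => A v w).Nonempty
    · obtain ⟨w0, hw0, hmin⟩ := Finset.exists_min_image _ D.y hne
      have h1 := D.up v w0 (Finset.mem_filter.1 hw0).2
      refine ⟨(D.y v + D.y w0) / 2, by linarith, ?_⟩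
      intro w hw
      have := hmin w (Finset.mem_filter.2 ⟨Finset.mem_univ _, hw⟩)
      linarith
    · refine ⟨D.y v + 1, by linarith, ?_⟩
      intro w hw
      exact absurd ⟨w, Finset.mem_filter.2 ⟨Finset.mem_univ _, hw⟩⟩ hne
  obtain ⟨l, h1, h2, h3⟩ := exists_sorted (Finset.univ.filter fun e : V × V => e.1 = v ∧ A v e.2)
    (fun e => D.X v e.2 h0) (by
      intro a ha b hb hab
      obtain ⟨_, ha1, ha2⟩ := Finset.mem_filter.1 ha
      obtain ⟨_, hb1, hb2⟩ := Finset.mem_filter.1 hb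
      by_contra hne
      refine D.edge v a.2 v b.2 h0 ha2 hb2 (fun h => hne ?_) hv (hlt _ ha2) hv.le (hlt _ hb2).le hab
      exact Prod.ext (ha1.trans hb1.symm) (Prod.mk.inj h).2)
  refine ⟨l, h1, fun e => by rw [h2]; simp, ?_⟩
  refine (List.Pairwise.and_mem.1 h3).imp ?_
  rintro e f ⟨he, hf, hef⟩
  obtain ⟨_, he1, he2⟩ := Finset.mem_filter.1 ((h2 e).1 he)
  obtain ⟨_, hf1, hf2⟩ := Finset.mem_filter.1 ((h2 f).1 hf)
  have hne : (v, e.2) ≠ (v, f.2) := fun h => by
    rw [(Prod.mk.inj h).2] at hef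
    exact lt_irrefl _ hef
  unfold Rt
  rw [he1, hf1]
  refine ⟨D.up _ _ he2, ?_⟩
  intro h k1 k2 _ k4
  rcases le_total h h0 with hh | hh
  · refine (ivt_ne hh ((D.cont _ _ he2).mono (Set.Icc_subset_Icc k1.le (hlt _ he2).le))
      ((D.cont _ _ hf2).mono (Set.Icc_subset_Icc k1.le (hlt _ hf2).le)) ?_).2 hef
    rintro k ⟨l1, l2⟩
    exact D.edge v e.2 v f.2 k he2 hf2 hne (k1.trans_le l1) (l2.trans_lt (hlt _ he2))
      (k1.trans_le l1).le (l2.trans (hlt _ hf2).le)
  · refine (ivt_ne hh ((D.cont _ _ he2).mono (Set.Icc_subset_Icc hv.le k2.le))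
      ((D.cont _ _ hf2).mono (Set.Icc_subset_Icc hv.le k4.le)) ?_).1 hef
    rintro k ⟨l1, l2⟩
    exact D.edge v e.2 v f.2 k he2 hf2 hne (hv.trans_le l1) (l2.trans_lt k2)
      (hv.trans_le l1).le (l2.trans k4.le)

end Pool.Agent.W_a4f561_h25
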