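import Pool.Agent.W_a4f561_h25.Dr1C
import Pool.Agent.W_a4f561_h25.DwA

/-!
MP_a4f561_co, drawings with several sources and sinks, 4: names of edges, lists, the state of the sweep.
-/

set_option autoImplicit false

namespace Pool.Agent.W_a4f561_h25

open Sum Pool.Agent.W_a4f561_h73

/-- Dummy edges: the two outer ones, an edge from `b` into a source, an edge out of the sink `v`. -/
inductive Dm (V : Type) : Type
  | gl : Dm V
  | gr : Dm V
  | src (b : Option V) (n : ℕ) : Dm V
  | snk (v : V) : Dm V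

/-- Real edges and dummy edges. -/
abbrev E1 (V : Type) : Type := (V × V) ⊕ Dm V

/-- Tails (`none` is the super source). -/
def tl1 {V : Type} : E1 V → Option V
  | inl e => some e.1
  | inr Dm.gl => none
  | inr Dm.gr => none
  | inr (Dm.src b _) => b
  | inr (Dm.snk v) => some v

/-- Heads at the start. -/
def hd1 {V : Type} : E1 V → Option V
  | inl e => some e.2
  | inr _ => none

/-- Real edges. -/
def Re {V : Type} (e : E1 V) : Prop := ∃ p : V × V, e = inl p

/-- The real edges of a list. -/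
def rl {V : Type} (W : List (E1 V)) : List (V × V) := W.filterMap Sum.getLeft?

section
variable {V : Type}

theorem mem_rl {W : List (E1 V)} {e : V × V} : e ∈ rl W ↔ inl e ∈ W := by
  unfold rl
  rw [List.mem_filterMap]
  constructor
  · rintro ⟨a, ha, h⟩
    rw [Sum.getLeft?_eq_some_iff] at h
    rw [← h]
    exact ha
  · intro h
    exact ⟨inl e, h, rfl⟩

theorem rl_app (W W' : List (E1 V)) : rl (W ++ W') = rl W ++ rl W' := by
  unfold rl
  rw [List.filterMap_append]

theorem rl_map (L : List (V × V)) : rl (L.map inl) = L := by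
  induction L with
  | nil => rfl
  | cons e L ih =>
    show rl (inl e :: L.map inl) = e :: L
    unfold rl at ih ⊢
    rw [List.filterMap_cons]
    simp only [Sum.getLeft?_inl]
    rw [ih]

theorem rl_none {W : List (E1 V)} (h : ∀ x ∈ W, Sum.getLeft? x = none) : rl W = [] := by
  unfold rl
  rw [List.filterMap_eq_nil_iff]
  exact h

theorem rl_split1 {W : List (E1 V)} {L L' : List (V × V)} (h : rl W = L ++ L') :
    ∃ W1 W2, W = W1 ++ W2 ∧ rl W1 = L ∧ rl W2 = L' := by
  unfold rl at h ⊢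
  exact List.filterMap_eq_append_iff.1 h

theorem rl_split2 {W : List (E1 V)} {e : V × V} {L : List (V × V)} (h : rl W = e :: L) :
    ∃ W1 W2, W = W1 ++ inl e :: W2 ∧ rl W1 = [] ∧ rl W2 = L := by
  unfold rl at h
  obtain ⟨W1, a, W2, h1, h2, h3, h4⟩ := List.filterMap_eq_cons_iff.1 h
  rw [Sum.getLeft?_eq_some_iff] at h3
  subst h3
  exact ⟨W1, W2, h1, rl_none h2, h4⟩

theorem rl_split {W : List (E1 V)} {LA LB LC : List (V × V)} (h : rl W = LA ++ LB ++ LC)
    (hB : LB ≠ []) :
    ∃ WA WB WC, W = WA ++ WB ++ WC ∧ rl WA = LA ∧ rl WB = LB ∧ rl WC = LC ∧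
      (∃ e M, WB = inl e :: M) ∧ ∃ e M, WB = M ++ [inl e] := by
  rw [List.append_assoc] at h
  obtain ⟨N1, N2, rfl, h1, h2⟩ := rl_split1 h
  obtain ⟨e, LB', rfl⟩ := List.exists_cons_of_ne_nil hB
  rw [List.cons_append] at h2
  obtain ⟨D1, N3, rfl, h3, h4⟩ := rl_split2 h2
  have h5 : rl (inl e :: N3) = (e :: LB') ++ LC := by
    have : rl (inl e :: N3) = e :: rl N3 := by
      unfold rl
      rw [List.filterMap_cons]
      simp only [Sum.getLeft?_inl]
    rw [this, h4, List.cons_append]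
  obtain ⟨LX, e', hX⟩ := List.eq_nil_or_concat (e :: LB') |>.resolve_left hB
  rw [List.concat_eq_append] at hX
  rw [hX, List.append_assoc] at h5
  obtain ⟨N4, N5, h6, h7, h8⟩ := rl_split1 h5
  obtain ⟨D2, N6, rfl, h9, h10⟩ := rl_split2 (L := LC) (by rw [h8]; rfl)
  refine ⟨N1 ++ D1, N4 ++ D2 ++ [inl e'], N6, ?_, ?_, ?_, h10, ?_, e', N4 ++ D2, rfl⟩
  · rw [h6]
    simp
  · rw [rl_app, h1, h3, List.append_nil]
  · rw [rl_app, rl_app, h7, h9, hX, List.append_nil]
    congr 1
  · have h11 : (N4 ++ D2 ++ [inl e']) ++ N6 = inl e :: N3 := by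
      rw [h6]
      simp
    cases h12 : (N4 ++ D2 ++ [inl e']) with
    | nil => simp at h12
    | cons z M =>
      rw [h12, List.cons_append, List.cons.injEq] at h11
      exact ⟨e, M, by rw [h11.1]⟩

theorem ends_split {α : Type} {W : List α} {a b : α} (h1 : W.head? = some a)
    (h2 : W.getLast? = some b) (hne : a ≠ b) : ∃ M, W = a :: (M ++ [b]) := by
  cases W with
  | nil => simp at h1
  | cons z W =>
    rw [List.head?_cons, Option.some.injEq] at h1
    subst h1
    rcases List.eq_nil_or_concat W with h | ⟨M, b', h⟩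
    · subst h
      simp at h2
      exact absurd h2 hne
    · subst h
      rw [List.concat_eq_append, ← List.cons_append, List.getLast?_append] at h2
      simp at h2
      subst h2
      exact ⟨M, by rw [List.concat_eq_append]⟩

end

/-- `x` is left of `y`. -/
def Lh {X : Type} (lo ro : X → X → Prop) (x y : X) : Prop := lo x y ∧ ro y x

variable {V : Type} {A : V → V → Prop}

/-- The state of the sweep after the vertices `dn`. -/
structure Sw1 (D : Drw V A) (dn : V → Prop) (S : Set (Option V ⊕ E1 V)) (W : List (E1 V))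
    (hd : E1 V → Option V) (lo ro : Option V ⊕ E1 V → Option V ⊕ E1 V → Prop) : Prop where
  inv : Inv tl1 hd S W lo ro
  gl : W.head? = some (inr Dm.gl)
  gr : W.getLast? = some (inr Dm.gr)
  pw : (rl W).Pairwise (Rt D)
  bo : W.IsChain (Bt tl1 Re none S lo ro)
  s0 : inl none ∈ S
  sv : ∀ u : V, inl (some u) ∈ S ↔ dn u
  se : ∀ e : V × V, inr (inl e) ∈ S ↔ (A e.1 e.2 ∧ dn e.1)
  lv : ∀ e, inl e ∈ W ↔ Lv A dn e
  hr : ∀ e : V × V, hd (inl e) = some e.2
  hn : ∀ e, inr e ∈ S → e ∉ W → hd e ≠ none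
  inn : ∀ v, dn v → ∃ e, inr e ∈ S ∧ e ∉ W ∧ hd e = some v
  out : ∀ w, inl w ∈ S → ∃ e, inr e ∈ S ∧ tl1 e = w
  sk : ∀ v, inr (inr (Dm.snk v)) ∈ S → ∀ w, ¬ A v w
  sc : ∀ b n, inr (inr (Dm.src b n)) ∈ S → inr (Dm.src b n) ∉ W →
    ∀ v, hd (inr (Dm.src b n)) = some v → ∀ u, ¬ A u v
  d1 : ∀ b n, inr (inr (Dm.src b n)) ∈ S → b = none ∨ ∃ o o' : V × V, some o.1 = b ∧ some o'.1 = b ∧
    inr (inl o) ∈ S ∧ inr (inl o') ∈ S ∧ Lh lo ro (inr (inl o)) (inr (inr (Dm.src b n))) ∧
    Lh lo ro (inr (inr (Dm.src b n))) (inr (inl o'))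
  d2 : ∀ d, inr (inr d) ∈ S → inr d ∉ W → ∀ e : V × V, A e.1 e.2 → hd (inr d) = some e.2 →
    ∃ o o' : V × V, o.2 = e.2 ∧ o'.2 = e.2 ∧ inr (inl o) ∈ S ∧ inr (inl o') ∈ S ∧
    Lh lo ro (inr (inl o)) (inr (inr d)) ∧ Lh lo ro (inr (inr d)) (inr (inl o'))

/-- The start of the sweep. -/
theorem inv_init2 {V E : Type} {tl : E → V} (hd : E → V) {v : V} {O : List E} (hO : O ≠ [])
    (hOt : ∀ o ∈ O, tl o = v) {q : E → E → Prop} (hq : LinOn {e | e ∈ O} q)
    (hqO : O.Pairwise q) :
    Inv tl hd (Nw v O) O (Vf q) (Vf fun x y => q y x) := by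
  have as : ∀ o ∈ O, ∀ o' ∈ O, q o o' → ¬ q o' o := fun o ho o' ho' h => hq.as ho ho' h
  constructor
  case fin =>
    refine Set.Finite.subset (((Set.finite_singleton (inl v)).union
      ((List.finite_toSet O).image inr))) ?_
    rintro x (rfl | ⟨e, he, rfl⟩)
    · exact Or.inl rfl
    · exact Or.inr ⟨e, he, rfl⟩
  case lo_lin => exact vf_lin hq
  case ro_lin => exact vf_lin hq.flip
  case lvS => exact fun e he => nw_e he
  case lv_lo => exact hqO
  case lv_ro => exact hqO
  case top =>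
    rintro e he x (rfl | ⟨o, ho, rfl⟩) h1 h2
    · exact h1
    · exact as e he o ho h1 h2
  case cov =>
    obtain ⟨o, ho⟩ := List.exists_mem_of_ne_nil O hO
    rintro x (rfl | ⟨o', ho', rfl⟩)
    · exact ⟨o, ho, Or.inr ⟨trivial, trivial⟩⟩
    · exact ⟨o', ho', Or.inl rfl⟩
  case tlS =>
    intro e he
    rw [hOt e (nw_e' he)]
    exact nw_v
  case tl_lt => exact fun e _ => ⟨trivial, trivial⟩
  case hdS => exact fun e he hl => absurd (nw_e' he) hl
  case hd_lt => exact fun e he hl => absurd (nw_e' he) hl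
  case dn_e =>
    rintro x (rfl | ⟨o, ho, rfl⟩) e he h1 h2
    · rw [hOt e (nw_e' he)]
      exact Or.inl rfl
    · exact (as o ho e (nw_e' he) h1 h2).elim
  case up_e =>
    rintro x (rfl | ⟨o, ho, rfl⟩) e he h1 h2
    · exact (h1 : False).elim
    · exact (as e (nw_e' he) o ho h1 h2).elim
  case dn_v =>
    rintro x (rfl | ⟨o, ho, rfl⟩) w hw h1 h2
    · exact (h1 : False).elim
    · exact (h1 : False).elim
  case up_v =>
    rintro x (rfl | ⟨o, ho, rfl⟩) w hw h1 h2
    · exact (h1 : False).elim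
    · exact ⟨o, nw_e ho, by rw [hOt o ho, nw_v' hw], Or.inl rfl⟩

theorem sw1_init (D : Drw V A) : ∃ S W hd lo ro, Sw1 D (fun _ => False) S W hd lo ro ∧
    ∀ b n, inr (Dm.src b n) ∉ W := by
  classical
  have hn : ([inr Dm.gl, inr Dm.gr] : List (E1 V)).Nodup := by simp
  obtain ⟨q, hq, hqO⟩ := exists_ord ([inr Dm.gl, inr Dm.gr] : List (E1 V)) hn
  have hot : ∀ o ∈ ([inr Dm.gl, inr Dm.gr] : List (E1 V)), tl1 o = none := by
    intro o ho
    rcases List.mem_cons.1 ho with rfl | ho
    · rfl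
    · rcases List.mem_cons.1 ho with rfl | ho
      · rfl
      · cases ho
  have H := inv_init2 (tl := tl1) hd1 (v := (none : Option V)) (by simp) hot hq hqO
  have hlr : q (inr Dm.gl) (inr Dm.gr) := by
    rw [List.pairwise_cons] at hqO
    exact hqO.1 _ (by simp)
  have hrl : ¬ q (inr Dm.gr) (inr Dm.gl) := hq.as (by simp) (by simp) hlr
  refine ⟨_, _, _, _, _, ⟨H, rfl, rfl, ?_, ?_, nw_v, ?_, ?_, ?_, fun _ => rfl, ?_, ?_, ?_, ?_, ?_, ?_,
    ?_⟩, ?_⟩
  · exact List.Pairwise.nil
  · rw [List.isChain_pair]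
    refine ⟨none, ⟨nw_v, trivial, trivial, ?_⟩, Or.inl rfl⟩
    rintro z (rfl | ⟨e, he, rfl⟩) h1 h2
    · exact Or.inl rfl
    · exfalso
      rcases List.mem_cons.1 he with rfl | he
      · rcases h2 with h2 | h2
        · cases h2
        · exact hrl h2
      · rcases List.mem_cons.1 he with rfl | he
        · rcases h1 with h1 | h1
          · cases h1
          · exact hrl h1
        · cases he
  · intro u
    refine ⟨fun h => ?_, fun h => h.elim⟩
    have := nw_v' h
    cases this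
  · intro e
    refine ⟨fun h => ?_, fun h => h.2.elim⟩
    have := nw_e' h
    simp at this
  · intro e
    refine ⟨fun h => ?_, fun h => h.2.1.elim⟩
    simp at h
  · exact fun e he hl => absurd (nw_e' he) hl
  · exact fun v hv => hv.elim
  · intro w hw
    have := nw_v' hw
    subst this
    exact ⟨inr Dm.gl, nw_e (by simp), rfl⟩
  · intro v hv
    have := nw_e' hv
    simp at this
  · intro b n hb
    have := nw_e' hb
    simp at this
  · intro b n hb
    have := nw_e' hb
    simp at this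
  · exact fun d hd hl => absurd (nw_e' hd) hl
  · intro b n h
    simp at h

end Pool.Agent.W_a4f561_h25
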