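import Pool.Agent.W_a4f561_h25.Dr1D

/-!
MP_a4f561_co, drawings with several sources and sinks, 5: a dummy edge into a source; the step of the
sweep.
-/

set_option autoImplicit false

namespace Pool.Agent.W_a4f561_h25

open Sum Pool.Agent.W_a4f561_h73

variable {V : Type} {A : V → V → Prop} {D : Drw V A} {dn : V → Prop}
  {S : Set (Option V ⊕ E1 V)} {W WA WB WC : List (E1 V)} {hd : E1 V → Option V}
  {lo ro : Option V ⊕ E1 V → Option V ⊕ E1 V → Prop} {v : V}

/-- Fresh dummy. -/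
theorem exists_fresh (hS : S.Finite) (b : Option V) :
    ∃ n, (inr (inr (Dm.src b n)) : Option V ⊕ E1 V) ∉ S := by
  by_contra h
  push Not at h
  have hinj : Function.Injective
      (fun n : ℕ => (inr (inr (Dm.src b n)) : Option V ⊕ E1 V)) := by
    intro m n hmn
    simpa using hmn
  exact Set.infinite_of_injective_forall_mem hinj h hS

theorem sw1_add (H : Sw1 D dn S (WA ++ WC) hd lo ro) (hA : WA ≠ []) (hC : WC ≠ []) :
    ∃ b n S' lo' ro', Sw1 D dn S' (WA ++ [inr (Dm.src b n)] ++ WC) hd lo' ro' := by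
  classical
  obtain ⟨A', x, rfl⟩ : ∃ A' x, WA = A' ++ [x] := by
    obtain ⟨A', x, h⟩ := List.eq_nil_or_concat WA |>.resolve_left hA
    exact ⟨A', x, by rw [h, List.concat_eq_append]⟩
  obtain ⟨y, C', rfl⟩ := List.exists_cons_of_ne_nil hC
  have eW : A' ++ [x] ++ y :: C' = A' ++ x :: y :: C' := by simp
  rw [eW] at H
  have hbt : Bt tl1 Re none S lo ro x y := (List.isChain_append_cons_cons.1 H.bo).2.1
  obtain ⟨b, hb, hbq⟩ := hbt
  obtain ⟨n, hn⟩ := exists_fresh (V := V) H.inv.fin b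
  have eW' : A' ++ [x] ++ [inr (Dm.src b n)] ++ y :: C' = A' ++ x :: inr (Dm.src b n) :: y :: C' := by
    simp
  rw [show (A' ++ [x] ++ y :: C') = A' ++ x :: y :: C' from eW] at *
  have hSN : ∀ z ∈ S, z ∉ ({inr (inr (Dm.src b n))} : Set (Option V ⊕ E1 V)) := by
    rintro z hz h
    rw [Set.mem_singleton_iff] at h
    exact hn (h ▸ hz)
  have md : (inr (inr (Dm.src b n)) : Option V ⊕ E1 V) ∈
      ({inr (inr (Dm.src b n))} : Set (Option V ⊕ E1 V)) := Set.mem_singleton _
  have mem' : ∀ e, e ∈ A' ++ x :: inr (Dm.src b n) :: y :: C' ↔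
      (e ∈ A' ++ x :: y :: C' ∨ e = inr (Dm.src b n)) := by
    intro e
    simp only [List.mem_append, List.mem_cons]
    tauto
  refine ⟨b, n, S ∪ {inr (inr (Dm.src b n))}, Ins lo (inr x) {inr (inr (Dm.src b n))} (fun _ _ => False),
    Ins ro (inr y) {inr (inr (Dm.src b n))} (fun _ _ => False), ?_⟩
  rw [eW']
  set lo' : Option V ⊕ E1 V → Option V ⊕ E1 V → Prop :=
    Ins lo (inr x) {inr (inr (Dm.src b n))} (fun _ _ => False) with hlo'
  set ro' : Option V ⊕ E1 V → Option V ⊕ E1 V → Prop :=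
    Ins ro (inr y) {inr (inr (Dm.src b n))} (fun _ _ => False) with hro'
  have lo_oo : ∀ x ∈ S, ∀ y ∈ S, (lo' x y ↔ lo x y) := fun x hx y hy =>
    ins_oo (hSN x hx) (hSN y hy)
  have ro_oo : ∀ x ∈ S, ∀ y ∈ S, (ro' x y ↔ ro x y) := fun x hx y hy =>
    ins_oo (hSN x hx) (hSN y hy)
  have lh_oo : ∀ x ∈ S, ∀ y ∈ S, Lh lo ro x y → Lh lo' ro' x y := fun x hx y hy h =>
    ⟨(lo_oo x hx y hy).2 h.1, (ro_oo y hy x hx).2 h.2⟩
  have ndW : ∀ e, inr e ∈ S → e ∉ A' ++ x :: y :: C' → e ∉ A' ++ x :: inr (Dm.src b n) :: y :: C' := by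
    intro e he h1 h2
    rcases (mem' e).1 h2 with h | h
    · exact h1 h
    · rw [h] at he
      exact hn he
  have nW : ∀ e, e ∉ A' ++ x :: inr (Dm.src b n) :: y :: C' → e ∉ A' ++ x :: y :: C' :=
    fun e h1 h2 => h1 ((mem' e).2 (Or.inl h2))
  have old : ∀ e, inr e ∈ S ∪ {inr (inr (Dm.src b n))} →
      e ∉ A' ++ x :: inr (Dm.src b n) :: y :: C' → inr e ∈ S := by
    rintro e (he | he) h
    · exact he
    · rw [Set.mem_singleton_iff] at he
      exact (h ((mem' e).2 (Or.inr (inr_injective he)))).elim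
  refine ⟨H.inv.add hn hb, ?_, ?_, ?_, bt_add H.inv hn H.bo, Or.inl H.s0, ?_, ?_, ?_, H.hr, ?_, ?_, ?_,
    ?_, ?_, ?_, ?_⟩
  · -- gl
    have h := H.gl
    cases A' with
    | nil => simpa using h
    | cons a A' => simpa using h
  · -- gr
    have h := H.gr
    rw [show A' ++ x :: inr (Dm.src b n) :: y :: C' = (A' ++ x :: [inr (Dm.src b n)]) ++ (y :: C') by simp,
      List.getLast?_append_of_ne_nil _ (by simp)]
    rw [show A' ++ x :: y :: C' = (A' ++ [x]) ++ (y :: C') by simp,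
      List.getLast?_append_of_ne_nil _ (by simp)] at h
    exact h
  · -- pw
    have h : rl (A' ++ x :: inr (Dm.src b n) :: y :: C') = rl (A' ++ x :: y :: C') := by
      have h0 : rl [(inr (Dm.src b n) : E1 V)] = [] := rfl
      rw [show A' ++ x :: inr (Dm.src b n) :: y :: C' =
        (A' ++ [x]) ++ ([inr (Dm.src b n)] ++ (y :: C')) by simp,
        show A' ++ x :: y :: C' = (A' ++ [x]) ++ (y :: C') by simp]
      simp only [rl_app, h0, List.nil_append]
    rw [h]
    exact H.pw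
  · -- sv
    intro u
    constructor
    · rintro (h | h)
      · exact (H.sv u).1 h
      · rw [Set.mem_singleton_iff] at h
        cases h
    · exact fun h => Or.inl ((H.sv u).2 h)
  · -- se
    intro e
    constructor
    · rintro (h | h)
      · exact (H.se e).1 h
      · rw [Set.mem_singleton_iff] at h
        cases h
    · exact fun h => Or.inl ((H.se e).2 h)
  · -- lv
    intro e
    rw [mem', ← H.lv]
    constructor
    · rintro (h | h)
      · exact h
      · cases h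
    · exact Or.inl
  · -- hn
    exact fun e he hl => H.hn e (old e he hl) (nW e hl)
  · -- inn
    intro u hu
    obtain ⟨e, h1, h2, h3⟩ := H.inn u hu
    exact ⟨e, Or.inl h1, ndW e h1 h2, h3⟩
  · -- out
    rintro w (hw | hw)
    · obtain ⟨e, h1, h2⟩ := H.out w hw
      exact ⟨e, Or.inl h1, h2⟩
    · rw [Set.mem_singleton_iff] at hw
      cases hw
  · -- sk
    rintro u (hu | hu)
    · exact H.sk u hu
    · rw [Set.mem_singleton_iff] at hu
      cases hu
  · -- sc
    intro b' n' hb' hl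
    exact H.sc b' n' (old _ hb' hl) (nW _ hl)
  · -- d1
    rintro b' n' (h | h)
    · rcases H.d1 b' n' h with h1 | ⟨o, o', h1, h2, h3, h4, h5, h6⟩
      · exact Or.inl h1
      · exact Or.inr ⟨o, o', h1, h2, Or.inl h3, Or.inl h4, lh_oo _ h3 _ h h5, lh_oo _ h _ h4 h6⟩
    · rw [Set.mem_singleton_iff] at h
      cases h
      rcases hbq with h1 | ⟨o, o', h1⟩
      · exact Or.inl h1
      · obtain ⟨p, rfl⟩ := h1.r
        obtain ⟨p', rfl⟩ := h1.r'
        refine Or.inr ⟨p, p', h1.t, h1.t', Or.inl h1.m, Or.inl h1.m', ⟨?_, ?_⟩, ?_, ?_⟩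
        · refine (ins_on (hSN _ h1.m) md).2 ?_
          rcases h1.l1 with h2 | h2
          · exact Or.inl (by rw [h2])
          · exact Or.inr h2
        · exact (ins_no md (hSN _ h1.m)).2 h1.l4
        · exact (ins_no md (hSN _ h1.m')).2 h1.l2
        · refine (ins_on (hSN _ h1.m') md).2 ?_
          rcases h1.l3 with h2 | h2
          · exact Or.inl (by rw [h2])
          · exact Or.inr h2
  · -- d2
    intro d hd1 hl e he h
    have hdS := old _ hd1 hl
    obtain ⟨o, o', h1, h2, h3, h4, h5, h6⟩ := H.d2 d hdS (nW _ hl) e he h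
    exact ⟨o, o', h1, h2, Or.inl h3, Or.inl h4, lh_oo _ h3 _ hdS h5, lh_oo _ hdS _ h4 h6⟩

theorem sw1_step [Fintype V] (H : Sw1 D dn S (WA ++ WB ++ WC) hd lo ro) (hv : Cur D dn v)
    (hA : WA ≠ []) (hB : WB ≠ []) (hC : WC ≠ [])
    (kA : ∀ e, inl e ∈ WA → D.X e.1 e.2 (D.y v) < D.x v)
    (kB : ∀ e, inl e ∈ WB → D.X e.1 e.2 (D.y v) = D.x v)
    (kC : ∀ e, inl e ∈ WC → D.x v < D.X e.1 e.2 (D.y v))
    (nA : ∀ b n, inr (Dm.src b n) ∉ WA) (nC : ∀ b n, inr (Dm.src b n) ∉ WC)
    (cB : (∀ u, ¬ A u v) ∨ ((∀ b n, inr (Dm.src b n) ∉ WB) ∧ (∃ e M, WB = inl e :: M) ∧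
      ∃ e M, WB = M ++ [inl e])) :
    ∃ S' W' hd' lo' ro', Sw1 D (fun u => dn u ∨ u = v) S' W' hd' lo' ro' ∧
      ∀ b n, inr (Dm.src b n) ∉ W' := by
  classical
  obtain ⟨b1, B1, e1⟩ := List.exists_cons_of_ne_nil hB
  obtain ⟨bk, B2, e2⟩ : ∃ bk B2, WB = B2 ++ [bk] := by
    obtain ⟨B2, bk, h⟩ := List.eq_nil_or_concat WB |>.resolve_left hB
    exact ⟨bk, B2, by rw [h, List.concat_eq_append]⟩
  obtain ⟨LO, hO1, hO2, hO3⟩ := exists_out D v
  -- the emitted list
  obtain ⟨WO, hWO, hWn, hWt, hWr, hWrl, hWs, hWk⟩ : ∃ WO : List (E1 V), WO ≠ [] ∧ WO.Nodup ∧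
      (∀ o ∈ WO, tl1 o = some v) ∧ ((∀ o ∈ WO, Re o) ∨ ∃ o, WO = [o]) ∧ rl WO = LO ∧
      (∀ b n, inr (Dm.src b n) ∉ WO) ∧ ∀ u, inr (Dm.snk u) ∈ WO → ∀ w, ¬ A u w := by
    by_cases hL : LO = []
    · refine ⟨[inr (Dm.snk v)], by simp, by simp, ?_, Or.inr ⟨_, rfl⟩, ?_, by simp, ?_⟩
      · intro o ho
        rw [List.mem_singleton] at ho
        rw [ho]
        rfl
      · rw [hL]
        rfl
      · intro u hu w hw
        rw [List.mem_singleton] at hu
        cases hu
        have := (hO2 (v, w)).2 ⟨rfl, hw⟩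
        rw [hL] at this
        cases this
    · refine ⟨LO.map inl, by simpa using hL, hO1.map Sum.inl_injective, ?_, Or.inl ?_, rl_map LO,
        by simp, by simp⟩
      · intro o ho
        obtain ⟨e, he, rfl⟩ := List.mem_map.1 ho
        show some e.1 = some v
        rw [((hO2 e).1 he).1]
      · intro o ho
        obtain ⟨e, he, rfl⟩ := List.mem_map.1 ho
        exact ⟨e, rfl⟩
  obtain ⟨q, hq, hqO⟩ := exists_ord WO hWn
  have hvS : (inl (some v) : Option V ⊕ E1 V) ∉ S := fun h => hv.nd ((H.sv v).1 h)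
  have hLO : ∀ e, inl e ∈ WO ↔ e.1 = v ∧ A v e.2 := fun e => by
    rw [← mem_rl, hWrl, hO2]
  obtain ⟨hd', hI, hh1, hh2⟩ : ∃ hd', Inv tl1 hd' (S ∪ Nw (some v) WO) (WA ++ WO ++ WC)
      (Ins lo (inr bk) (Nw (some v) WO) (Vf q)) (Ins ro (inr b1) (Nw (some v) WO) (Vf fun x y => q y x)) ∧
      (∀ e ∈ WB, hd' e = some v) ∧ ∀ e, e ∉ WB → hd' e = hd e :=
    ⟨_, H.inv.step2 (v := some v) e1 e2 hvS hWO hWt hq hqO, fun e he => if_pos he,
      fun e he => if_neg he⟩
  have hBo := bt_step (v := some v) H.inv e1 e2 hvS hWO hWt hq hqO hWr H.bo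
  have hSN : ∀ x ∈ S, x ∉ Nw (some v) WO := by
    rintro x hx (rfl | ⟨e, he, rfl⟩)
    · exact hvS hx
    · exact hvS (hWt e he ▸ H.inv.tlS e hx)
  set lo' : Option V ⊕ E1 V → Option V ⊕ E1 V → Prop :=
    Ins lo (inr bk) (Nw (some v) WO) (Vf q) with hlo'
  set ro' : Option V ⊕ E1 V → Option V ⊕ E1 V → Prop :=
    Ins ro (inr b1) (Nw (some v) WO) (Vf fun x y => q y x) with hro'
  have lo_oo : ∀ x ∈ S, ∀ y ∈ S, (lo' x y ↔ lo x y) := fun x hx y hy =>
    ins_oo (hSN x hx) (hSN y hy)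
  have ro_oo : ∀ x ∈ S, ∀ y ∈ S, (ro' x y ↔ ro x y) := fun x hx y hy =>
    ins_oo (hSN x hx) (hSN y hy)
  have lh_oo : ∀ x ∈ S, ∀ y ∈ S, Lh lo ro x y → Lh lo' ro' x y := fun x hx y hy h =>
    ⟨(lo_oo x hx y hy).2 h.1, (ro_oo y hy x hx).2 h.2⟩
  have lvA : ∀ e, inl e ∈ WA → Lv A dn e := fun e he => (H.lv e).1 (by simp [he])
  have lvB : ∀ e, inl e ∈ WB → Lv A dn e := fun e he => (H.lv e).1 (by simp [he])
  have lvC : ∀ e, inl e ∈ WC → Lv A dn e := fun e he => (H.lv e).1 (by simp [he])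
  have sB : ∀ e ∈ WB, inr e ∈ S := fun e he => H.inv.lvS e (by simp [he])
  have hB2 : ∀ e : V × V, inl e ∈ WB → e.2 = v := fun e he => (hv.key (lvB e he)).1 (kB e he)
  have old : ∀ e, inr e ∈ S ∪ Nw (some v) WO → e ∉ WA ++ WO ++ WC → inr e ∈ S := by
    rintro e (he | he) h
    · exact he
    · exact (h (by simp [nw_e' he])).elim
  have nold : ∀ e, inr e ∈ S → e ∉ WO := fun e he h => hSN _ he (nw_e h)
  have nW : ∀ e, e ∉ WA ++ WO ++ WC → e ∉ WB → e ∉ WA ++ WB ++ WC := by
    intro e h1 h2 h3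
    rcases List.mem_append.1 h3 with h | h
    · rcases List.mem_append.1 h with h | h
      · exact h1 (by simp [h])
      · exact h2 h
    · exact h1 (by simp [h])
  have ndW : ∀ e, inr e ∈ S → e ∉ WA ++ WB ++ WC → e ∉ WA ++ WO ++ WC := by
    intro e he h1 h2
    rcases List.mem_append.1 h2 with h | h
    · rcases List.mem_append.1 h with h | h
      · exact h1 (by simp [h])
      · exact nold e he h
    · exact h1 (by simp [h])
  have hnd : (WA ++ WB ++ WC).Nodup := by
    refine List.Pairwise.imp_of_mem ?_ H.inv.lv_lo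
    intro a b ha hb h hab
    subst hab
    exact H.inv.lo_lin.irr _ (H.inv.lvS a ha) h
  have hBd : ∀ e, e ∈ WB → e ∉ WA ++ WO ++ WC := by
    intro e he h
    rw [List.nodup_append, List.nodup_append] at hnd
    rcases List.mem_append.1 h with h | h
    · rcases List.mem_append.1 h with h | h
      · exact hnd.1.2.2 e h e he rfl
      · exact nold e (sB e he) h
    · exact hnd.2.2 e (List.mem_append_right _ he) e h rfl
  have hpw := H.pw
  rw [rl_app, rl_app, List.pairwise_append, List.pairwise_append] at hpw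
  refine ⟨_, WA ++ WO ++ WC, _, lo', ro', ⟨hI, ?_, ?_, ?_, hBo, Or.inl H.s0, ?_, ?_, ?_, ?_, ?_, ?_,
    ?_, ?_, ?_, ?_, ?_⟩, ?_⟩
  · -- gl
    have h := H.gl
    rw [List.append_assoc, List.head?_append_of_ne_nil _ hA] at h ⊢
    exact h
  · -- gr
    have h := H.gr
    rw [List.getLast?_append_of_ne_nil _ hC] at h ⊢
    exact h
  · -- pairwise
    rw [rl_app, rl_app, List.pairwise_append, List.pairwise_append, hWrl]
    refine ⟨⟨hpw.1.1, hO3, ?_⟩, hpw.2.1, ?_⟩
    · intro e he o ho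
      obtain ⟨o1, o2⟩ := (hO2 o).1 ho
      have h3 := hv.left (lvA e (mem_rl.1 he)) (kA e (mem_rl.1 he)) o2
      rwa [← o1] at h3
    · intro e he f hf
      rcases List.mem_append.1 he with he | he
      · exact hpw.2.2 e (List.mem_append_left _ he) f hf
      · obtain ⟨o1, o2⟩ := (hO2 e).1 he
        have h3 := hv.right (lvC f (mem_rl.1 hf)) (kC f (mem_rl.1 hf)) o2
        rwa [← o1] at h3
  · -- vertices
    intro u
    constructor
    · rintro (h | h)
      · exact Or.inl ((H.sv u).1 h)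
      · have := nw_v' h
        cases this
        exact Or.inr rfl
    · rintro (h | rfl)
      · exact Or.inl ((H.sv u).2 h)
      · exact Or.inr nw_v
  · -- edges
    intro e
    constructor
    · rintro (h | h)
      · exact ⟨((H.se e).1 h).1, Or.inl ((H.se e).1 h).2⟩
      · have h3 := (hLO e).1 (nw_e' h)
        exact ⟨by rw [h3.1]; exact h3.2, Or.inr h3.1⟩
    · rintro ⟨h3, h4 | h4⟩
      · exact Or.inl ((H.se e).2 ⟨h3, h4⟩)
      · refine Or.inr (nw_e ((hLO e).2 ⟨h4, ?_⟩))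
        rwa [h4] at h3
  · -- live edges
    intro e
    constructor
    · intro h
      rcases List.mem_append.1 h with h | h
      · rcases List.mem_append.1 h with h | h
        · have h3 := lvA e h
          refine ⟨h3.1, Or.inl h3.2.1, ?_⟩
          rintro (h4 | h4)
          · exact h3.2.2 h4
          · have := (hv.key h3).2 h4
            have := kA e h
            linarith
        · obtain ⟨o1, o2⟩ := (hLO e).1 h
          refine ⟨by rw [o1]; exact o2, Or.inr o1, ?_⟩
          have h5 := D.up _ _ o2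
          rintro (h4 | h4)
          · have := (hv.lo _ h4).le
            linarith
          · rw [h4] at h5
            exact lt_irrefl _ h5
      · have h3 := lvC e h
        refine ⟨h3.1, Or.inl h3.2.1, ?_⟩
        rintro (h4 | h4)
        · exact h3.2.2 h4
        · have := (hv.key h3).2 h4
          have := kC e h
          linarith
    · rintro ⟨h3, h4, h5⟩
      rcases h4 with h4 | h4
      · have h6 : Lv A dn e := ⟨h3, h4, fun h => h5 (Or.inl h)⟩
        have h7 := (H.lv e).2 h6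
        rcases List.mem_append.1 h7 with h | h
        · rcases List.mem_append.1 h with h | h
          · simp [h]
          · exact absurd (Or.inr ((hv.key h6).1 (kB e h))) h5
        · simp [h]
      · have h6 : inl e ∈ WO := (hLO e).2 ⟨h4, by rwa [h4] at h3⟩
        simp [h6]
  · -- heads of real edges
    intro e
    by_cases h : inl e ∈ WB
    · rw [hh1 _ h, hB2 e h]
    · rw [hh2 _ h]
      exact H.hr e
  · -- hn
    intro e he hl
    by_cases h : e ∈ WB
    · rw [hh1 _ h]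
      exact Option.some_ne_none v
    · rw [hh2 _ h]
      exact H.hn e (old e he hl) (nW e hl h)
  · -- inn
    rintro u (hu | hu)
    · obtain ⟨e, h1, h2, h3⟩ := H.inn u hu
      have h4 : e ∉ WB := fun h => h2 (by simp [h])
      refine ⟨e, Or.inl h1, ndW e h1 h2, ?_⟩
      rw [hh2 _ h4]
      exact h3
    · have h : b1 ∈ WB := by rw [e1]; simp
      refine ⟨b1, Or.inl (sB b1 h), hBd b1 h, ?_⟩
      rw [hh1 _ h, hu]
  · -- out
    rintro w (hw | hw)
    · obtain ⟨e, h1, h2⟩ := H.out w hw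
      exact ⟨e, Or.inl h1, h2⟩
    · obtain ⟨o, ho⟩ := List.exists_mem_of_ne_nil WO hWO
      exact ⟨o, Or.inr (nw_e ho), by rw [hWt o ho, nw_v' hw]⟩
  · -- sk
    rintro u (hu | hu)
    · exact H.sk u hu
    · exact hWk u (nw_e' hu)
  · -- sc
    intro b n hbn hl u
    by_cases h : inr (Dm.src b n) ∈ WB
    · rw [hh1 _ h]
      intro hu
      rw [Option.some.injEq] at hu
      subst hu
      rcases cB with h1 | h1
      · exact h1
      · exact (h1.1 b n h).elim
    · rw [hh2 _ h]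
      exact H.sc b n (old _ hbn hl) (nW _ hl h) u
  · -- d1
    rintro b n (h | h)
    · rcases H.d1 b n h with h1 | ⟨o, o', h1, h2, h3, h4, h5, h6⟩
      · exact Or.inl h1
      · exact Or.inr ⟨o, o', h1, h2, Or.inl h3, Or.inl h4, lh_oo _ h3 _ h h5, lh_oo _ h _ h4 h6⟩
    · exact (hWs b n (nw_e' h)).elim
  · -- d2
    intro d hd1 hl e he
    have hdS := old _ hd1 hl
    by_cases h : inr d ∈ WB
    · rw [hh1 _ h]
      intro hu
      rw [Option.some.injEq] at hu
      rcases cB with h1 | ⟨-, ⟨f, M, h2⟩, f', M', h3⟩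
      · exact (h1 e.1 (hu ▸ he)).elim
      · obtain ⟨m1, m2⟩ := H.inv.blk1 h2
        obtain ⟨m3, m4⟩ := H.inv.blk2 h3
        refine ⟨f, f', by rw [hB2 f m1, hu], by rw [hB2 f' m3, hu], Or.inl (sB _ m1), Or.inl (sB _ m3),
          ?_, ?_⟩
        · rcases m2 _ h with h4 | h4
          · cases h4
          · exact lh_oo _ (sB _ m1) _ hdS h4
        · rcases m4 _ h with h4 | h4
          · cases h4
          · exact lh_oo _ hdS _ (sB _ m3) h4
    · rw [hh2 _ h]
      intro hu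
      obtain ⟨o, o', h1, h2, h3, h4, h5, h6⟩ := H.d2 d hdS (nW _ hl h) e he hu
      exact ⟨o, o', h1, h2, Or.inl h3, Or.inl h4, lh_oo _ h3 _ hdS h5, lh_oo _ hdS _ h4 h6⟩
  · -- no live `src`
    intro b n h
    rcases List.mem_append.1 h with h | h
    · rcases List.mem_append.1 h with h | h
      · exact nA b n h
      · exact hWs b n h
    · exact nC b n h

end Pool.Agent.W_a4f561_h25
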