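import Pool.Agent.W_a4f561_h25.Dr1E
import Pool.Agent.W_a4f561_h34.WaA

/-!
MP_a4f561_co, drawings with several sources and sinks, 6: the planar st-structure of a drawing, with dummy
edges.
-/

set_option autoImplicit false

namespace Pool.Agent.W_a4f561_h25

open Sum Pool.Agent.W_a4f561_h73

/-- As `Inv.pl` of SwC, with the heads of the live edges and the orders of edges. -/
theorem inv_pl2 {V E : Type} {tl hd : E → V} {S : Set (V ⊕ E)} {lv : List E}
    {lo ro : V ⊕ E → V ⊕ E → Prop} (H : Inv tl hd S lv lo ro) (hS : ∀ v, inl v ∈ S) :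
    ∃ P : Pl (Option V) {e // inr e ∈ S}, (∀ e, P.tl e = some (tl e.1)) ∧
      (∀ e, e.1 ∉ lv → P.hd e = some (hd e.1)) ∧ (∀ e, e.1 ∈ lv → P.hd e = none) ∧
      ∀ e e', Lh lo ro (inr e.1) (inr e'.1) → P.L (inr e) (inr e') := by
  classical
  have hmem : ∀ (x : Option V ⊕ {e // inr e ∈ S}) (y : V ⊕ E), em x = some y → y ∈ S := by
    rintro ((_ | v) | ⟨e, he⟩) y h
    · cases h
    · cases h
      exact hS v
    · cases h
      exact he
  have irr : ∀ r : V ⊕ E → V ⊕ E → Prop, LinOn S r →
      ∀ x : Option V ⊕ {e // inr e ∈ S}, ¬ O2 r (em x) (em x) := by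
    intro r hr x h
    cases hx : em x with
    | none =>
      rw [hx] at h
      exact h
    | some y =>
      rw [hx] at h
      exact hr.irr y (hmem x y hx) h
  have tr : ∀ r : V ⊕ E → V ⊕ E → Prop, LinOn S r →
      ∀ x y z : Option V ⊕ {e // inr e ∈ S}, O2 r (em x) (em y) → O2 r (em y) (em z) →
      O2 r (em x) (em z) := by
    intro r hr x y z h1 h2
    cases hx : em x with
    | none =>
      rw [hx] at h1
      exact h1.elim
    | some x' =>
      cases hz : em z with
      | none => trivial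
      | some z' =>
        cases hy : em y with
        | none =>
          rw [hy] at h2
          exact h2.elim
        | some y' =>
          rw [hx, hy] at h1
          rw [hy, hz] at h2
          exact hr.tr x' (hmem x x' hx) y' (hmem y y' hy) z' (hmem z z' hz) h1 h2
  have tot : ∀ r : V ⊕ E → V ⊕ E → Prop, LinOn S r →
      ∀ x y : Option V ⊕ {e // inr e ∈ S}, x ≠ y → O2 r (em x) (em y) ∨ O2 r (em y) (em x) := by
    intro r hr x y hne
    cases hx : em x with
    | none =>
      cases hy : em y with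
      | none => exact (hne (em_inj (hx.trans hy.symm))).elim
      | some y' => exact Or.inr trivial
    | some x' =>
      cases hy : em y with
      | none => exact Or.inl trivial
      | some y' =>
        have : x' ≠ y' := fun h => hne (em_inj (by rw [hx, hy, h]))
        exact hr.tot x' (hmem x x' hx) y' (hmem y y' hy) this
  refine ⟨{
    tl := fun e => some (tl e.1)
    hd := fun e => if e.1 ∈ lv then none else some (hd e.1)
    lo := fun x y => O2 lo (em x) (em y)
    ro := fun x y => O2 ro (em x) (em y)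
    lo_irr := irr lo H.lo_lin
    lo_tr := tr lo H.lo_lin
    lo_tot := tot lo H.lo_lin
    ro_irr := irr ro H.ro_lin
    ro_tr := tr ro H.ro_lin
    ro_tot := tot ro H.ro_lin
    tl_lo := fun e => (H.tl_lt e.1 e.2).1
    tl_ro := fun e => (H.tl_lt e.1 e.2).2
    hd_lo := ?_
    hd_ro := ?_
    dn_e := ?_
    up_e := ?_
    dn_v := ?_
    up_v := ?_ }, fun _ => rfl, fun e he => if_neg he, fun e he => if_pos he, fun e e' h => h⟩
  · intro e
    by_cases h : e.1 ∈ lv
    · rw [if_pos h]
      trivial
    · rw [if_neg h]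
      exact (H.hd_lt e.1 e.2 h).1
  · intro e
    by_cases h : e.1 ∈ lv
    · rw [if_pos h]
      trivial
    · rw [if_neg h]
      exact (H.hd_lt e.1 e.2 h).2
  · rintro ((_ | v) | ⟨e', he'⟩) e h1 h2
    · exact (h1 : False).elim
    · rcases H.dn_e _ (hS v) e.1 e.2 h1 h2 with h | h
      · refine Or.inl ?_
        rw [inl_injective h]
      · exact Or.inr h
    · rcases H.dn_e _ he' e.1 e.2 h1 h2 with h | h
      · cases h
      · exact Or.inr h
  · rintro ((_ | v) | ⟨e', he'⟩) e h1 h2
    · by_cases h : e.1 ∈ lv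
      · rw [if_pos h]
        exact Or.inl rfl
      · rw [if_neg h]
        exact Or.inr ⟨trivial, trivial⟩
    · by_cases h : e.1 ∈ lv
      · exact (H.top e.1 h _ (hS v) h1 h2).elim
      · rw [if_neg h]
        rcases H.up_e _ (hS v) e.1 e.2 h1 h2 with h | h
        · refine Or.inl ?_
          rw [inl_injective h]
        · exact Or.inr h
    · by_cases h : e.1 ∈ lv
      · exact (H.top e.1 h _ he' h1 h2).elim
      · rw [if_neg h]
        rcases H.up_e _ he' e.1 e.2 h1 h2 with h | h
        · cases h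
        · exact Or.inr h
  · rintro x (_ | v) h1 h2
    · -- the new top
      have hx : ∃ y, em x = some y ∧ y ∈ S := by
        cases hx : em x with
        | none =>
          have h1' : O2 lo (em x) (em (inl none : Option V ⊕ {e // inr e ∈ S})) := h1
          rw [hx] at h1'
          exact h1'.elim
        | some y => exact ⟨y, rfl, hmem x y hx⟩
      obtain ⟨y, hy, hyS⟩ := hx
      obtain ⟨e, he, h⟩ := H.cov y hyS
      refine ⟨⟨e, H.lvS e he⟩, if_pos he, ?_⟩
      rcases h with h | h
      · exact Or.inl (em_inj (by rw [hy, h]; rfl))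
      · refine Or.inr ?_
        show O2 lo (em x) (some (inr e)) ∧ O2 ro (em x) (some (inr e))
        rw [hy]
        exact h
    · rcases x with (_ | w) | ⟨e', he'⟩
      · exact (h1 : False).elim
      · obtain ⟨r, hr, hrl, hrv, h⟩ := H.dn_v _ (hS w) v (hS v) h1 h2
        refine ⟨⟨r, hr⟩, ?_, ?_⟩
        · show (if r ∈ lv then none else some (hd r)) = some v
          rw [if_neg hrl, hrv]
        · rcases h with h | h
          · cases h
          · exact Or.inr h
      · obtain ⟨r, hr, hrl, hrv, h⟩ := H.dn_v _ he' v (hS v) h1 h2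
        refine ⟨⟨r, hr⟩, ?_, ?_⟩
        · show (if r ∈ lv then none else some (hd r)) = some v
          rw [if_neg hrl, hrv]
        · rcases h with h | h
          · cases h
            exact Or.inl rfl
          · exact Or.inr h
  · rintro x (_ | v) h1 h2
    · exact (h1 : False).elim
    · rcases x with (_ | w) | ⟨e', he'⟩
      · -- `v` is below a live element
        obtain ⟨e, he, h⟩ := H.cov _ (hS v)
        rcases h with h | h
        · cases h
        · obtain ⟨r, hr, hrv, h3⟩ := H.up_v _ (H.lvS e he) v (hS v) h.1 h.2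
          exact ⟨⟨r, hr⟩, by rw [hrv], Or.inr ⟨trivial, trivial⟩⟩
      · obtain ⟨r, hr, hrv, h⟩ := H.up_v _ (hS w) v (hS v) h1 h2
        refine ⟨⟨r, hr⟩, by rw [hrv], ?_⟩
        rcases h with h | h
        · cases h
        · exact Or.inr h
      · obtain ⟨r, hr, hrv, h⟩ := H.up_v _ he' v (hS v) h1 h2
        refine ⟨⟨r, hr⟩, by rw [hrv], ?_⟩
        rcases h with h | h
        · cases h
          exact Or.inl rfl
        · exact Or.inr h


variable {V : Type} {A : V → V → Prop}

theorem sw1_main [Fintype V] {D : Drw V A} {dn : V → Prop} {S : Set (Option V ⊕ E1 V)}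
    {W : List (E1 V)} {hd : E1 V → Option V} {lo ro : Option V ⊕ E1 V → Option V ⊕ E1 V → Prop}
    {v : V} (H : Sw1 D dn S W hd lo ro) (ns : ∀ b n, inr (Dm.src b n) ∉ W) (hv : Cur D dn v) :
    ∃ S' W' hd' lo' ro', Sw1 D (fun u => dn u ∨ u = v) S' W' hd' lo' ro' ∧
      ∀ b n, inr (Dm.src b n) ∉ W' := by
  classical
  have hk : (rl W).Pairwise (fun e f => D.X e.1 e.2 (D.y v) ≤ D.X f.1 f.2 (D.y v)) := by
    refine (List.Pairwise.and_mem.1 H.pw).imp ?_
    rintro e f ⟨he, hf, hef⟩
    exact hv.mono ((H.lv e).1 (mem_rl.1 he)) ((H.lv f).1 (mem_rl.1 hf)) hef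
  obtain ⟨LA, LB, LC, hL, kA, kB, kC⟩ :=
    split_key (fun e : V × V => D.X e.1 e.2 (D.y v)) (D.x v) (rl W) hk
  obtain ⟨M, hM⟩ := ends_split H.gl H.gr (by simp)
  subst hM
  by_cases hLB : LB = []
  · -- a source
    subst hLB
    have hsrc : ∀ u, ¬ A u v := by
      intro u hu
      have h1 := D.up u v hu
      have h2 : dn u := by
        by_contra h
        have hne : u ≠ v := fun h' => by
          rw [h'] at h1
          exact lt_irrefl _ h1
        have := (hv.hi u h hne).le
        linarith
      have h3 : Lv A dn (u, v) := ⟨hu, h2, hv.nd⟩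
      have h4 := mem_rl.2 ((H.lv _).2 h3)
      have h5 := (hv.key h3).2 rfl
      rw [hL, List.append_nil] at h4
      rcases List.mem_append.1 h4 with h | h
      · exact (kA _ h).ne h5
      · exact (kC _ h).ne' h5
    rw [List.append_nil] at hL
    have hL' : rl M = LA ++ LC := by
      rw [← hL, show (inr Dm.gl :: (M ++ [inr Dm.gr]) : List (E1 V)) =
        [inr Dm.gl] ++ (M ++ [inr Dm.gr]) by simp, rl_app, rl_app]
      have h1 : rl ([inr Dm.gl] : List (E1 V)) = [] := rfl
      have h2 : rl ([inr Dm.gr] : List (E1 V)) = [] := rfl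
      rw [h1, h2, List.nil_append, List.append_nil]
    obtain ⟨M1, M2, rfl, h1, h2⟩ := rl_split1 hL'
    have eW : (inr Dm.gl :: (M1 ++ M2 ++ [inr Dm.gr]) : List (E1 V)) =
        (inr Dm.gl :: M1) ++ (M2 ++ [inr Dm.gr]) := by simp
    rw [eW] at H ns
    obtain ⟨b, n, S', lo', ro', H'⟩ := sw1_add H (by simp) (by simp)
    refine sw1_step H' hv (by simp) (by simp) (by simp) ?_ ?_ ?_ ?_ ?_ (Or.inl hsrc)
    · intro e he
      refine kA e ?_
      rw [← h1, mem_rl]
      simpa using he
    · intro e he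
      simp at he
    · intro e he
      refine kC e ?_
      rw [← h2, mem_rl]
      simpa using he
    · exact fun b n h => ns b n (List.mem_append_left _ h)
    · exact fun b n h => ns b n (List.mem_append_right _ h)
  · obtain ⟨WA, WB, WC, hW, h1, h2, h3, ⟨f, MB, h4⟩, f', MB', h5⟩ := rl_split hL hLB
    rw [hW] at H ns
    have hgl := H.gl
    have hgr := H.gr
    refine sw1_step H hv ?_ (by rw [h4]; simp) ?_ ?_ ?_ ?_ ?_ ?_ (Or.inr ⟨?_, ⟨f, MB, h4⟩, f', MB', h5⟩)
    · rintro rfl
      rw [h4] at hgl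
      simp at hgl
    · rintro rfl
      rw [h5, List.append_nil, ← List.append_assoc, List.getLast?_append] at hgr
      simp at hgr
    · intro e he
      refine kA e ?_
      rw [← h1, mem_rl]
      exact he
    · intro e he
      refine kB e ?_
      rw [← h2, mem_rl]
      exact he
    · intro e he
      refine kC e ?_
      rw [← h3, mem_rl]
      exact he
    · exact fun b n h => ns b n (by simp [h])
    · exact fun b n h => ns b n (by simp [h])
    · exact fun b n h => ns b n (by simp [h])

/-- A drawing with any number of sources and sinks gives a planar st-structure whose edges are the real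
edges and dummy edges. -/
theorem drw1_pl {V : Type} [Fintype V] {A : V → V → Prop} (D : Drw V A) :
    ∃ (E : Type) (_ : Fintype E) (P : Pl (Option (Option V)) E) (j : {p : V × V // A p.1 p.2} → E),
      (∀ p, P.tl (j p) = some (some p.1.1) ∧ P.hd (j p) = some (some p.1.2)) ∧
      Pool.Agent.W_a4f561_h34.StP P (some none) none ∧
      (∀ d, (∀ p, d ≠ j p) → (∃ p, P.tl (j p) = P.tl d) →
        (∃ p, P.tl (j p) = P.tl d ∧ P.L (inr (j p)) (inr d)) ∧
        (∃ p, P.tl (j p) = P.tl d ∧ P.L (inr d) (inr (j p)))) ∧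
      (∀ d, (∀ p, d ≠ j p) → (∃ p, P.hd (j p) = P.hd d) →
        (∃ p, P.hd (j p) = P.hd d ∧ P.L (inr (j p)) (inr d)) ∧
        (∃ p, P.hd (j p) = P.hd d ∧ P.L (inr d) (inr (j p)))) ∧
      (∀ d, (∀ p, d ≠ j p) → (∀ p, P.hd (j p) ≠ P.hd d) ∨ (∀ p, P.tl (j p) ≠ P.tl d)) := by
  classical
  obtain ⟨l, _, hl2, hl3⟩ := exists_sorted (Finset.univ : Finset V)
    (fun v => (toLex (D.y v, D.x v) : ℝ ×ₗ ℝ)) (by
      intro a _ b _ h
      have h' := toLex.injective h
      exact D.inj a b (Prod.mk.inj h').2 (Prod.mk.inj h').1)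
  have hkl : l.Pairwise (Kl D) := by
    refine hl3.imp ?_
    intro a b h
    rw [Prod.Lex.toLex_lt_toLex] at h
    exact h
  have hall : ∀ v, v ∈ l := fun v => (hl2 v).2 (Finset.mem_univ v)
  have main : ∀ rest dn : List V, dn ++ rest = l →
      (∃ S W hd lo ro, Sw1 D (fun u => u ∈ dn) S W hd lo ro ∧ ∀ b n, inr (Dm.src b n) ∉ W) →
      ∃ S W hd lo ro, Sw1 D (fun _ => True) S W hd lo ro := by
    intro rest
    induction rest with
    | nil =>
      rintro dn h ⟨S, W, hd, lo, ro, H, _⟩
      rw [List.append_nil] at h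
      have h1 : (fun u => u ∈ dn) = fun _ => True := by
        funext u
        rw [h]
        exact propext ⟨fun _ => trivial, fun _ => hall u⟩
      rw [h1] at H
      exact ⟨S, W, hd, lo, ro, H⟩
    | cons v rest ih =>
      rintro dn h ⟨S, W, hd, lo, ro, H, ns⟩
      have hk := hkl
      rw [← h, List.pairwise_append, List.pairwise_cons] at hk
      have hcur : Cur D (fun u => u ∈ dn) v := by
        refine ⟨fun hv => ?_, fun u hu => hk.2.2 u hu v (by simp), ?_⟩
        · rcases hk.2.2 v hv v (by simp) with h1 | h1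
          · exact lt_irrefl _ h1
          · exact lt_irrefl _ h1.2
        · intro w hw hne
          have h1 := hall w
          rw [← h, List.mem_append, List.mem_cons] at h1
          rcases h1 with h1 | h1 | h1
          · exact absurd h1 hw
          · exact absurd h1 hne
          · exact hk.2.1.1 w h1
      obtain ⟨S', W', hd', lo', ro', H', ns'⟩ := sw1_main H ns hcur
      refine ih (dn ++ [v]) (by simp [h]) ⟨S', W', hd', lo', ro', ?_, ns'⟩
      have h1 : (fun u => u ∈ dn ++ [v]) = fun u => u ∈ dn ∨ u = v := by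
        funext u
        simp
      rw [h1]
      exact H'
  obtain ⟨S, W, hd, lo, ro, H⟩ := main l [] rfl (by
    obtain ⟨S, W, hd, lo, ro, H, ns⟩ := sw1_init D
    refine ⟨S, W, hd, lo, ro, ?_, ns⟩
    have h1 : (fun u : V => u ∈ ([] : List V)) = fun _ => False := by
      funext u
      simp
    rw [h1]
    exact H)
  have hS : ∀ v : Option V, inl v ∈ S := by
    rintro (_ | v)
    · exact H.s0
    · exact (H.sv v).2 trivial
  obtain ⟨P, hP1, hP2, hP3, hP4⟩ := inv_pl2 H.inv hS
  have hfin : Finite {e : E1 V // inr e ∈ S} :=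
    (H.inv.fin.preimage (Set.injOn_of_injective Sum.inr_injective)).to_subtype
  -- no real edge is live at the end
  have hreal : ∀ e : V × V, (inl e : E1 V) ∉ W := fun e h => ((H.lv e).1 h).2.2 trivial
  have hA : ∀ e : V × V, inr (inl e) ∈ S → A e.1 e.2 := fun e h => ((H.se e).1 h).1
  -- the real edges
  let j : {p : V × V // A p.1 p.2} → {e : E1 V // inr e ∈ S} := fun p =>
    ⟨inl p.1, (H.se p.1).2 ⟨p.2, trivial⟩⟩
  have jt : ∀ p, P.tl (j p) = some (some p.1.1) := fun p => hP1 _
  have jh : ∀ p, P.hd (j p) = some (some p.1.2) := fun p => by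
    rw [hP2 _ (hreal _), H.hr]
  -- the dummies
  have dum : ∀ d : {e : E1 V // inr e ∈ S}, (∀ p, d ≠ j p) → ∃ m : Dm V, d.1 = inr m := by
    rintro ⟨e | m, he⟩ h
    · exact absurd rfl (h ⟨e, hA e he⟩)
    · exact ⟨m, rfl⟩
  have hgl : (inr Dm.gl : E1 V) ∈ W := by
    have h := H.gl
    exact List.mem_of_mem_head? h
  refine ⟨{e : E1 V // inr e ∈ S}, Fintype.ofFinite _, P, j, fun p => ⟨jt p, jh p⟩,
    ⟨?_, ?_, ?_, ?_⟩, ?_, ?_, ?_⟩
  · -- src
    intro e he
    by_cases h : e.1 ∈ W
    · rw [hP3 e h] at he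
      cases he
    · rw [hP2 e h, Option.some.injEq] at he
      exact H.hn e.1 e.2 h he
  · -- snk
    intro e he
    rw [hP1] at he
    cases he
  · -- inn
    rintro (_ | _ | v) hv
    · exact ⟨⟨inr Dm.gl, H.inv.lvS _ hgl⟩, hP3 _ hgl⟩
    · exact absurd rfl hv
    · obtain ⟨e, h1, h2, h3⟩ := H.inn v trivial
      refine ⟨⟨e, h1⟩, ?_⟩
      rw [hP2 _ h2, h3]
  · -- out
    rintro (_ | w) hv
    · exact absurd rfl hv
    · obtain ⟨e, h1, h2⟩ := H.out w (hS w)
      refine ⟨⟨e, h1⟩, ?_⟩
      rw [hP1, h2]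
  · -- D1
    intro d hd1 hd2
    obtain ⟨m, hm⟩ := dum d hd1
    obtain ⟨p, hp⟩ := hd2
    rw [jt, hP1, hm, Option.some.injEq] at hp
    cases m with
    | gl => cases hp
    | gr => cases hp
    | snk v =>
      have h1 : some p.1.1 = some v := hp
      rw [Option.some.injEq] at h1
      have h2 : inr (inr (Dm.snk v)) ∈ S := by
        rw [← hm]
        exact d.2
      exact (H.sk v h2 p.1.2 (h1 ▸ p.2)).elim
    | src b n =>
      have h1 : some p.1.1 = b := hp
      have h2 : inr (inr (Dm.src b n)) ∈ S := by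
        rw [← hm]
        exact d.2
      rcases H.d1 b n h2 with h3 | ⟨o, o', h3, h4, h5, h6, h7, h8⟩
      · rw [h3] at h1
        cases h1
      · have ht : P.tl d = some b := by
          rw [hP1, hm]
          rfl
        refine ⟨⟨⟨o, hA o h5⟩, ?_, ?_⟩, ⟨⟨o', hA o' h6⟩, ?_, ?_⟩⟩
        · rw [jt, ht, h3]
        · refine hP4 _ _ ?_
          rw [hm]
          exact h7
        · rw [jt, ht, h4]
        · refine hP4 _ _ ?_
          rw [hm]
          exact h8
  · -- D2
    intro d hd1 hd2
    obtain ⟨m, hm⟩ := dum d hd1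
    obtain ⟨p, hp⟩ := hd2
    have h2 : inr (inr m) ∈ S := by
      rw [← hm]
      exact d.2
    by_cases h : d.1 ∈ W
    · rw [jh, hP3 d h] at hp
      cases hp
    · have hh : P.hd d = some (hd (inr m)) := by
        rw [hP2 d h, hm]
      rw [jh, hh, Option.some.injEq] at hp
      obtain ⟨o, o', h3, h4, h5, h6, h7, h8⟩ := H.d2 m h2 (by rw [← hm]; exact h) p.1 p.2 hp.symm
      refine ⟨⟨⟨o, hA o h5⟩, ?_, ?_⟩, ⟨⟨o', hA o' h6⟩, ?_, ?_⟩⟩
      · rw [jh, hh, ← hp, h3]
      · refine hP4 _ _ ?_
        rw [hm]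
        exact h7
      · rw [jh, hh, ← hp, h4]
      · refine hP4 _ _ ?_
        rw [hm]
        exact h8
  · -- D3
    intro d hd1
    obtain ⟨m, hm⟩ := dum d hd1
    have h2 : inr (inr m) ∈ S := by
      rw [← hm]
      exact d.2
    have ht : P.tl d = some (tl1 (inr m)) := by
      rw [hP1, hm]
    cases m with
    | gl =>
      refine Or.inr fun p hp => ?_
      rw [jt, ht, Option.some.injEq] at hp
      cases hp
    | gr =>
      refine Or.inr fun p hp => ?_
      rw [jt, ht, Option.some.injEq] at hp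
      cases hp
    | snk v =>
      refine Or.inr fun p hp => ?_
      rw [jt, ht, Option.some.injEq] at hp
      have h1 : some p.1.1 = some v := hp
      rw [Option.some.injEq] at h1
      exact H.sk v h2 p.1.2 (h1 ▸ p.2)
    | src b n =>
      refine Or.inl fun p hp => ?_
      by_cases h : d.1 ∈ W
      · rw [jh, hP3 d h] at hp
        cases hp
      · rw [jh, hP2 d h, hm, Option.some.injEq] at hp
        exact H.sc b n h2 (by rw [← hm]; exact h) p.1.2 hp.symm p.1.1 p.2

end Pool.Agent.W_a4f561_h25
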