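import Pool.Agent.W_a4f561_h25.Ord
import Pool.Agent.W_a4f561_h73.A4Cnv

/-!
MP_a4f561_co: interfaces of parts B (drawing to `Pl`) and C (pages).  Do not import; copy the statements.
-/

set_option autoImplicit false

namespace Pool.Agent.W_a4f561_h25

open Pool.Agent.W_a4f561_h73

/-- A set of pairwise crossing edges for the order `σ`. -/
def IsTwist {V E : Type} (tl hd : E → V) (σ : V → V → Prop) (F : Finset E) : Prop :=
  ∀ e ∈ F, ∀ e' ∈ F, e ≠ e' →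
    (σ (tl e) (tl e') ∧ σ (tl e') (hd e) ∧ σ (hd e) (hd e')) ∨
    (σ (tl e') (tl e) ∧ σ (tl e) (hd e') ∧ σ (hd e') (hd e))

/-- Part A (core). -/
def GoalA : Prop := ∀ (V E : Type) [Fintype V] [Fintype E] (A : Pl V E) (l : ℕ), 0 < l →
  ∃ σ : V → V → Prop, (∀ x, ¬ σ x x) ∧ (∀ x y z, σ x y → σ y z → σ x z) ∧
    (∀ x y, x ≠ y → σ x y ∨ σ y x) ∧ (∀ e, σ (A.tl e) (A.hd e)) ∧
    ∀ F : Finset E, IsTwist A.tl A.hd σ F → F.card ≤ 11 * (Fintype.card V / l) + 8 + 4 * l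

/-- Part B. -/
def GoalB : Prop := ∀ (V : Type) [Fintype V] (A : V → V → Prop) (_ : Drw V A),
  ∃ (V2 E : Type) (_ : Fintype V2) (_ : Fintype E) (P : Pl V2 E) (i : V → V2)
    (j : {p : V × V // A p.1 p.2} → E), Function.Injective i ∧
    (∀ p, P.tl (j p) = i p.1.1 ∧ P.hd (j p) = i p.1.2) ∧
    Fintype.card V2 ≤ Fintype.card V + 2

/-- Part C. -/
def GoalC : Prop := ∀ (n : ℕ) (A : Fin n → Fin n → Prop) (σ : Fin n ≃ Fin n) (K : ℕ),
  (∀ u v, A u v → σ u < σ v) → 0 < K →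
  (∀ F : Finset (Fin n × Fin n), (∀ e ∈ F, A e.1 e.2) →
    IsTwist Prod.fst Prod.snd (fun x y => σ x < σ y) F → F.card ≤ K) →
  ∃ p : Fin n → Fin n → Fin ((Nat.log 2 n + 1) * K),
    ∀ a b c d, A a b → A c d → p a b = p c d → ¬ (σ a < σ c ∧ σ c < σ b ∧ σ b < σ d)

end Pool.Agent.W_a4f561_h25
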