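import Pool.Agent.W_a4f561_h25.PinA

/-!
MP_a4f561_co, proofs row 554, section 3: pinching, (W3).
-/

set_option autoImplicit false

namespace Pool.Agent.W_a4f561_h25

open Sum Y

variable {V E : Type} {A : Pl V E} {D : E → Prop}

/-- (W3) for the new D-edge `f` (all in terms of the old `D`, see the proof in section 3): let `w` be a
vertex of the wall `c` with `u_f <_D w`.  Then `m_f <_D' w`.  Proof: suppose not `m_f <_D w`.  Not
`w <_D m_f` (predecessors: `lt_m`, `bot f = u_f` by (c1)).  `m_f` left of `w` would give `1 ≤ 0` by (w1).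
So `w` is left of `m_f`, and of `f⁻`.  `h⁻ ≤_D w` for an out-edge `h` of `u_f`; `h = f` impossible; `h`
right of `f`: `f⁻ <lo h⁻ ≤lo w`, contradiction; so `h` is left of `f` and `m_f <_D' h⁻ ≤_D' w`. -/
theorem pin_w3_new [Finite V] [Finite E] {q : ℕ} {s : Fin q → Y V E → ℤ} (h : Sta A D q s) {f : E}
    (hp : Pin A D q s f) {c : Fin q} (hc : s c (v (A.tl f)) = 0) {w : V} (hw : s c (v w) = 0)
    (hlt : Lt A D (v (A.tl f)) (v w)) : Lt A (fun e => D e ∨ e = f) (m f) (v w) := by
  have hnb : bot A D f = v (A.tl f) := by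
    rcases bot_cases A D f with ⟨_, h1⟩ | ⟨g, h1, _, _⟩
    · exact h1
    · exact absurd h1 (hp.c1 g)
  have hne : (m f : Y V E) ≠ v w := by simp
  rcases cmp (A := A) (D := D) hne with h1 | h1 | h1 | h1
  · exact lt_mono (fun _ hg => Or.inl hg) h1
  · exfalso
    rcases lt_m hp.c0 h1 with h2 | h2 | h2
    · simp at h2
    · rw [hnb] at h2
      rw [h2] at hlt
      exact lt_irr _ hlt
    · rw [hnb] at h2
      exact lt_as hlt h2
  · exfalso
    have h2 := (h.w1 c _ _ h1).1
    rw [hp.c5 c hc, hw] at h2
    omega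
  · have h2 : Lf A D (v w) (a f) := left_mf h1
    obtain ⟨z, hz, hzw⟩ := (Relation.TransGen.head'_iff).1 hlt
    obtain ⟨e, he, rfl⟩ : ∃ e, A.tl e = A.tl f ∧ z = a e := by
      generalize hx : (v (A.tl f) : Y V E) = x at hz
      cases hz with
      | tl e =>
        refine ⟨e, ?_, rfl⟩
        simpa using hx.symm
      | am e => simp at hx
      | mb e => simp at hx
      | hd e => simp at hx
      | p f' g h1 h2 h3 => simp at hx
      | q f' g h1 h2 h3 => simp at hx
    have h3 : Lt A D (a e) (v w) := by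
      rcases (Relation.reflTransGen_iff_eq_or_transGen).1 hzw with h4 | h4
      · simp at h4
      · exact h4
    rcases tl_tri (A := A) he with h4 | h4 | h4
    · subst h4
      exact absurd h3 h2.2.2
    · exact Relation.TransGen.head (St.q f e (Or.inr rfl) he h4)
        (lt_mono (fun _ hg => Or.inl hg) h3)
    · exfalso
      have h5 : ¬ Lt A D (a e) (a f) := by
        intro h5
        rcases lt_a h5 with h6 | h6
        · rw [hnb] at h6
          simp at h6
        · rw [hnb, ← he] at h6
          exact lt_as h6 (Relation.TransGen.single (St.tl e))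
      have h6 : Lo A D (a f) (a e) := Or.inr ⟨Or.inl h4.2, h5⟩
      exact lo_as (lo_tr h6 (lt_lo h3)) h2.lo

end Pool.Agent.W_a4f561_h25
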