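import Pool.Agent.W_a4f561_h25.PinB
import Pool.Agent.W_a4f561_h25.PinC

/-!
MP_a4f561_co, proofs row 554, section 3: pinching.
-/

set_option autoImplicit false

namespace Pool.Agent.W_a4f561_h25

open Sum Y

variable {V E : Type} {A : Pl V E} {D : E → Prop}

/-- Two vertices of the same wall: their order for a larger `D'` is their order for `D`. -/
theorem Pin_lt_old {D' : E → Prop} (hD : ∀ f, D f → D' f) {q : ℕ} {s : Fin q → Y V E → ℤ}
    (h : Sta A D q s) {c : Fin q} {x y : Y V E} (hx : s c x = 0) (hy : s c y = 0)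
    (hxy : Lt A D' x y) : Lt A D x y := by
  have hne : x ≠ y := by
    rintro rfl
    exact lt_irr _ hxy
  rcases h.chain hx hy hne with h1 | h1
  · exact h1
  · exact absurd (lt_mono hD h1) (lt_as hxy)

theorem Pin_zero {q : ℕ} {s : Fin q → Y V E → ℤ} {f : E} {c : Fin q} {x : Y V E}
    (h : s c x = 0) : npin A s f c x = 0 := by
  unfold npin
  split_ifs
  · rfl
  · exact h

theorem Pin_a {q : ℕ} {s : Fin q → Y V E → ℤ} {f : E} {c : Fin q}
    (h : s c (v (A.tl f)) = 0) : npin A s f c (a f) = 0 := by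
  unfold npin
  rw [if_pos]
  exact Or.inl ⟨h, Or.inl rfl⟩

theorem Pin_b {q : ℕ} {s : Fin q → Y V E → ℤ} {f : E} {c : Fin q}
    (h : s c (v (A.hd f)) = 0) : npin A s f c (b f) = 0 := by
  unfold npin
  rw [if_pos]
  exact Or.inr ⟨h, Or.inr rfl⟩

theorem Pin_other {q : ℕ} {s : Fin q → Y V E → ℤ} {f : E} {c : Fin q} {x : Y V E}
    (h : x ≠ a f ∧ x ≠ m f ∧ x ≠ b f) : npin A s f c x = s c x := by
  unfold npin
  rw [if_neg]
  rintro (⟨-, h1 | h1⟩ | ⟨-, h1 | h1⟩)
  · exact h.1 h1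
  · exact h.2.1 h1
  · exact h.2.1 h1
  · exact h.2.2 h1

/-- Pinching `f` gives a new state. -/
theorem pinch [Finite V] [Finite E] {q : ℕ} {s : Fin q → Y V E → ℤ} (h : Sta A D q s) {f : E}
    (hp : Pin A D q s f) : Sta A (fun e => D e ∨ e = f) q (npin A s f) where
  rg := fun c x => by
    unfold npin
    split_ifs
    · exact Or.inr (Or.inl rfl)
    · exact h.rg c x
  w1 := fun c x y hxy => pin_w1 h hp hxy
  w2 := fun c e he => by
    have h1 : ¬ D e := fun h2 => he (Or.inl h2)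
    have h2 : e ≠ f := fun h2 => he (Or.inr h2)
    have h3 := h.w2 c e h1
    rw [Pin_other (x := a e) ⟨by simpa using h2, by simp, by simp⟩,
      Pin_other (x := m e) ⟨by simp, by simpa using h2, by simp⟩,
      Pin_other (x := b e) ⟨by simp, by simp, by simpa using h2⟩]
    exact h3
  w3 := by
    have hD : ∀ g, D g → (fun e => D e ∨ e = f) g := fun g hg => Or.inl hg
    rintro g (hg | rfl)
    · obtain ⟨c, h1, h2, h3⟩ := h.w3 g hg
      refine ⟨c, Pin_zero h1, Pin_zero h2, fun w hw hlt => ?_⟩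
      rw [npin_v] at hw
      exact lt_mono hD (h3 w hw (Pin_lt_old hD h h1 hw hlt))
    · obtain ⟨c, hc⟩ := hp.c4
      refine ⟨c, Pin_zero hc, Pin_a hc, fun w hw hlt => ?_⟩
      rw [npin_v] at hw
      exact pin_w3_new h hp hc hw (Pin_lt_old hD h hc hw hlt)
  w4 := by
    have hD : ∀ g, D g → (fun e => D e ∨ e = f) g := fun g hg => Or.inl hg
    rintro g (hg | rfl)
    · obtain ⟨c, h1, h2, h3⟩ := h.w4 g hg
      refine ⟨c, Pin_zero h1, Pin_zero h2, fun w hw hlt => ?_⟩
      rw [npin_v] at hw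
      exact lt_mono hD (h3 w hw (Pin_lt_old hD h hw h1 hlt))
    · obtain ⟨c, hc⟩ := hp.c4'
      refine ⟨c, Pin_zero hc, Pin_b hc, fun w hw hlt => ?_⟩
      rw [npin_v] at hw
      have h1 := pin_w3_new h.rot hp.rot (c := c) (neg_eq_zero.2 hc) (w := w)
        (neg_eq_zero.2 hw) ((lt_rot _ _).2 (Pin_lt_old hD h hw hc hlt))
      exact (lt_rot _ _).1 h1

end Pool.Agent.W_a4f561_h25
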