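import Pool.Agent.W_a4f561_h25.Wal
import Pool.Agent.W_a4f561_h25.Pin

/-!
MP_a4f561_co, proofs row 554, section 3: a state with maximal number of walls, then maximal `D`.
-/

set_option autoImplicit false

namespace Pool.Agent.W_a4f561_h25

open Sum Y

variable {V E : Type}

/-- A good state (for chain bound `l`). -/
structure Good (A : Pl V E) (l : ℕ) (D : E → Prop) (q : ℕ) (s : Fin q → Y V E → ℤ) : Prop where
  st : Sta A D q s
  i3 : ∀ e, ¬ D e → (∀ g, ¬ Pf A D e g) → (∀ g, ¬ Sf A D e g) → (∀ c, s c (m e) ≠ 0) →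
    Cov s (A.tl e) → Cov s (A.hd e) →
    (∃ c, s c (v (A.tl e)) = 0 ∧ s c (m e) = -1) ∨ (∃ c, s c (v (A.hd e)) = 0 ∧ s c (m e) = 1)
  i4 : ∀ S : Finset V, (∀ w ∈ S, ¬ Cov s w) →
    (∀ x ∈ S, ∀ y ∈ S, x ≠ y → Lt A D (v x) (v y) ∨ Lt A D (v y) (v x)) → S.card < l

/-- The empty state. -/
theorem sta_zero (A : Pl V E) (s : Fin 0 → Y V E → ℤ) : Sta A (fun _ => False) 0 s where
  rg := fun c => c.elim0
  w1 := fun c => c.elim0
  w2 := fun c => c.elim0
  w3 := fun _ h => h.elim
  w4 := fun _ h => h.elim

/-- A bounded property of natural numbers which holds somewhere has a largest instance. -/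
theorem Good_exists_max (P : ℕ → Prop) (N : ℕ) (h : ∃ n, P n) (hb : ∀ n, P n → n ≤ N) :
    ∃ n, P n ∧ ∀ k, P k → k ≤ n := by
  classical
  obtain ⟨n, hn⟩ := h
  refine ⟨Nat.findGreatest P N, Nat.findGreatest_spec (hb n hn) hn, fun k hk => ?_⟩
  exact Nat.le_findGreatest (hb k hk) hk

/-- Existence of a good state.  Among all states `(D, q, s)` with at least `q * l` covered vertices (so
`q * l ≤ card V`) take one with `q` maximal (bounded, as `l > 0`) and then with the number of elements of
`D` maximal.  (i4): otherwise `add_wall` gives a state with `q + 1` walls and at least `(q + 1) * l`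
covered vertices.  (i3): otherwise `pinch` applies (`npin_v`: the same covered vertices). -/
theorem exists_good [Fintype V] [Fintype E] (A : Pl V E) (l : ℕ) (hl : 0 < l) :
    ∃ (D : E → Prop) (q : ℕ) (s : Fin q → Y V E → ℤ), Good A l D q s ∧ q * l ≤ Fintype.card V := by
  classical
  obtain ⟨q, ⟨D0, s0, h0, h0c⟩, hqmax⟩ := Good_exists_max
    (fun q => ∃ (D : E → Prop) (s : Fin q → Y V E → ℤ), Sta A D q s ∧
      q * l ≤ (Finset.univ.filter (fun w => Cov s w)).card) (Fintype.card V)
    ⟨0, fun _ => False, Fin.elim0, sta_zero A _, by simp⟩ (by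
      rintro q ⟨D, s, -, h⟩
      have h1 : (Finset.univ.filter (fun w => Cov s w)).card ≤ Fintype.card V :=
        Finset.card_le_univ _
      have h2 : q * 1 ≤ q * l := Nat.mul_le_mul_left q hl
      omega)
  obtain ⟨n, ⟨D, s, hs, hc, hn⟩, hnmax⟩ := Good_exists_max
    (fun n => ∃ (D : E → Prop) (s : Fin q → Y V E → ℤ), Sta A D q s ∧
      q * l ≤ (Finset.univ.filter (fun w => Cov s w)).card ∧
      (Finset.univ.filter (fun e => D e)).card = n) (Fintype.card E)
    ⟨_, D0, s0, h0, h0c, rfl⟩ (by
      rintro n ⟨D, s, -, -, h⟩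
      rw [← h]
      exact Finset.card_le_univ _)
  refine ⟨D, q, s, ⟨hs, ?_, ?_⟩, hc.trans (Finset.card_le_univ _)⟩
  · intro e he hp hf hm ht hh
    by_contra hcon
    push Not at hcon
    have hpin : Pin A D q s e := by
      refine ⟨he, hp, hf, ht, hh, ?_, ?_⟩
      · intro c hc0
        rcases hs.rg c (m e) with h1 | h1 | h1
        · exact absurd h1 (hcon.1 c hc0)
        · exact absurd h1 (hm c)
        · exact h1
      · intro c hc0
        rcases hs.rg c (m e) with h1 | h1 | h1
        · exact h1
        · exact absurd h1 (hm c)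
        · exact absurd h1 (hcon.2 c hc0)
    have h2 := pinch hs hpin
    have hcov : ∀ w, Cov (npin A s e) w ↔ Cov s w := by
      intro w
      unfold Cov
      simp only [npin_v]
    have h3 := hnmax (n + 1) ⟨fun e' => D e' ∨ e' = e, npin A s e, h2, by
      simpa only [hcov] using hc, by
      have h5 : (insert e (Finset.univ.filter (fun e' => D e'))).card = n + 1 := by
        rw [Finset.card_insert_of_notMem (by simpa using he), hn]
      refine Eq.trans ?_ h5
      congr 1
      ext x
      simp only [Finset.mem_filter, Finset.mem_univ, true_and, Finset.mem_insert]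
      tauto⟩
    omega
  · intro S hS hch
    by_contra hcon
    push Not at hcon
    obtain ⟨s1, h1, h2⟩ := add_wall hs (S : Set V) (by
      intro x hx y hy hxy
      exact hch x (by exact_mod_cast hx) y (by exact_mod_cast hy) hxy)
    have h3 := hqmax (q + 1) ⟨D, _, h1, ?_⟩
    · omega
    have hsub : (Finset.univ.filter (fun w => Cov s w)) ∪ S ⊆
        Finset.univ.filter (fun w => Cov (Fin.cons s1 s : Fin (q + 1) → Y V E → ℤ) w) := by
      intro w hw
      rw [Finset.mem_filter]
      refine ⟨Finset.mem_univ _, ?_⟩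
      rcases Finset.mem_union.1 hw with h4 | h4
      · obtain ⟨c, hc4⟩ := (Finset.mem_filter.1 h4).2
        exact ⟨c.succ, by simpa using hc4⟩
      · exact ⟨0, by simpa using h2 w (by exact_mod_cast h4)⟩
    have hdis : Disjoint (Finset.univ.filter (fun w => Cov s w)) S := by
      rw [Finset.disjoint_left]
      intro w hw hwS
      exact hS w hwS (Finset.mem_filter.1 hw).2
    have h5 := Finset.card_le_card hsub
    rw [Finset.card_union_of_disjoint hdis] at h5
    rw [Nat.succ_mul]
    omega

end Pool.Agent.W_a4f561_h25
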