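import Pool.Agent.W_a4f561_h25.Top

/-!
MP_a4f561_co, proofs row 554, section 2: Lemma S.
-/

set_option autoImplicit false

namespace Pool.Agent.W_a4f561_h25

open Sum Y

variable {V E : Type} {A : Pl V E} {D : E → Prop}

/-- A predecessor of `top f` at a strictly `ro`-smaller place than `b f`. -/
theorem LemS_pred [Finite V] [Finite E] {f : E} (hf : D f) {p : Y V E}
    (h : St A D p (top A D f)) : p = b f ∨ Lo A D p (b f) := by
  -- predecessors of the form `b g`, with `g` having the same head as `f`
  have key : ∀ g : E, p = b g → A.hd g = A.hd f → p = b f ∨ Lo A D p (b f) := by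
    intro g hg hh
    rcases hd_tri (A := A) (f := f) (g := g) hh with h1 | h1 | h1
    · exact Or.inl (by rw [hg, h1])
    · right
      refine Or.inr ⟨Or.inl (by rw [hg]; exact h1.2), fun h2 => ?_⟩
      rcases b_lt h2 with h3 | h3
      · rw [h3] at h
        exact lt_irr _ (Relation.TransGen.single h)
      · exact lt_irr _ (h3.tail h)
    · right
      rw [hg]
      exact lt_lo ((Relation.TransGen.single (St.p f g hf hh h1)).tail (St.mb f))
  rcases top_cases A D f with ⟨_, h1⟩ | ⟨f', h1, _, h3⟩
  · rw [h1] at h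
    generalize hz : (v (A.hd f) : Y V E) = z at h
    cases h with
    | tl e => simp at hz
    | am e => simp at hz
    | mb e => simp at hz
    | hd e => exact key e rfl (by simpa using hz.symm)
    | p f1 g k1 k2 k3 => simp at hz
    | q f1 g k1 k2 k3 => simp at hz
  · have h' := h
    rw [h3] at h'
    generalize hz : (m f' : Y V E) = z at h'
    cases h' with
    | tl e => simp at hz
    | am e =>
      obtain rfl : f' = e := by simpa using hz
      right
      refine Or.inr ⟨Or.inl h1.2.2.2, fun h2 => ?_⟩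
      rcases b_lt h2 with h4 | h4
      · rw [h4] at h
        exact lt_irr _ (Relation.TransGen.single h)
      · exact lt_irr _ (h4.tail h)
    | mb e => simp at hz
    | hd e => simp at hz
    | p f1 g k1 k2 k3 =>
      obtain rfl : f' = f1 := by simpa using hz
      exact key g rfl (k2.trans h1.2.1)
    | q f1 g k1 k2 k3 => simp at hz

/-- If `f` is in `D`, then `f⁺` is the `lo`-last predecessor of `top f`. -/
theorem pred_top [Finite V] [Finite E] {f : E} (hf : D f) {y : Y V E} (h : Lt A D y (top A D f)) :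
    y = b f ∨ Lo A D y (b f) := by
  rcases (Relation.TransGen.tail'_iff.1 h) with ⟨p, h1, h2⟩
  rcases Relation.reflTransGen_iff_eq_or_transGen.1 h1 with h3 | h3
  · rw [← h3]
    exact LemS_pred hf h2
  · rcases LemS_pred hf h2 with h4 | h4
    · rw [← h4]
      exact Or.inr (lt_lo h3)
    · exact Or.inr (lo_tr (lt_lo h3) h4)

/-- Lemma S, one step of the chain. -/
theorem LemS_step [Finite V] [Finite E] {y : Y V E} {f : E} (hf : D f)
    (hne : y ≠ top A D f) (h : Lf A D (m f) y) : Lo A D (top A D f) y := by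
  have h1 : Ro A y (m f) := h.1
  have h2 : Ro A (m f) (b f) := Or.inr ⟨rfl, by simp⟩
  have h3 : y ≠ b f := by
    intro h4
    rw [h4] at h1
    exact ro_as h1 h2
  have h4 : Lo A D (b f) y := by
    rcases lo_tot (A := A) (D := D) h3 with h5 | h5
    · exfalso
      rcases lt_b (lo_ro_lt h5 (ro_tr h1 h2)) with h6 | h6
      · rw [h6] at h1
        exact ro_irr _ h1
      · exact h.2.2 h6
    · exact h5
  rcases lo_tot (A := A) (D := D) hne with h5 | h5
  · exfalso
    rcases pred_top hf (lo_ro_lt h5 (ro_tr h1 (lt_ro (m_lt_top A D f)))) with h6 | h6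
    · exact h3 h6
    · exact lo_as h4 h6
  · exact h5

/-- Lemma S, first part of the chain: a D-edge `f`, and `y` right of `m f`. -/
theorem chain_S [Finite V] [Finite E] {y : Y V E} (hy : ∀ f, D f → y ≠ m f) :
    ∀ f, D f → y ≠ v (A.hd f) → Lf A D (m f) y → Lo A D (v (A.hd f)) y := by
  have wf : WellFounded (fun f g : E => A.ro (inr g) (inr f)) := by
    have : IsTrans E (fun f g : E => A.ro (inr g) (inr f)) :=
      ⟨fun _ _ _ h1 h2 => A.ro_tr _ _ _ h2 h1⟩
    have : Std.Irrefl (fun f g : E => A.ro (inr g) (inr f)) := ⟨fun _ => A.ro_irr _⟩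
    exact Finite.wellFounded_of_trans_of_irrefl _
  intro f
  induction f using wf.induction with
  | _ f ih =>
    intro hf hne h
    rcases top_cases A D f with ⟨_, h1⟩ | ⟨f', h1, _, h3⟩
    · have h4 := LemS_step hf (by rw [h1]; exact hne) h
      rwa [h1] at h4
    · have h4 := LemS_step hf (by rw [h3]; exact hy f' h1.1) h
      rw [h3] at h4
      have h5 : Lf A D (m f') y := lf_iff.2 ⟨h4, ro_tr h.1 (Or.inl h1.2.2.2)⟩
      have h6 := ih f' h1.2.2.2 h1.1 (by rw [h1.2.1]; exact hne) h5
      rwa [h1.2.1] at h6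

/-- Lemma S. -/
theorem lemS [Finite V] [Finite E] {e e' : E} (he' : ¬ D e') (hl : Lf A D (m e) (m e'))
    (ht : Lo A D (top A D e) (top A D e')) :
    Lo A D (top A D e) (m e') ∧ Lo A D (v (A.hd e)) (m e') := by
  have h1 : Ro A (m e') (m e) := hl.1
  have h2 : Lo A D (top A D e) (m e') := by
    rcases lo_tot (A := A) (D := D) (top_ne_m (A := A) (e := e) he') with h3 | h3
    · exact h3
    · exfalso
      have h4 : Lt A D (m e') (top A D e) := lo_ro_lt h3 (ro_tr h1 (lt_ro (m_lt_top A D e)))
      rcases m_lt he' h4 with h5 | h5 | h5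
      · rcases top_cases A D e with ⟨_, h6⟩ | ⟨f, _, _, h6⟩
        · rw [h6] at h5
          simp at h5
        · rw [h6] at h5
          simp at h5
      · rw [h5] at ht
        exact lo_irr _ ht
      · exact lo_as ht (lt_lo h5)
  refine ⟨h2, ?_⟩
  rcases top_cases A D e with ⟨_, h3⟩ | ⟨f, h3, _, h4⟩
  · rwa [h3] at h2
  · rw [h4] at h2
    have h5 : Lf A D (m f) (m e') := lf_iff.2 ⟨h2, ro_tr h1 (Or.inl h3.2.2.2)⟩
    have h6 := chain_S (A := A) (D := D) (y := m e') (fun g hg h => he' (by
      obtain rfl : e' = g := by simpa using h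
      exact hg)) f h3.1 (by simp) h5
    rwa [h3.2.1] at h6

/-- Lemma S, rotated. -/
theorem lemS' [Finite V] [Finite E] {e e' : E} (he : ¬ D e) (hl : Lf A D (m e) (m e'))
    (hb : Lo A D (bot A D e) (bot A D e')) :
    Lo A D (m e) (bot A D e') ∧ Lo A D (m e) (v (A.tl e')) := by
  have h := lemS (A := A.rot) (D := D) (e := e') (e' := e) he
    (by rw [lf_rot]; exact hl)
    (by rw [lo_rot, top_rot, top_rot, rot_rot, rot_rot]; exact hb)
  rw [lo_rot, lo_rot, top_rot, rot_rot] at h
  exact h

end Pool.Agent.W_a4f561_h25
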