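import Pool.Agent.W_a4f561_h25.Def

/-!
MP_a4f561_co, proofs row 554, Lemma 1: `P_D` is contained in `ro`, betweenness, `lo_D` is a linear order.
-/

set_option autoImplicit false

namespace Pool.Agent.W_a4f561_h25

open Sum Y

variable {V E : Type} {A : Pl V E} {D : E → Prop}

theorem ro_irr (x : Y V E) : ¬ Ro A x x := by
  rintro (h | ⟨_, h⟩)
  · exact A.ro_irr _ h
  · exact lt_irrefl _ h

theorem ro_tr {x y z : Y V E} (h1 : Ro A x y) (h2 : Ro A y z) : Ro A x z := by
  rcases h1 with h1 | ⟨h1, h1'⟩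
  · rcases h2 with h2 | ⟨h2, h2'⟩
    · exact Or.inl (A.ro_tr _ _ _ h1 h2)
    · exact Or.inl (h2 ▸ h1)
  · rcases h2 with h2 | ⟨h2, h2'⟩
    · exact Or.inl (h1 ▸ h2)
    · exact Or.inr ⟨h1.trans h2, h1'.trans h2'⟩

theorem ro_as {x y : Y V E} (h : Ro A x y) : ¬ Ro A y x := fun h' => ro_irr x (ro_tr h h')

theorem ro_tot {x y : Y V E} (h : x ≠ y) : Ro A x y ∨ Ro A y x := by
  by_cases h1 : x.pl = y.pl
  · rcases lt_trichotomy x.ix y.ix with h2 | h2 | h2
    · exact Or.inl (Or.inr ⟨h1, h2⟩)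
    · exact absurd (Y.ext' h1 h2) h
    · exact Or.inr (Or.inr ⟨h1.symm, h2⟩)
  · rcases A.ro_tot _ _ h1 with h2 | h2
    · exact Or.inl (Or.inl h2)
    · exact Or.inr (Or.inl h2)

theorem st_ro {x y : Y V E} (h : St A D x y) : Ro A x y := by
  cases h with
  | tl e => exact Or.inl (A.tl_ro e)
  | am e => exact Or.inr ⟨rfl, by simp⟩
  | mb e => exact Or.inr ⟨rfl, by simp⟩
  | hd e => exact Or.inl (A.hd_ro e)
  | p f g h1 h2 h3 => exact Or.inl h3.2
  | q f g h1 h2 h3 => exact Or.inl h3.2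

theorem lt_ro {x y : Y V E} (h : Lt A D x y) : Ro A x y := by
  induction h with
  | single h => exact st_ro h
  | tail _ h ih => exact ro_tr ih (st_ro h)

theorem lt_irr (x : Y V E) : ¬ Lt A D x x := fun h => ro_irr x (lt_ro h)

theorem lt_as {x y : Y V E} (h : Lt A D x y) : ¬ Lt A D y x := fun h' => lt_irr x (h.tr h')

/-- `a e ≤ x ≤ b e` for every point at the place of `e`. -/
theorem le_b {x : Y V E} {e : E} (h : x.pl = inr e) : x = b e ∨ Lt A D x (b e) := by
  cases x with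
  | v w => simp at h
  | a e' =>
    obtain rfl : e' = e := by simpa using h
    exact Or.inr ((Relation.TransGen.single (St.am e')).tail (St.mb e'))
  | m e' =>
    obtain rfl : e' = e := by simpa using h
    exact Or.inr (Relation.TransGen.single (St.mb e'))
  | b e' =>
    obtain rfl : e' = e := by simpa using h
    exact Or.inl rfl

theorem a_le {x : Y V E} {e : E} (h : x.pl = inr e) : x = a e ∨ Lt A D (a e) x := by
  have h1 := le_b (A := A.rot) (D := D) (x := x.rot) (e := e) (by rw [pl_rot, h])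
  rcases h1 with h1 | h1
  · exact Or.inl (rot_inj (by simpa using h1))
  · rw [lt_rot] at h1
    exact Or.inr (by simpa using h1)

/-- Reachability lifts to `P_D`. -/
theorem lift [Finite V] [Finite E] : ∀ (y x : Y V E), A.lo x.pl y.pl → A.ro x.pl y.pl →
    Lt A D x y := by
  have wf : WellFounded A.lo := by
    have : Finite (V ⊕ E) := inferInstance
    have : IsTrans (V ⊕ E) A.lo := ⟨A.lo_tr⟩
    have : Std.Irrefl A.lo := ⟨A.lo_irr⟩
    exact Finite.wellFounded_of_trans_of_irrefl A.lo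
  suffices H : ∀ (z : V ⊕ E) (y x : Y V E), y.pl = z → A.lo x.pl y.pl → A.ro x.pl y.pl →
      Lt A D x y from fun y x => H _ y x rfl
  intro z
  induction z using wf.induction with
  | _ z ih =>
    intro y x hz h1 h2
    subst hz
    -- the lift of a place below
    have edge : ∀ e, A.lo x.pl (inr e) → A.ro x.pl (inr e) → A.lo (inr e) y.pl ∨ inr e = y.pl →
        Lt A D x (a e) := by
      intro e k1 k2 k3
      have k4 : A.lo (inl (A.tl e)) y.pl := by
        rcases k3 with k3 | k3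
        · exact A.lo_tr _ _ _ (A.tl_lo e) k3
        · rw [← k3]
          exact A.tl_lo e
      rcases A.dn_e _ _ k1 k2 with h | ⟨h, h'⟩
      · have hx : x = v (A.tl e) := by
          cases x <;> simp_all
        rw [hx]
        exact Relation.TransGen.single (St.tl e)
      · exact (ih (inl (A.tl e)) k4 (v (A.tl e)) x rfl h h').tail (St.tl e)
    cases y with
    | v w =>
      obtain ⟨r, rfl, h | ⟨h, h'⟩⟩ := A.dn_v _ _ h1 h2
      · rcases le_b (A := A) (D := D) h with h3 | h3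
        · rw [h3]
          exact Relation.TransGen.single (St.hd r)
        · exact h3.tail (St.hd r)
      · have h3 := edge r h h' (Or.inl (A.hd_lo r))
        exact (((h3.tail (St.am r)).tail (St.mb r)).tail (St.hd r))
    | a e => exact edge e h1 h2 (Or.inr rfl)
    | m e => exact (edge e h1 h2 (Or.inr rfl)).tail (St.am e)
    | b e => exact ((edge e h1 h2 (Or.inr rfl)).tail (St.am e)).tail (St.mb e)

/-- Two edges with the same head. -/
theorem hd_tri {f g : E} (h : A.hd g = A.hd f) : g = f ∨ A.L (inr g) (inr f) ∨ A.L (inr f) (inr g) := by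
  by_cases hne : g = f
  · exact Or.inl hne
  have key : ∀ f g : E, A.hd g = A.hd f → A.lo (inr g) (inr f) → A.ro (inr g) (inr f) → False := by
    intro f g h h1 h2
    rcases A.up_e _ _ h1 h2 with h3 | ⟨h3, _⟩
    · exact absurd h3 (by simp)
    · rw [h] at h3
      exact A.lo_irr _ (A.lo_tr _ _ _ h3 (A.hd_lo f))
  have hne' : (inr g : V ⊕ E) ≠ inr f := fun h1 => hne (inr_injective h1)
  right
  rcases A.lo_tot _ _ hne' with h1 | h1 <;> rcases A.ro_tot _ _ hne' with h2 | h2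
  · exact (key f g h h1 h2).elim
  · exact Or.inl ⟨h1, h2⟩
  · exact Or.inr ⟨h1, h2⟩
  · exact (key g f h.symm h1 h2).elim

/-- Two edges with the same tail. -/
theorem tl_tri {f g : E} (h : A.tl g = A.tl f) : g = f ∨ A.L (inr g) (inr f) ∨ A.L (inr f) (inr g) := by
  rcases hd_tri (A := A.rot) (f := f) (g := g) h with h1 | ⟨h1, h2⟩ | ⟨h1, h2⟩
  · exact Or.inl h1
  · exact Or.inr (Or.inr ⟨h1, h2⟩)
  · exact Or.inr (Or.inl ⟨h1, h2⟩)

/-- Betweenness for the generator `u_e → e⁻`. -/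
theorem btw_tl [Finite V] [Finite E] (e : E) {y : Y V E} (h1 : Ro A (v (A.tl e)) y)
    (h2 : Ro A y (a e)) : Lt A D (v (A.tl e)) y := by
  have k2 : A.ro y.pl (inr e) := by
    rcases h2 with h2 | ⟨_, h2⟩
    · exact h2
    · simp at h2
  have k1 : A.ro (inl (A.tl e)) y.pl := by
    rcases h1 with h1 | ⟨h1, h1'⟩
    · exact h1
    · cases y <;> simp_all
  have hne : inl (A.tl e) ≠ y.pl := by
    intro h
    rw [← h] at k1
    exact A.ro_irr _ k1
  rcases A.lo_tot _ _ hne with h | h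
  · exact lift _ _ h k1
  · rcases A.dn_e _ _ (A.lo_tr _ _ _ h (A.tl_lo e)) k2 with h3 | ⟨_, h3⟩
    · exact absurd h3.symm hne
    · exact absurd (A.ro_tr _ _ _ k1 h3) (A.ro_irr _)

/-- Betweenness for the generator `g⁺ → m_f`. -/
theorem btw_p [Finite V] [Finite E] (f g : E) (hf : D f) (hh : A.hd g = A.hd f)
    (hL : A.L (inr f) (inr g)) {y : Y V E} (h1 : Ro A (b g) y) (h2 : Ro A y (m f)) :
    Lt A D y (m f) := by
  have hR : Lt A D (b g) (m f) := Relation.TransGen.single (St.p f g hf hh hL)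
  have hf1 : ∀ y : Y V E, A.lo y.pl (inr f) → A.ro y.pl (inr f) → Lt A D y (m f) := fun y h1 h2 =>
    lift (A := A) (m f) y h1 h2
  -- the place of `y`
  rcases h2 with k2 | ⟨k2, k2'⟩
  swap
  · cases y with
    | v w => simp at k2
    | a e =>
      obtain rfl : e = f := by simpa using k2
      exact Relation.TransGen.single (St.am e)
    | m e => simp at k2'
    | b e => simp at k2'
  have k2 : A.ro y.pl (inr f) := k2
  have k1 : A.ro (inr g) y.pl := by
    rcases h1 with h1 | ⟨h1, h1'⟩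
    · exact h1
    · exfalso
      cases y <;> simp_all
  have hne : y.pl ≠ inl (A.hd f) := by
    intro h
    rw [h] at k2
    exact A.ro_irr _ (A.ro_tr _ _ _ k2 (A.hd_ro f))
  have k3 : A.lo y.pl (inl (A.hd f)) := by
    rcases A.lo_tot _ _ hne with h | h
    · exact h
    · exfalso
      have h3 : A.lo (inr g) y.pl := A.lo_tr _ _ _ (A.hd_lo g) (by rw [hh]; exact h)
      rcases A.up_e _ _ h3 k1 with h4 | ⟨_, h4⟩
      · rw [hh] at h4
        exact hne h4
      · rw [hh] at h4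
        exact A.ro_irr _ (A.ro_tr _ _ _ (A.ro_tr _ _ _ h4 k2) (A.hd_ro f))
  obtain ⟨r, hr, h4⟩ := A.dn_v _ _ k3 (A.ro_tr _ _ _ k2 (A.hd_ro f))
  rcases hd_tri (A := A) (f := f) (g := r) hr with h5 | h5 | h5
  · subst h5
    rcases h4 with h4 | ⟨h4, h4'⟩
    · rw [h4] at k2
      exact absurd k2 (A.ro_irr _)
    · exact hf1 y h4 h4'
  · rcases h4 with h4 | ⟨h4, h4'⟩
    · rw [h4] at k2
      exact absurd (A.ro_tr _ _ _ k2 h5.2) (A.ro_irr _)
    · exact hf1 y (A.lo_tr _ _ _ h4 h5.1) k2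
  · have h6 : Lt A D (b r) (m f) := Relation.TransGen.single (St.p f r hf hr h5)
    rcases h4 with h4 | ⟨h4, h4'⟩
    · rcases le_b (A := A) (D := D) h4 with h7 | h7
      · rw [h7]
        exact h6
      · exact h7.tr h6
    · exact (lift (A := A) (D := D) (b r) y h4 h4').tr h6

/-- Betweenness for a generator. -/
theorem btw_st [Finite V] [Finite E] {x z y : Y V E} (h : St A D x z) (h1 : Ro A x y)
    (h2 : Ro A y z) : Lt A D x y ∨ Lt A D y z := by
  have hcon : ∀ e, Ro A (a e) y → Ro A y (m e) → False := by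
    intro e h3 h4
    rcases h3 with h3 | ⟨h3, h3'⟩
    · rcases h4 with h4 | ⟨h4, h4'⟩
      · exact A.ro_irr _ (A.ro_tr _ _ _ h3 h4)
      · rw [h4] at h3
        exact A.ro_irr _ h3
    · rcases h4 with h4 | ⟨h4, h4'⟩
      · rw [← h3] at h4
        exact A.ro_irr _ h4
      · simp at h3' h4'
        omega
  have hcon' : ∀ e, Ro A (m e) y → Ro A y (b e) → False := by
    intro e h3 h4
    rcases h3 with h3 | ⟨h3, h3'⟩
    · rcases h4 with h4 | ⟨h4, h4'⟩
      · exact A.ro_irr _ (A.ro_tr _ _ _ h3 h4)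
      · rw [h4] at h3
        exact A.ro_irr _ h3
    · rcases h4 with h4 | ⟨h4, h4'⟩
      · rw [← h3] at h4
        exact A.ro_irr _ h4
      · simp at h3' h4'
        omega
  cases h with
  | tl e => exact Or.inl (btw_tl e h1 h2)
  | am e => exact (hcon e h1 h2).elim
  | mb e => exact (hcon' e h1 h2).elim
  | hd e =>
    right
    have h3 := btw_tl (A := A.rot) (D := D) e (y := y.rot)
      (by rw [ro_rot, rot_rot]; exact h2) (by rw [ro_rot, rot_rot]; exact h1)
    rw [lt_rot, rot_rot] at h3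
    exact h3
  | p f g k1 k2 k3 => exact Or.inr (btw_p f g k1 k2 k3 h1 h2)
  | q f g k1 k2 k3 =>
    left
    have h3 := btw_p (A := A.rot) (D := D) f g k1 k2 ⟨k3.1, k3.2⟩ (y := y.rot)
      (by rw [ro_rot]; simpa using h2) (by rw [ro_rot]; simpa using h1)
    rw [lt_rot] at h3
    simpa using h3

/-- Betweenness. -/
theorem btw [Finite V] [Finite E] {x z y : Y V E} (h : Lt A D x z) (h1 : Ro A x y)
    (h2 : Ro A y z) : Lt A D x y ∨ Lt A D y z := by
  induction h with
  | single h => exact btw_st h h1 h2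
  | @tail c d h h' ih =>
    by_cases hc : y = c
    · rw [hc]
      exact Or.inl h
    rcases ro_tot (A := A) hc with h3 | h3
    · rcases ih h3 with h4 | h4
      · exact Or.inl h4
      · exact Or.inr (h4.tail h')
    · rcases btw_st h' h3 h2 with h4 | h4
      · exact Or.inl (Relation.TransGen.trans h h4)
      · exact Or.inr h4

theorem lo_irr (x : Y V E) : ¬ Lo A D x x := by
  rintro (⟨h, _⟩ | ⟨h, _⟩) <;> exact ro_irr x h

theorem lo_as {x y : Y V E} (h : Lo A D x y) : ¬ Lo A D y x := by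
  rintro (⟨h1, h2⟩ | ⟨h1, h2⟩) <;> rcases h with ⟨h3, h4⟩ | ⟨h3, h4⟩
  · exact ro_as h1 h3
  · exact h4 h2
  · exact h2 h4
  · exact ro_as h1 h3

theorem lo_tot {x y : Y V E} (h : x ≠ y) : Lo A D x y ∨ Lo A D y x := by
  unfold Lo
  rcases ro_tot (A := A) h with h1 | h1
  · by_cases h2 : Lt A D x y
    · exact Or.inl (Or.inl ⟨h1, h2⟩)
    · exact Or.inr (Or.inr ⟨h1, h2⟩)
  · by_cases h2 : Lt A D y x
    · exact Or.inr (Or.inl ⟨h1, h2⟩)
    · exact Or.inl (Or.inr ⟨h1, h2⟩)

theorem lo_tr [Finite V] [Finite E] {x y z : Y V E} (h1 : Lo A D x y) (h2 : Lo A D y z) :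
    Lo A D x z := by
  rcases h1 with ⟨h1, h1'⟩ | ⟨h1, h1'⟩ <;> rcases h2 with ⟨h2, h2'⟩ | ⟨h2, h2'⟩
  · exact Or.inl ⟨ro_tr h1 h2, h1'.tr h2'⟩
  · -- x < y, z < y in ro
    by_cases hxz : x = z
    · subst hxz
      exact absurd h1' h2'
    rcases ro_tot (A := A) hxz with h3 | h3
    · refine Or.inl ⟨h3, ?_⟩
      exact (btw h1' h3 h2).resolve_right h2'
    · exact Or.inr ⟨h3, fun h4 => h2' (h4.tr h1')⟩
  · -- y < x, y < z in ro
    by_cases hxz : x = z
    · subst hxz
      exact absurd h2' h1'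
    rcases ro_tot (A := A) hxz with h3 | h3
    · refine Or.inl ⟨h3, ?_⟩
      exact (btw h2' h1 h3).resolve_left h1'
    · exact Or.inr ⟨h3, fun h4 => h1' (h2'.tr h4)⟩
  · refine Or.inr ⟨ro_tr h2 h1, fun h4 => ?_⟩
    rcases btw h4 h2 h1 with h5 | h5
    · exact h2' h5
    · exact h1' h5

theorem lt_lo {x y : Y V E} (h : Lt A D x y) : Lo A D x y := Or.inl ⟨lt_ro h, h⟩

theorem lo_ro_lt {x y : Y V E} (h : Lo A D x y) (h1 : Ro A x y) : Lt A D x y := by
  rcases h with ⟨_, h⟩ | ⟨h, _⟩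
  · exact h
  · exact absurd h (ro_as h1)

theorem lf_iff {x y : Y V E} : Lf A D x y ↔ Lo A D x y ∧ Ro A y x := by
  unfold Lf
  constructor
  · rintro ⟨h1, h2, h3⟩
    exact ⟨Or.inr ⟨h1, h3⟩, h1⟩
  · rintro ⟨h1, h2⟩
    refine ⟨h2, fun h3 => ro_as h2 (lt_ro h3), fun h3 => ?_⟩
    exact lo_as h1 (lt_lo h3)

theorem Lf.lo {x y : Y V E} (h : Lf A D x y) : Lo A D x y := (lf_iff.1 h).1

theorem cmp {x y : Y V E} (h : x ≠ y) : Lt A D x y ∨ Lt A D y x ∨ Lf A D x y ∨ Lf A D y x := by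
  by_cases h1 : Lt A D x y
  · exact Or.inl h1
  by_cases h2 : Lt A D y x
  · exact Or.inr (Or.inl h2)
  rcases ro_tot (A := A) h with h3 | h3
  · exact Or.inr (Or.inr (Or.inr ⟨h3, h2, h1⟩))
  · exact Or.inr (Or.inr (Or.inl ⟨h3, h1, h2⟩))

theorem lf_tr [Finite V] [Finite E] {x y z : Y V E} (h1 : Lf A D x y) (h2 : Lf A D y z) :
    Lf A D x z :=
  lf_iff.2 ⟨lo_tr h1.lo h2.lo, ro_tr h2.1 h1.1⟩

theorem lf_mono {D' : E → Prop} (h : ∀ f, D f → D' f) {x y : Y V E} (h1 : Lf A D' x y) :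
    Lf A D x y :=
  ⟨h1.1, fun h2 => h1.2.1 (lt_mono h h2), fun h2 => h1.2.2 (lt_mono h h2)⟩

end Pool.Agent.W_a4f561_h25
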