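import Pool.Agent.W_a4f561_h25.Sta

/-!
MP_a4f561_co, proofs row 554, section 3: pinching, basics.
-/

set_option autoImplicit false

namespace Pool.Agent.W_a4f561_h25

open Sum Y

variable {V E : Type} {A : Pl V E} {D : E → Prop}

/-- Conditions under which `f` may be pinched. -/
structure Pin (A : Pl V E) (D : E → Prop) (q : ℕ) (s : Fin q → Y V E → ℤ) (f : E) : Prop where
  c0 : ¬ D f
  c1 : ∀ g, ¬ Pf A D f g
  c2 : ∀ g, ¬ Sf A D f g
  c4 : Cov s (A.tl f)
  c4' : Cov s (A.hd f)
  c5 : ∀ c, s c (v (A.tl f)) = 0 → s c (m f) = 1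
  c6 : ∀ c, s c (v (A.hd f)) = 0 → s c (m f) = -1

theorem Pin.rot {q : ℕ} {s : Fin q → Y V E → ℤ} {f : E} (h : Pin A D q s f) :
    Pin A.rot D q (fun c x => - s c x.rot) f where
  c0 := h.c0
  c1 := h.c2
  c2 := h.c1
  c4 := by
    obtain ⟨c, hc⟩ := h.c4'
    exact ⟨c, neg_eq_zero.2 hc⟩
  c4' := by
    obtain ⟨c, hc⟩ := h.c4
    exact ⟨c, neg_eq_zero.2 hc⟩
  c5 := fun c hc => by
    have h1 := h.c6 c (neg_eq_zero.1 hc)
    simp [h1]
  c6 := fun c hc => by
    have h1 := h.c5 c (neg_eq_zero.1 hc)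
    simp [h1]

open Classical in
/-- The new side functions. -/
noncomputable def npin (A : Pl V E) {q : ℕ} (s : Fin q → Y V E → ℤ) (f : E) (c : Fin q)
    (x : Y V E) : ℤ :=
  if (s c (v (A.tl f)) = 0 ∧ (x = a f ∨ x = m f)) ∨ (s c (v (A.hd f)) = 0 ∧ (x = m f ∨ x = b f))
  then 0 else s c x

theorem npin_v (A : Pl V E) {q : ℕ} (s : Fin q → Y V E → ℤ) (f : E) (c : Fin q) (w : V) :
    npin A s f c (v w) = s c (v w) := by
  unfold npin
  rw [if_neg]
  simp

theorem npin_rot (A : Pl V E) {q : ℕ} (s : Fin q → Y V E → ℤ) (f : E) (c : Fin q) (x : Y V E) :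
    npin A.rot (fun c x => - s c x.rot) f c x = - npin A s f c x.rot := by
  have e1 : x.rot = a f ↔ x = b f := by cases x <;> simp [Y.rot]
  have e2 : x.rot = m f ↔ x = m f := by cases x <;> simp [Y.rot]
  have e3 : x.rot = b f ↔ x = a f := by cases x <;> simp [Y.rot]
  have t1 : ((-s c (v (A.hd f)) = 0 ∧ (x = a f ∨ x = m f)) ∨
      (-s c (v (A.tl f)) = 0 ∧ (x = m f ∨ x = b f))) ↔
      ((s c (v (A.tl f)) = 0 ∧ (x.rot = a f ∨ x.rot = m f)) ∨
      (s c (v (A.hd f)) = 0 ∧ (x.rot = m f ∨ x.rot = b f))) := by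
    rw [e1, e2, e3, neg_eq_zero, neg_eq_zero]
    tauto
  unfold npin
  split_ifs with h1 h2 h2
  · simp
  · exact absurd (t1.1 h1) h2
  · exact absurd (t1.2 h2) h1
  · rfl

/-- A generator which starts at a vertex. -/
private theorem st_v {D' : E → Prop} {w : V} {z : Y V E} (h : St A D' (v w) z) :
    ∃ g, A.tl g = w ∧ z = a g := by
  generalize hx : (v w : Y V E) = x at h
  cases h with
  | tl e =>
    refine ⟨e, ?_, rfl⟩
    simpa using hx.symm
  | am e => simp at hx
  | mb e => simp at hx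
  | hd e => simp at hx
  | p f g _ _ _ => simp at hx
  | q f g _ _ _ => simp at hx

/-- Section 3, check of (W1) for a pair `x` left of `f⁻`: with `D' = D + f`, `Lf A D' x (a f)` implies
that `x` is left of the tail of `f`.  Proof: not `x <_D' u_f`; if `u_f <_D' x` then `h⁻ ≤_D' x` for an
out-edge `h` of `u_f`; `h` left of `f`: `m_f <_D' h⁻`, so `f⁻ <_D' x`, contradiction; `h = f`
contradiction; `h` right of `f`: not `h⁻ <_D' f⁻` by (c1), so `f⁻ <lo h⁻ <=lo x`, contradiction.  So `x`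
and `u_f` are incomparable; `lo u_f x` would give `ro x u_f`, `ro x f⁻`, contradiction. -/
theorem left_af [Finite V] [Finite E] {f : E} (c0 : ¬ D f) (c1 : ∀ g, ¬ Pf A D f g) {x : Y V E}
    (h : Lf A (fun e => D e ∨ e = f) x (a f)) : Lf A (fun e => D e ∨ e = f) x (v (A.tl f)) := by
  have hua : Lt A (fun e => D e ∨ e = f) (v (A.tl f)) (a f) :=
    Relation.TransGen.single (St.tl f)
  have h1 : ¬ Lt A (fun e => D e ∨ e = f) x (v (A.tl f)) := fun h1 => h.2.1 (h1.tr hua)
  refine ⟨?_, h1, ?_⟩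
  · have hne : v (A.tl f) ≠ x := by
      rintro rfl
      exact h.2.1 hua
    rcases ro_tot (A := A) hne with h2 | h2
    · exact h2
    · exact absurd (ro_tr h2 (lt_ro hua)) (ro_as h.1)
  · intro h2
    obtain ⟨z, hz, hzx⟩ : ∃ z, St A (fun e => D e ∨ e = f) (v (A.tl f)) z ∧
        (z = x ∨ Lt A (fun e => D e ∨ e = f) z x) := by
      rcases Relation.TransGen.head'_iff.1 h2 with ⟨z, hz, hzx⟩
      refine ⟨z, hz, ?_⟩
      rcases Relation.reflTransGen_iff_eq_or_transGen.1 hzx with h3 | h3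
      · exact Or.inl h3.symm
      · exact Or.inr h3
    obtain ⟨g, hg, rfl⟩ := st_v hz
    rcases tl_tri (A := A) hg with h3 | h3 | h3
    · subst h3
      rcases hzx with h4 | h4
      · rw [← h4] at h
        exact ro_irr _ h.1
      · exact h.2.2 h4
    · have h4 : Lt A (fun e => D e ∨ e = f) (a f) (a g) :=
        (Relation.TransGen.single (St.am f)).tail (St.q f g (Or.inr rfl) hg h3)
      rcases hzx with h5 | h5
      · rw [h5] at h4
        exact h.2.2 h4
      · exact h.2.2 (h4.tr h5)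
    · have hb : bot A (fun e => D e ∨ e = f) f = v (A.tl f) := by
        rcases bot_cases A (fun e => D e ∨ e = f) f with ⟨_, h4⟩ | ⟨k, h4, _, _⟩
        · exact h4
        · exfalso
          rcases h4.1 with h5 | h5
          · exact c1 k ⟨h5, h4.2.1, h4.2.2⟩
          · have h6 := h4.2.2
            rw [h5] at h6
            exact A.lo_irr _ h6.1
      have h4 : ¬ Lt A (fun e => D e ∨ e = f) (a g) (a f) := by
        intro h5
        rcases lt_a h5 with h6 | h6
        · rw [hb] at h6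
          simp at h6
        · rw [hb] at h6
          exact lt_as h6 (Relation.TransGen.single hz)
      have h5 : Lo A (fun e => D e ∨ e = f) (a f) (a g) := Or.inr ⟨Or.inl h3.2, h4⟩
      have h6 : Lo A (fun e => D e ∨ e = f) (a f) x := by
        rcases hzx with h7 | h7
        · rw [h7] at h5
          exact h5
        · exact lo_tr h5 (lt_lo h7)
      exact lo_as h6 h.lo

/-- `x` left of `m f` implies `x` left of `a f` (in `P_D'`, `D' = D + f`): `x <_D' f⁻` gives `x <_D' m_f`;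
`f⁻ <_D' x` gives `m_f = x` or `m_f <_D' x` (`a_lt`). -/
theorem left_mf [Finite V] [Finite E] {D' : E → Prop} {f : E} {x : Y V E}
    (h : Lf A D' x (m f)) : Lf A D' x (a f) := by
  have h1 : Lt A D' (a f) (m f) := Relation.TransGen.single (St.am f)
  refine ⟨ro_tr (lt_ro h1) h.1, fun h2 => h.2.1 (h2.tr h1), fun h2 => ?_⟩
  rcases a_lt h2 with h3 | h3
  · rw [h3] at h
    exact ro_irr _ h.1
  · exact h.2.2 h3

end Pool.Agent.W_a4f561_h25
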