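import Pool.Agent.W_a4f561_h25.PinA

/-!
MP_a4f561_co, proofs row 554, section 3: pinching, (W1).
-/

set_option autoImplicit false

namespace Pool.Agent.W_a4f561_h25

open Sum Y

variable {V E : Type} {A : Pl V E} {D : E → Prop}

/-- (W1) for the new side function, pairs where the wall passes the tail of `f`. -/
theorem pin_w1_tl [Finite V] [Finite E] {q : ℕ} {s : Fin q → Y V E → ℤ} (h : Sta A D q s) {f : E}
    (hp : Pin A D q s f) {c : Fin q} (hc : s c (v (A.tl f)) = 0) {x y : Y V E}
    (hxy : Lf A (fun e => D e ∨ e = f) x y) :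
    npin A s f c x ≤ npin A s f c y ∧ ¬ (npin A s f c x = 0 ∧ npin A s f c y = 0) := by
  have hD : ∀ e, D e → (D e ∨ e = f) := fun e he => Or.inl he
  have hm : s c (m f) = 1 := hp.c5 c hc
  have ha : s c (a f) = 1 := by rw [(h.w2 c f hp.c0).1, hm]
  have hh : s c (v (A.hd f)) ≠ 0 := by
    intro h0
    have h1 := hp.c6 c h0
    rw [hm] at h1
    norm_num at h1
  have hin : ∀ z : Y V E, (z = a f ∨ z = m f) → npin A s f c z = 0 := by
    intro z hz
    unfold npin
    rw [if_pos (Or.inl ⟨hc, hz⟩)]
  have hout : ∀ z : Y V E, ¬ (z = a f ∨ z = m f) → npin A s f c z = s c z := by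
    intro z hz
    unfold npin
    rw [if_neg]
    rintro (⟨_, h1⟩ | ⟨h1, _⟩)
    · exact hz h1
    · exact hh h1
  have hone : ∀ z : Y V E, (z = a f ∨ z = m f) → s c z = 1 := by
    rintro z (rfl | rfl)
    · exact ha
    · exact hm
  have hw := h.w1 c x y (lf_mono hD hxy)
  by_cases hx : x = a f ∨ x = m f
  · have hy : ¬ (y = a f ∨ y = m f) := by
      intro hy
      have am : Lt A (fun e => D e ∨ e = f) (a f) (m f) := Relation.TransGen.single (St.am f)
      rcases hx with rfl | rfl <;> rcases hy with rfl | rfl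
      · exact ro_irr _ hxy.1
      · exact hxy.2.1 am
      · exact hxy.2.2 am
      · exact ro_irr _ hxy.1
    rw [hin x hx, hout y hy]
    have h1 := hone x hx
    rw [h1] at hw
    refine ⟨by linarith [hw.1], fun h2 => ?_⟩
    have h3 := hw.1
    rw [h2.2] at h3
    norm_num at h3
  · by_cases hy : y = a f ∨ y = m f
    · have hxa : Lf A (fun e => D e ∨ e = f) x (a f) := by
        rcases hy with rfl | rfl
        · exact hxy
        · exact left_mf hxy
      have h1 := h.w1 c x _ (lf_mono hD (left_af hp.c0 hp.c1 hxa))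
      rw [hc] at h1
      rw [hin y hy, hout x hx]
      exact ⟨h1.1, fun h2 => h1.2 ⟨h2.1, rfl⟩⟩
    · rw [hout x hx, hout y hy]
      exact hw

/-- (W1) for the new side functions. -/
theorem pin_w1 [Finite V] [Finite E] {q : ℕ} {s : Fin q → Y V E → ℤ} (h : Sta A D q s) {f : E}
    (hp : Pin A D q s f) {c : Fin q} {x y : Y V E} (hxy : Lf A (fun e => D e ∨ e = f) x y) :
    npin A s f c x ≤ npin A s f c y ∧ ¬ (npin A s f c x = 0 ∧ npin A s f c y = 0) := by
  by_cases hc : s c (v (A.tl f)) = 0
  · exact pin_w1_tl h hp hc hxy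
  · by_cases hc' : s c (v (A.hd f)) = 0
    · have hxy' : Lf A.rot (fun e => D e ∨ e = f) y.rot x.rot := by
        rw [lf_rot, rot_rot, rot_rot]
        exact hxy
      have h1 := pin_w1_tl (A := A.rot) h.rot hp.rot (c := c) (neg_eq_zero.2 hc') hxy'
      rw [npin_rot, npin_rot, rot_rot, rot_rot] at h1
      refine ⟨by linarith [h1.1], fun h2 => h1.2 ⟨by rw [h2.2, neg_zero], by rw [h2.1, neg_zero]⟩⟩
    · have hout : ∀ z : Y V E, npin A s f c z = s c z := by
        intro z
        unfold npin
        rw [if_neg]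
        rintro (⟨h1, _⟩ | ⟨h1, _⟩)
        · exact hc h1
        · exact hc' h1
      rw [hout x, hout y]
      exact h.w1 c x y (lf_mono (fun e he => Or.inl he) hxy)

end Pool.Agent.W_a4f561_h25
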