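import Pool.Agent.W_a4f561_h25.LemS

/-!
MP_a4f561_co, proofs row 554, section 3: states (walls as side functions).
-/

set_option autoImplicit false

namespace Pool.Agent.W_a4f561_h25

open Sum Y

variable {V E : Type} {A : Pl V E} {D : E → Prop}

/-- A state with `q` walls: `s c x = 0` if `x` is on wall `c`, `-1` if it is left of it, `1` if it is
right of it. -/
structure Sta (A : Pl V E) (D : E → Prop) (q : ℕ) (s : Fin q → Y V E → ℤ) : Prop where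
  rg : ∀ c x, s c x = -1 ∨ s c x = 0 ∨ s c x = 1
  w1 : ∀ c x y, Lf A D x y → s c x ≤ s c y ∧ ¬ (s c x = 0 ∧ s c y = 0)
  w2 : ∀ c e, ¬ D e → s c (a e) = s c (m e) ∧ s c (b e) = s c (m e)
  w3 : ∀ f, D f → ∃ c, s c (v (A.tl f)) = 0 ∧ s c (a f) = 0 ∧
    ∀ w, s c (v w) = 0 → Lt A D (v (A.tl f)) (v w) → Lt A D (m f) (v w)
  w4 : ∀ f, D f → ∃ c, s c (v (A.hd f)) = 0 ∧ s c (b f) = 0 ∧
    ∀ w, s c (v w) = 0 → Lt A D (v w) (v (A.hd f)) → Lt A D (v w) (m f)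

/-- `w` is on a wall. -/
def Cov {q : ℕ} (s : Fin q → Y V E → ℤ) (w : V) : Prop := ∃ c, s c (v w) = 0

theorem Sta.rot {q : ℕ} {s : Fin q → Y V E → ℤ} (h : Sta A D q s) :
    Sta A.rot D q (fun c x => - s c x.rot) where
  rg := fun c x => by
    rcases h.rg c x.rot with h1 | h1 | h1 <;> simp [h1]
  w1 := fun c x y hxy => by
    have h1 := h.w1 c _ _ ((lf_rot x y).1 hxy)
    refine ⟨by linarith [h1.1], fun h2 => h1.2 ⟨by linarith [h2.2], by linarith [h2.1]⟩⟩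
  w2 := fun c e he => by
    have h1 := h.w2 c e he
    simp only [rot_a, rot_m, rot_b]
    exact ⟨by rw [h1.2], by rw [h1.1]⟩
  w3 := fun f hf => by
    obtain ⟨c, h1, h2, h3⟩ := h.w4 f hf
    refine ⟨c, neg_eq_zero.2 h1, neg_eq_zero.2 h2, fun w h4 h5 => ?_⟩
    rw [lt_rot] at h5 ⊢
    exact h3 w (neg_eq_zero.1 h4) h5
  w4 := fun f hf => by
    obtain ⟨c, h1, h2, h3⟩ := h.w3 f hf
    refine ⟨c, neg_eq_zero.2 h1, neg_eq_zero.2 h2, fun w h4 h5 => ?_⟩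
    rw [lt_rot] at h5 ⊢
    exact h3 w (neg_eq_zero.1 h4) h5

/-- Two vertices of the same wall are comparable. -/
theorem Sta.chain {q : ℕ} {s : Fin q → Y V E → ℤ} (h : Sta A D q s) {c : Fin q} {x y : Y V E}
    (hx : s c x = 0) (hy : s c y = 0) (hxy : x ≠ y) : Lt A D x y ∨ Lt A D y x := by
  rcases cmp (A := A) (D := D) hxy with h1 | h1 | h1 | h1
  · exact Or.inl h1
  · exact Or.inr h1
  · exact absurd ⟨hx, hy⟩ (h.w1 c _ _ h1).2
  · exact absurd ⟨hy, hx⟩ (h.w1 c _ _ h1).2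

end Pool.Agent.W_a4f561_h25
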