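import Pool.Agent.W_a4f561_h25.Def

/-!
MP_a4f561_co, part B (sweep), 1: insertion of a block of new elements directly after an element of a
linear order.
-/

set_option autoImplicit false

namespace Pool.Agent.W_a4f561_h25

open Sum

/-- `r` is a strict linear order on `S`. -/
structure LinOn {X : Type} (S : Set X) (r : X → X → Prop) : Prop where
  irr : ∀ x ∈ S, ¬ r x x
  tr : ∀ x ∈ S, ∀ y ∈ S, ∀ z ∈ S, r x y → r y z → r x z
  tot : ∀ x ∈ S, ∀ y ∈ S, x ≠ y → r x y ∨ r y x

theorem LinOn.flip {X : Type} {S : Set X} {r : X → X → Prop} (h : LinOn S r) :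
    LinOn S (fun x y => r y x) :=
  ⟨h.irr, fun x hx y hy z hz h1 h2 => h.tr z hz y hy x hx h2 h1,
    fun x hx y hy hne => (h.tot y hy x hx hne.symm)⟩

theorem LinOn.as {X : Type} {S : Set X} {r : X → X → Prop} (h : LinOn S r) {x y : X} (hx : x ∈ S)
    (hy : y ∈ S) (h1 : r x y) : ¬ r y x := fun h2 => h.irr x hx (h.tr x hx y hy x hx h1 h2)

/-- The order `r` with the new elements `N`, ordered by `q`, directly after `b`. -/
def Ins {X : Type} (r : X → X → Prop) (b : X) (N : Set X) (q : X → X → Prop) (x y : X) : Prop :=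
  (x ∉ N ∧ y ∉ N ∧ r x y) ∨ (x ∉ N ∧ y ∈ N ∧ (x = b ∨ r x b)) ∨ (x ∈ N ∧ y ∉ N ∧ r b y) ∨
    (x ∈ N ∧ y ∈ N ∧ q x y)

section
variable {X : Type} {r q : X → X → Prop} {b : X} {N S : Set X} {x y : X}

theorem ins_oo (hx : x ∉ N) (hy : y ∉ N) : Ins r b N q x y ↔ r x y := by
  simp [Ins, hx, hy]

theorem ins_on (hx : x ∉ N) (hy : y ∈ N) : Ins r b N q x y ↔ (x = b ∨ r x b) := by
  simp [Ins, hx, hy]

theorem ins_no (hx : x ∈ N) (hy : y ∉ N) : Ins r b N q x y ↔ r b y := by
  simp [Ins, hx, hy]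

theorem ins_nn (hx : x ∈ N) (hy : y ∈ N) : Ins r b N q x y ↔ q x y := by
  simp [Ins, hx, hy]

theorem ins_lin (hr : LinOn S r) (hq : LinOn N q) (hb : b ∈ S) (hd : ∀ x ∈ S, x ∉ N) :
    LinOn (S ∪ N) (Ins r b N q) := by
  refine ⟨?_, ?_, ?_⟩
  · rintro x (hx | hx) h
    · rw [ins_oo (hd x hx) (hd x hx)] at h
      exact hr.irr x hx h
    · rw [ins_nn hx hx] at h
      exact hq.irr x hx h
  · rintro x (hx | hx) y (hy | hy) z (hz | hz) h1 h2
    · rw [ins_oo (hd x hx) (hd y hy)] at h1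
      rw [ins_oo (hd y hy) (hd z hz)] at h2
      rw [ins_oo (hd x hx) (hd z hz)]
      exact hr.tr x hx y hy z hz h1 h2
    · rw [ins_oo (hd x hx) (hd y hy)] at h1
      rw [ins_on (hd y hy) hz] at h2
      rw [ins_on (hd x hx) hz]
      rcases h2 with rfl | h2
      · exact Or.inr h1
      · exact Or.inr (hr.tr x hx y hy b hb h1 h2)
    · rw [ins_on (hd x hx) hy] at h1
      rw [ins_no hy (hd z hz)] at h2
      rw [ins_oo (hd x hx) (hd z hz)]
      rcases h1 with rfl | h1
      · exact h2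
      · exact hr.tr x hx b hb z hz h1 h2
    · rw [ins_on (hd x hx) hy] at h1
      rw [ins_on (hd x hx) hz]
      exact h1
    · rw [ins_no hx (hd y hy)] at h1
      rw [ins_oo (hd y hy) (hd z hz)] at h2
      rw [ins_no hx (hd z hz)]
      exact hr.tr b hb y hy z hz h1 h2
    · rw [ins_no hx (hd y hy)] at h1
      rw [ins_on (hd y hy) hz] at h2
      rcases h2 with rfl | h2
      · exact absurd h1 (hr.irr _ hb)
      · exact absurd h2 (hr.as hb hy h1)
    · rw [ins_no hy (hd z hz)] at h2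
      rw [ins_no hx (hd z hz)]
      exact h2
    · rw [ins_nn hx hy] at h1
      rw [ins_nn hy hz] at h2
      rw [ins_nn hx hz]
      exact hq.tr x hx y hy z hz h1 h2
  · rintro x (hx | hx) y (hy | hy) hne
    · rw [ins_oo (hd x hx) (hd y hy), ins_oo (hd y hy) (hd x hx)]
      exact hr.tot x hx y hy hne
    · rw [ins_on (hd x hx) hy, ins_no hy (hd x hx)]
      by_cases h : x = b
      · exact Or.inl (Or.inl h)
      · rcases hr.tot x hx b hb h with h1 | h1
        · exact Or.inl (Or.inr h1)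
        · exact Or.inr h1
    · rw [ins_on (hd y hy) hx, ins_no hx (hd y hy)]
      by_cases h : y = b
      · exact Or.inr (Or.inl h)
      · rcases hr.tot y hy b hb h with h1 | h1
        · exact Or.inr (Or.inr h1)
        · exact Or.inl h1
    · rw [ins_nn hx hy, ins_nn hy hx]
      exact hq.tot x hx y hy hne

end

/-- The order of a list without repetitions. -/
theorem exists_ord {E : Type} (O : List E) (hO : O.Nodup) :
    ∃ q : E → E → Prop, LinOn {e | e ∈ O} q ∧ O.Pairwise q := by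
  classical
  refine ⟨fun x y => O.idxOf x < O.idxOf y, ⟨fun x _ => lt_irrefl _, ?_, ?_⟩, ?_⟩
  · intro x _ y _ z _ h1 h2
    exact lt_trans h1 h2
  · intro x hx y hy hne
    rcases lt_trichotomy (O.idxOf x) (O.idxOf y) with h | h | h
    · exact Or.inl h
    · exact absurd ((List.idxOf_inj hx).1 h) hne
    · exact Or.inr h
  · rw [List.pairwise_iff_getElem]
    intro i j hi hj hij
    show O.idxOf O[i] < O.idxOf O[j]
    rw [hO.idxOf_getElem i hi, hO.idxOf_getElem j hj]
    exact hij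

/-- The order of a new block: the vertex first. -/
def Vf {V E : Type} (q : E → E → Prop) : V ⊕ E → V ⊕ E → Prop
  | inl _, inr _ => True
  | inr e, inr e' => q e e'
  | _, inl _ => False

/-- The new block. -/
def Nw {V E : Type} (v : V) (O : List E) : Set (V ⊕ E) := {x | x = inl v ∨ ∃ e ∈ O, x = inr e}

section
variable {V E : Type} {v : V} {O : List E}

theorem nw_v : (inl v : V ⊕ E) ∈ Nw v O := Or.inl rfl

theorem nw_e {e : E} (h : e ∈ O) : (inr e : V ⊕ E) ∈ Nw v O := Or.inr ⟨e, h, rfl⟩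

theorem nw_e' {e : E} (h : (inr e : V ⊕ E) ∈ Nw v O) : e ∈ O := by
  rcases h with h | ⟨e', h, h'⟩
  · cases h
  · cases h'
    exact h

theorem nw_v' {w : V} (h : (inl w : V ⊕ E) ∈ Nw v O) : w = v := by
  rcases h with h | ⟨e', h, h'⟩
  · cases h
    rfl
  · cases h'

theorem vf_lin {q : E → E → Prop} (hq : LinOn {e | e ∈ O} q) : LinOn (Nw v O) (Vf q) := by
  refine ⟨?_, ?_, ?_⟩
  · rintro (w | e) hx h
    · exact h
    · exact hq.irr e (nw_e' hx) h
  · rintro (w | e) hx (w' | e') hy (w'' | e'') hz h1 h2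
    · exact h2
    · trivial
    · exact h2
    · trivial
    · exact h1
    · exact h1.elim
    · exact h2
    · exact hq.tr e (nw_e' hx) e' (nw_e' hy) e'' (nw_e' hz) h1 h2
  · rintro (w | e) hx (w' | e') hy hne
    · exact absurd ((nw_v' hx).trans (nw_v' hy).symm) (fun h => hne (by rw [h]))
    · exact Or.inl trivial
    · exact Or.inr trivial
    · exact hq.tot e (nw_e' hx) e' (nw_e' hy) (fun h => hne (by rw [h]))

end

end Pool.Agent.W_a4f561_h25
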