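import Pool.Agent.W_a4f561_h25.SwB

/-!
MP_a4f561_co, part B (sweep), 3: the start of the sweep, and the planar st-structure at its end.
-/

set_option autoImplicit false

namespace Pool.Agent.W_a4f561_h25

open Sum

theorem inv_init {V E : Type} (tl hd : E → V) (g : E) :
    ∃ lo ro, Inv tl hd (Nw (tl g) [g]) [g] lo ro := by
  classical
  have hq : LinOn {e | e ∈ [g]} (fun _ _ : E => False) := by
    refine ⟨fun x _ h => h, fun _ _ _ _ _ _ h _ => h, ?_⟩
    intro x hx y hy hne
    exact (hne ((List.mem_singleton.1 hx).trans (List.mem_singleton.1 hy).symm)).elim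
  have hl : LinOn (Nw (tl g) [g]) (Vf fun _ _ : E => False) := vf_lin hq
  have hm : ∀ e, inr e ∈ Nw (tl g) [g] → e = g := fun e he => List.mem_singleton.1 (nw_e' he)
  refine ⟨_, _, ?_, hl, hl, ?_, ?_, ?_, ?_, ?_, ?_, ?_, ?_, ?_, ?_, ?_, ?_, ?_⟩
  · refine Set.Finite.subset (((Set.finite_singleton (inl (tl g))).union
      ((List.finite_toSet [g]).image inr))) ?_
    rintro x (rfl | ⟨e, he, rfl⟩)
    · exact Or.inl rfl
    · exact Or.inr ⟨e, he, rfl⟩
  · intro e he
    exact nw_e he
  · exact List.pairwise_singleton _ _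
  · exact List.pairwise_singleton _ _
  · rintro e he x (rfl | ⟨o, ho, rfl⟩) h1 h2
    · exact h1
    · exact h1
  · rintro x (rfl | ⟨o, ho, rfl⟩)
    · exact ⟨g, List.mem_singleton_self g, Or.inr ⟨trivial, trivial⟩⟩
    · exact ⟨o, ho, Or.inl rfl⟩
  · intro e he
    rw [hm e he]
    exact nw_v
  · intro e he
    exact ⟨trivial, trivial⟩
  · intro e he hl
    exact absurd (nw_e' he) hl
  · intro e he hl
    exact absurd (nw_e' he) hl
  · rintro x (rfl | ⟨o, ho, rfl⟩) e he h1 h2
    · rw [hm e he]
      exact Or.inl rfl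
    · exact (h1 : False).elim
  · rintro x (rfl | ⟨o, ho, rfl⟩) e he h1 h2
    · exact (h1 : False).elim
    · exact (h1 : False).elim
  · rintro x (rfl | ⟨o, ho, rfl⟩) v hv h1 h2
    · exact (h1 : False).elim
    · exact (h1 : False).elim
  · rintro x (rfl | ⟨o, ho, rfl⟩) v hv h1 h2
    · exact (h1 : False).elim
    · rw [nw_v' hv]
      exact ⟨g, nw_e (List.mem_singleton_self g), rfl, Or.inl (by rw [List.mem_singleton.1 ho])⟩

/-- A last element is added to a relation. -/
def O2 {X : Type} (r : X → X → Prop) : Option X → Option X → Prop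
  | some x, some y => r x y
  | some _, none => True
  | none, _ => False

/-- Elements of the final structure. -/
def em {V E : Type} {p : E → Prop} : Option V ⊕ {e // p e} → Option (V ⊕ E)
  | inl none => none
  | inl (some v) => some (inl v)
  | inr e => some (inr e.1)

theorem em_inj {V E : Type} {p : E → Prop} {x y : Option V ⊕ {e // p e}} (h : em x = em y) :
    x = y := by
  rcases x with (_ | v) | ⟨e, he⟩ <;> rcases y with (_ | v') | ⟨e', he'⟩ <;> simp_all [em]

theorem Inv.pl {V E : Type} {tl hd : E → V} {S : Set (V ⊕ E)} {lv : List E}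
    {lo ro : V ⊕ E → V ⊕ E → Prop} (H : Inv tl hd S lv lo ro) (hS : ∀ v, inl v ∈ S) :
    ∃ P : Pl (Option V) {e // inr e ∈ S}, (∀ e, P.tl e = some (tl e.1)) ∧
      (∀ e, e.1 ∉ lv → P.hd e = some (hd e.1)) := by
  classical
  have hmem : ∀ (x : Option V ⊕ {e // inr e ∈ S}) (y : V ⊕ E), em x = some y → y ∈ S := by
    rintro ((_ | v) | ⟨e, he⟩) y h
    · cases h
    · cases h
      exact hS v
    · cases h
      exact he
  have irr : ∀ r : V ⊕ E → V ⊕ E → Prop, LinOn S r →
      ∀ x : Option V ⊕ {e // inr e ∈ S}, ¬ O2 r (em x) (em x) := by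
    intro r hr x h
    cases hx : em x with
    | none =>
      rw [hx] at h
      exact h
    | some y =>
      rw [hx] at h
      exact hr.irr y (hmem x y hx) h
  have tr : ∀ r : V ⊕ E → V ⊕ E → Prop, LinOn S r →
      ∀ x y z : Option V ⊕ {e // inr e ∈ S}, O2 r (em x) (em y) → O2 r (em y) (em z) →
      O2 r (em x) (em z) := by
    intro r hr x y z h1 h2
    cases hx : em x with
    | none =>
      rw [hx] at h1
      exact h1.elim
    | some x' =>
      cases hz : em z with
      | none => trivial
      | some z' =>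
        cases hy : em y with
        | none =>
          rw [hy] at h2
          exact h2.elim
        | some y' =>
          rw [hx, hy] at h1
          rw [hy, hz] at h2
          exact hr.tr x' (hmem x x' hx) y' (hmem y y' hy) z' (hmem z z' hz) h1 h2
  have tot : ∀ r : V ⊕ E → V ⊕ E → Prop, LinOn S r →
      ∀ x y : Option V ⊕ {e // inr e ∈ S}, x ≠ y → O2 r (em x) (em y) ∨ O2 r (em y) (em x) := by
    intro r hr x y hne
    cases hx : em x with
    | none =>
      cases hy : em y with
      | none => exact (hne (em_inj (hx.trans hy.symm))).elim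
      | some y' => exact Or.inr trivial
    | some x' =>
      cases hy : em y with
      | none => exact Or.inl trivial
      | some y' =>
        have : x' ≠ y' := fun h => hne (em_inj (by rw [hx, hy, h]))
        exact hr.tot x' (hmem x x' hx) y' (hmem y y' hy) this
  refine ⟨{
    tl := fun e => some (tl e.1)
    hd := fun e => if e.1 ∈ lv then none else some (hd e.1)
    lo := fun x y => O2 lo (em x) (em y)
    ro := fun x y => O2 ro (em x) (em y)
    lo_irr := irr lo H.lo_lin
    lo_tr := tr lo H.lo_lin
    lo_tot := tot lo H.lo_lin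
    ro_irr := irr ro H.ro_lin
    ro_tr := tr ro H.ro_lin
    ro_tot := tot ro H.ro_lin
    tl_lo := fun e => (H.tl_lt e.1 e.2).1
    tl_ro := fun e => (H.tl_lt e.1 e.2).2
    hd_lo := ?_
    hd_ro := ?_
    dn_e := ?_
    up_e := ?_
    dn_v := ?_
    up_v := ?_ }, fun _ => rfl, fun e he => if_neg he⟩
  · intro e
    by_cases h : e.1 ∈ lv
    · rw [if_pos h]
      trivial
    · rw [if_neg h]
      exact (H.hd_lt e.1 e.2 h).1
  · intro e
    by_cases h : e.1 ∈ lv
    · rw [if_pos h]
      trivial
    · rw [if_neg h]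
      exact (H.hd_lt e.1 e.2 h).2
  · rintro ((_ | v) | ⟨e', he'⟩) e h1 h2
    · exact (h1 : False).elim
    · rcases H.dn_e _ (hS v) e.1 e.2 h1 h2 with h | h
      · refine Or.inl ?_
        rw [inl_injective h]
      · exact Or.inr h
    · rcases H.dn_e _ he' e.1 e.2 h1 h2 with h | h
      · cases h
      · exact Or.inr h
  · rintro ((_ | v) | ⟨e', he'⟩) e h1 h2
    · by_cases h : e.1 ∈ lv
      · rw [if_pos h]
        exact Or.inl rfl
      · rw [if_neg h]
        exact Or.inr ⟨trivial, trivial⟩
    · by_cases h : e.1 ∈ lv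
      · exact (H.top e.1 h _ (hS v) h1 h2).elim
      · rw [if_neg h]
        rcases H.up_e _ (hS v) e.1 e.2 h1 h2 with h | h
        · refine Or.inl ?_
          rw [inl_injective h]
        · exact Or.inr h
    · by_cases h : e.1 ∈ lv
      · exact (H.top e.1 h _ he' h1 h2).elim
      · rw [if_neg h]
        rcases H.up_e _ he' e.1 e.2 h1 h2 with h | h
        · cases h
        · exact Or.inr h
  · rintro x (_ | v) h1 h2
    · -- the new top
      have hx : ∃ y, em x = some y ∧ y ∈ S := by
        cases hx : em x with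
        | none =>
          have h1' : O2 lo (em x) (em (inl none : Option V ⊕ {e // inr e ∈ S})) := h1
          rw [hx] at h1'
          exact h1'.elim
        | some y => exact ⟨y, rfl, hmem x y hx⟩
      obtain ⟨y, hy, hyS⟩ := hx
      obtain ⟨e, he, h⟩ := H.cov y hyS
      refine ⟨⟨e, H.lvS e he⟩, if_pos he, ?_⟩
      rcases h with h | h
      · exact Or.inl (em_inj (by rw [hy, h]; rfl))
      · refine Or.inr ?_
        show O2 lo (em x) (some (inr e)) ∧ O2 ro (em x) (some (inr e))
        rw [hy]
        exact h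
    · rcases x with (_ | w) | ⟨e', he'⟩
      · exact (h1 : False).elim
      · obtain ⟨r, hr, hrl, hrv, h⟩ := H.dn_v _ (hS w) v (hS v) h1 h2
        refine ⟨⟨r, hr⟩, ?_, ?_⟩
        · show (if r ∈ lv then none else some (hd r)) = some v
          rw [if_neg hrl, hrv]
        · rcases h with h | h
          · cases h
          · exact Or.inr h
      · obtain ⟨r, hr, hrl, hrv, h⟩ := H.dn_v _ he' v (hS v) h1 h2
        refine ⟨⟨r, hr⟩, ?_, ?_⟩
        · show (if r ∈ lv then none else some (hd r)) = some v
          rw [if_neg hrl, hrv]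
        · rcases h with h | h
          · cases h
            exact Or.inl rfl
          · exact Or.inr h
  · rintro x (_ | v) h1 h2
    · exact (h1 : False).elim
    · rcases x with (_ | w) | ⟨e', he'⟩
      · -- `v` is below a live element
        obtain ⟨e, he, h⟩ := H.cov _ (hS v)
        rcases h with h | h
        · cases h
        · obtain ⟨r, hr, hrv, h3⟩ := H.up_v _ (H.lvS e he) v (hS v) h.1 h.2
          exact ⟨⟨r, hr⟩, by rw [hrv], Or.inr ⟨trivial, trivial⟩⟩
      · obtain ⟨r, hr, hrv, h⟩ := H.up_v _ (hS w) v (hS v) h1 h2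
        refine ⟨⟨r, hr⟩, by rw [hrv], ?_⟩
        rcases h with h | h
        · cases h
        · exact Or.inr h
      · obtain ⟨r, hr, hrv, h⟩ := H.up_v _ he' v (hS v) h1 h2
        refine ⟨⟨r, hr⟩, by rw [hrv], ?_⟩
        rcases h with h | h
        · cases h
          exact Or.inl rfl
        · exact Or.inr h

end Pool.Agent.W_a4f561_h25
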