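import Pool.Agent.W_a4f561_h25.Ord

/-!
MP_a4f561_co, proofs row 554, section 2: `top e` (least point above `e⁺`) and `bot e` (largest point
below `e⁻`).
-/

set_option autoImplicit false

namespace Pool.Agent.W_a4f561_h25

open Sum Y

variable {V E : Type} {A : Pl V E} {D : E → Prop}

/-- `f` is a D-edge left of `e` with the same head. -/
def Sf (A : Pl V E) (D : E → Prop) (e f : E) : Prop := D f ∧ A.hd f = A.hd e ∧ A.L (inr f) (inr e)

/-- `f` is a D-edge right of `e` with the same tail. -/
def Pf (A : Pl V E) (D : E → Prop) (e f : E) : Prop := D f ∧ A.tl f = A.tl e ∧ A.L (inr e) (inr f)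

theorem sf_rot (e f : E) : Sf A.rot D e f ↔ Pf A D e f := Iff.rfl
theorem pf_rot (e f : E) : Pf A.rot D e f ↔ Sf A D e f := Iff.rfl

def IsTop (A : Pl V E) (D : E → Prop) (e : E) (x : Y V E) : Prop :=
  ((∀ f, ¬ Sf A D e f) ∧ x = v (A.hd e)) ∨
    ∃ f, Sf A D e f ∧ (∀ f', Sf A D e f' → f' = f ∨ A.L (inr f') (inr f)) ∧ x = m f

theorem exists_top [Finite E] (A : Pl V E) (D : E → Prop) (e : E) : ∃ x, IsTop A D e x := by
  classical
  by_cases h : ∀ f, ¬ Sf A D e f
  · exact ⟨_, Or.inl ⟨h, rfl⟩⟩
  · push Not at h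
    obtain ⟨f0, hf0⟩ := h
    -- the `ro`-smallest such edge
    have wf : WellFounded (fun f g : E => A.ro (inr f) (inr g)) := by
      have : IsTrans E (fun f g : E => A.ro (inr f) (inr g)) := ⟨fun _ _ _ => A.ro_tr _ _ _⟩
      have : Std.Irrefl (fun f g : E => A.ro (inr f) (inr g)) := ⟨fun _ => A.ro_irr _⟩
      exact Finite.wellFounded_of_trans_of_irrefl _
    let S : Set E := {f | Sf A D e f}
    have hS : S.Nonempty := ⟨f0, hf0⟩
    refine ⟨m (wf.min S hS), Or.inr ⟨_, wf.min_mem S hS, ?_, rfl⟩⟩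
    intro f' hf'
    by_contra hcon
    push Not at hcon
    obtain ⟨hne, hL⟩ := hcon
    have h1 := wf.not_lt_min S (x := f') hf'
    have h2 : A.ro (inr (wf.min S hS)) (inr f') :=
      (A.ro_tot _ _ (fun h => hne (inr_injective h))).resolve_left h1
    have hm : Sf A D e (wf.min S hS) := wf.min_mem S hS
    rcases A.lo_tot (inr f') (inr (wf.min S hS)) (fun h => hne (inr_injective h)) with h3 | h3
    · exact hL ⟨h3, h2⟩
    · -- `wf.min <_P f'`, so the head of `wf.min` is below `f'`
      rcases A.up_e _ _ h3 h2 with h4 | ⟨h4, h5⟩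
      · exact absurd h4 (by simp)
      · rw [hm.2.1, ← hf'.2.1] at h4
        exact absurd (A.lo_tr _ _ _ h4 (A.hd_lo f')) (A.lo_irr _)

open Classical in
/-- The least point above `e⁺`. -/
noncomputable def top (A : Pl V E) (D : E → Prop) (e : E) : Y V E :=
  if h : ∃ x, IsTop A D e x then h.choose else v (A.hd e)

/-- The largest point below `e⁻`. -/
noncomputable def bot (A : Pl V E) (D : E → Prop) (e : E) : Y V E := (top A.rot D e).rot

theorem top_spec [Finite E] (A : Pl V E) (D : E → Prop) (e : E) : IsTop A D e (top A D e) := by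
  unfold top
  rw [dif_pos (exists_top A D e)]
  exact (exists_top A D e).choose_spec

theorem top_rot (e : E) : top A.rot D e = (bot A D e).rot := by
  unfold bot
  rw [rot_rot]

theorem bot_rot (e : E) : bot A.rot D e = (top A D e).rot := rfl

/-- Either there is no D-edge left of `e` with the same head, and `top e` is the head, or ... -/
theorem top_cases [Finite E] (A : Pl V E) (D : E → Prop) (e : E) :
    ((∀ f, ¬ Sf A D e f) ∧ top A D e = v (A.hd e)) ∨
    ∃ f, Sf A D e f ∧ (∀ f', Sf A D e f' → f' = f ∨ A.L (inr f') (inr f)) ∧ top A D e = m f :=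
  top_spec A D e

theorem bot_cases [Finite E] (A : Pl V E) (D : E → Prop) (e : E) :
    ((∀ f, ¬ Pf A D e f) ∧ bot A D e = v (A.tl e)) ∨
    ∃ f, Pf A D e f ∧ (∀ f', Pf A D e f' → f' = f ∨ A.L (inr f) (inr f')) ∧ bot A D e = m f := by
  rcases top_spec A.rot D e with ⟨h1, h2⟩ | ⟨f, h1, h2, h3⟩
  · refine Or.inl ⟨fun f => h1 f, ?_⟩
    unfold bot
    rw [h2]
    rfl
  · refine Or.inr ⟨f, h1, fun f' hf' => h2 f' hf', ?_⟩
    unfold bot
    rw [h3]
    rfl

/-- A head of a `D`-edge is above its top. -/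
theorem top_le_hd [Finite E] (A : Pl V E) (D : E → Prop) (e : E) :
    top A D e = v (A.hd e) ∨ Lt A D (top A D e) (v (A.hd e)) := by
  rcases top_cases A D e with ⟨_, h⟩ | ⟨f, h1, _, h3⟩
  · exact Or.inl h
  · rw [h3, ← h1.2.1]
    exact Or.inr ((Relation.TransGen.single (St.mb f)).tail (St.hd f))

theorem tl_le_bot [Finite E] (A : Pl V E) (D : E → Prop) (e : E) :
    v (A.tl e) = bot A D e ∨ Lt A D (v (A.tl e)) (bot A D e) := by
  rcases top_le_hd A.rot D e with h | h
  · left
    unfold bot
    rw [h]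
    rfl
  · right
    rw [lt_rot] at h
    exact h

theorem b_lt_top [Finite E] (A : Pl V E) (D : E → Prop) (e : E) : Lt A D (b e) (top A D e) := by
  rcases top_cases A D e with ⟨_, h⟩ | ⟨f, h1, _, h3⟩
  · rw [h]
    exact Relation.TransGen.single (St.hd e)
  · rw [h3]
    exact Relation.TransGen.single (St.p f e h1.1 h1.2.1.symm h1.2.2)

theorem bot_lt_a [Finite E] (A : Pl V E) (D : E → Prop) (e : E) : Lt A D (bot A D e) (a e) := by
  have h := b_lt_top A.rot D e
  rw [lt_rot] at h
  exact h

/-- Everything above `e⁺` is above `top e`. -/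
theorem b_lt [Finite E] {e : E} {x : Y V E} (h : Lt A D (b e) x) :
    top A D e = x ∨ Lt A D (top A D e) x := by
  have key : ∀ y, St A D (b e) y → top A D e = y ∨ Lt A D (top A D e) y := by
    intro y hy
    cases hy with
    | hd e => exact top_le_hd A D e
    | p f g h1 h2 h3 =>
      have hf : Sf A D e f := ⟨h1, h2.symm, h3⟩
      rcases top_cases A D e with ⟨h4, _⟩ | ⟨f0, h4, h5, h6⟩
      · exact absurd hf (h4 f)
      · rcases h5 f hf with h7 | h7
        · left
          rw [h6, h7]
        · right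
          rw [h6]
          exact (Relation.TransGen.single (St.mb f0)).tail
            (St.p f f0 h1 (h4.2.1.trans h2) h7)
  obtain ⟨y, hy, hyx⟩ := Relation.TransGen.head'_iff.1 h
  rcases Relation.reflTransGen_iff_eq_or_transGen.1 hyx with h1 | h1
  · rw [h1]
    exact key y hy
  · right
    rcases key y hy with h2 | h2
    · rw [h2]
      exact h1
    · exact h2.tr h1

/-- Everything below `e⁻` is below `bot e`. -/
theorem lt_a [Finite E] {e : E} {x : Y V E} (h : Lt A D x (a e)) :
    x = bot A D e ∨ Lt A D x (bot A D e) := by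
  have h1 : Lt A.rot D (b e) x.rot := by
    rw [lt_rot, rot_rot]
    exact h
  rcases b_lt h1 with h2 | h2
  · left
    rw [top_rot] at h2
    exact (rot_inj h2).symm
  · right
    rw [lt_rot, rot_rot, top_rot, rot_rot] at h2
    exact h2

/-- Above `m e`, if `e` is not in `D`. -/
theorem m_lt [Finite E] {e : E} (he : ¬ D e) {x : Y V E} (h : Lt A D (m e) x) :
    x = b e ∨ top A D e = x ∨ Lt A D (top A D e) x := by
  obtain ⟨y, hy, hyx⟩ := Relation.TransGen.head'_iff.1 h
  cases hy with
  | mb e =>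
    rcases Relation.reflTransGen_iff_eq_or_transGen.1 hyx with h1 | h1
    · exact Or.inl h1
    · exact Or.inr (b_lt h1)
  | q f g h1 _ _ => exact absurd h1 he

/-- Below `m e`, if `e` is not in `D`. -/
theorem lt_m [Finite E] {e : E} (he : ¬ D e) {x : Y V E} (h : Lt A D x (m e)) :
    x = a e ∨ x = bot A D e ∨ Lt A D x (bot A D e) := by
  have h1 : Lt A.rot D (m e) x.rot := by
    rw [lt_rot, rot_rot]
    exact h
  rcases m_lt he h1 with h2 | h2 | h2
  · left
    apply rot_inj
    rw [h2]
    rfl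
  · right
    left
    rw [top_rot] at h2
    exact (rot_inj h2).symm
  · right
    right
    rw [lt_rot, rot_rot, top_rot, rot_rot] at h2
    exact h2

/-- Above `a f`: `m f` or above `m f`. -/
theorem a_lt {e : E} {x : Y V E} (h : Lt A D (a e) x) : m e = x ∨ Lt A D (m e) x := by
  obtain ⟨y, hy, hyx⟩ := Relation.TransGen.head'_iff.1 h
  cases hy with
  | am e =>
    rcases Relation.reflTransGen_iff_eq_or_transGen.1 hyx with h1 | h1
    · exact Or.inl h1.symm
    · exact Or.inr h1

/-- Below `b f`: `m f` or below `m f`. -/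
theorem lt_b {e : E} {x : Y V E} (h : Lt A D x (b e)) : x = m e ∨ Lt A D x (m e) := by
  have h1 : Lt A.rot D (a e) x.rot := by
    rw [lt_rot, rot_rot]
    exact h
  rcases a_lt h1 with h2 | h2
  · left
    apply rot_inj
    rw [← h2]
    rfl
  · right
    rw [lt_rot, rot_rot] at h2
    exact h2

theorem m_lt_top [Finite E] (A : Pl V E) (D : E → Prop) (e : E) : Lt A D (m e) (top A D e) :=
  Relation.TransGen.head (St.mb e) (b_lt_top A D e)

theorem bot_lt_m [Finite E] (A : Pl V E) (D : E → Prop) (e : E) : Lt A D (bot A D e) (m e) :=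
  (bot_lt_a A D e).tail (St.am e)

theorem top_inj [Finite E] {e e' : E} (h : top A D e = top A D e') : A.hd e = A.hd e' := by
  rcases top_cases A D e with ⟨_, h1⟩ | ⟨f, h1, _, h3⟩ <;>
    rcases top_cases A D e' with ⟨_, h1'⟩ | ⟨f', h1', _, h3'⟩
  · rw [h1, h1'] at h
    simpa using h
  · rw [h1, h3'] at h
    simp at h
  · rw [h3, h1'] at h
    simp at h
  · rw [h3, h3'] at h
    obtain rfl : f = f' := by simpa using h
    rw [← h1.2.1, ← h1'.2.1]

theorem top_ne_m [Finite E] {e e' : E} (he' : ¬ D e') : top A D e ≠ m e' := by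
  intro h
  rcases top_cases A D e with ⟨_, h1⟩ | ⟨f, h1, _, h3⟩
  · rw [h1] at h
    simp at h
  · rw [h3] at h
    obtain rfl : f = e' := by simpa using h
    exact he' h1.1

theorem bot_ne_m [Finite E] {e e' : E} (he' : ¬ D e') : bot A D e ≠ m e' := by
  intro h
  refine top_ne_m (A := A.rot) (e := e) he' ?_
  rw [top_rot, h]
  rfl

end Pool.Agent.W_a4f561_h25
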