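import Pool.Agent.W_a4f561_h25.Sta

/-!
MP_a4f561_co, proofs row 554, section 3: adding a wall.
-/

set_option autoImplicit false

namespace Pool.Agent.W_a4f561_h25

open Sum Y

variable {V E : Type} {A : Pl V E} {D : E → Prop}

/-- Every chain of `P_D` is contained in a maximal chain `C` (Mathlib: `Flag`, `IsChain`,
`IsChain.exists_subset_flag` or Zorn / finiteness). -/
theorem exists_max_chain [Finite V] [Finite E] (A : Pl V E) (D : E → Prop) (S : Set (Y V E))
    (hS : ∀ x ∈ S, ∀ y ∈ S, x ≠ y → Lt A D x y ∨ Lt A D y x) :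
    ∃ C : Set (Y V E), S ⊆ C ∧ (∀ x ∈ C, ∀ y ∈ C, x ≠ y → Lt A D x y ∨ Lt A D y x) ∧
      ∀ x, (∀ y ∈ C, x ≠ y → Lt A D x y ∨ Lt A D y x) → x ∈ C := by
  have hc : IsChain (Lt A D) S := fun x hx y hy hxy => hS x hx y hy hxy
  obtain ⟨C, hC, hSC⟩ := hc.exists_maxChain
  refine ⟨C, hSC, fun x hx y hy hxy => hC.1 hx hy hxy, fun x hx => ?_⟩
  have h1 : IsChain (Lt A D) (insert x C) := hC.1.insert fun y hy hxy => hx y hy hxy
  have h2 := hC.2 h1 (Set.subset_insert x C)
  rw [h2]
  exact Set.mem_insert x C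

theorem Wal_lf_irr (x : Y V E) : ¬ Lf A D x x := fun h => ro_irr x h.1

/-- comparability with `a e` and with `m e` -/
theorem Wal_am [Finite V] [Finite E] {e : E} (he : ¬ D e) {x : Y V E} (hx : x ≠ a e)
    (hx' : x ≠ m e) : (Lt A D x (a e) ↔ Lt A D x (m e)) ∧ (Lt A D (a e) x ↔ Lt A D (m e) x) := by
  refine ⟨⟨fun h => h.tail (St.am e), fun h => ?_⟩, ⟨fun h => ?_, fun h =>
    Relation.TransGen.head (St.am e) h⟩⟩
  · rcases lt_m he h with h1 | h1 | h1
    · exact absurd h1 hx
    · rw [h1]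
      exact bot_lt_a A D e
    · exact h1.tr (bot_lt_a A D e)
  · rcases a_lt h with h1 | h1
    · exact absurd h1.symm hx'
    · exact h1

/-- comparability with `b e` and with `m e` -/
theorem Wal_bm [Finite V] [Finite E] {e : E} (he : ¬ D e) {x : Y V E} (hx : x ≠ b e)
    (hx' : x ≠ m e) : (Lt A D x (b e) ↔ Lt A D x (m e)) ∧ (Lt A D (b e) x ↔ Lt A D (m e) x) := by
  refine ⟨⟨fun h => ?_, fun h => h.tail (St.mb e)⟩, ⟨fun h =>
    Relation.TransGen.head (St.mb e) h, fun h => ?_⟩⟩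
  · rcases lt_b h with h1 | h1
    · exact absurd h1 hx'
    · exact h1
  · rcases m_lt he h with h1 | h1 | h1
    · exact absurd h1 hx
    · rw [← h1]
      exact b_lt_top A D e
    · exact (b_lt_top A D e).tr h1

/-- a point which is none of `a e`, `m e`, `b e` has another place -/
theorem Wal_pl {e : E} {x : Y V E} (h1 : x ≠ a e) (h2 : x ≠ m e) (h3 : x ≠ b e) :
    x.pl ≠ inr e := by
  intro h
  cases x with
  | v w => simp at h
  | a f =>
    obtain rfl : f = e := by simpa using h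
    exact h1 rfl
  | m f =>
    obtain rfl : f = e := by simpa using h
    exact h2 rfl
  | b f =>
    obtain rfl : f = e := by simpa using h
    exact h3 rfl

theorem Wal_ro {e : E} {x y z : Y V E} (hx : x.pl ≠ inr e) (hy : y.pl = inr e)
    (hz : z.pl = inr e) : Ro A y x ↔ Ro A z x := by
  unfold Ro
  rw [hy, hz]
  constructor
  · rintro (h | h)
    · exact Or.inl h
    · exact absurd h.1.symm hx
  · rintro (h | h)
    · exact Or.inl h
    · exact absurd h.1.symm hx

theorem Wal_lf [Finite V] [Finite E] {e : E} (he : ¬ D e) {x : Y V E} (h1 : x ≠ a e)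
    (h2 : x ≠ m e) (h3 : x ≠ b e) :
    (Lf A D x (a e) ↔ Lf A D x (m e)) ∧ (Lf A D x (b e) ↔ Lf A D x (m e)) := by
  have hp := Wal_pl h1 h2 h3
  have k1 := Wal_am (A := A) he h1 h2
  have k2 := Wal_bm (A := A) he h3 h2
  constructor
  · unfold Lf
    rw [k1.1, k1.2, Wal_ro (A := A) hp (pl_a e) (pl_m e)]
  · unfold Lf
    rw [k2.1, k2.2, Wal_ro (A := A) hp (pl_b e) (pl_m e)]

/-- The side function of a maximal chain: `0` on `C`, `1` if some `c ∈ C` is left of `x`, `-1` if `x` is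
left of some `c ∈ C`; exactly one of the last two holds for `x ∉ C`, as `c` left of `x` left of `c'` gives
`c` left of `c'` (`lf_tr`).  (w2 part:) if `¬ D e`, then `a e`, `m e`, `b e` are comparable with the same
other points (the only successor of `a e` is `m e`, of `m e` is `b e`; the only predecessor of `m e` is
`a e`, of `b e` is `m e`), and `Ro` does not separate them. -/
theorem exists_side [Finite V] [Finite E] (A : Pl V E) (D : E → Prop) (S : Set (Y V E))
    (hS : ∀ x ∈ S, ∀ y ∈ S, x ≠ y → Lt A D x y ∨ Lt A D y x) :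
    ∃ s : Y V E → ℤ, (∀ x, s x = -1 ∨ s x = 0 ∨ s x = 1) ∧ (∀ x ∈ S, s x = 0) ∧
      (∀ x y, Lf A D x y → s x ≤ s y ∧ ¬ (s x = 0 ∧ s y = 0)) ∧
      (∀ e, ¬ D e → s (a e) = s (m e) ∧ s (b e) = s (m e)) := by
  classical
  obtain ⟨C, hSC, hch, hmax⟩ := exists_max_chain A D S hS
  -- two points of `C` are not left of each other
  have hCC : ∀ x ∈ C, ∀ y ∈ C, ¬ Lf A D x y := by
    intro x hx y hy h
    by_cases hxy : x = y
    · subst hxy
      exact Wal_lf_irr x h
    · rcases hch x hx y hy hxy with h1 | h1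
      · exact h.2.1 h1
      · exact h.2.2 h1
  obtain ⟨s, hs⟩ : ∃ s : Y V E → ℤ, s = fun x => if x ∈ C then 0 else
      if ∃ c ∈ C, Lf A D c x then 1 else -1 := ⟨_, rfl⟩
  have s0 : ∀ x ∈ C, s x = 0 := fun x hx => by rw [hs]; exact if_pos hx
  have s1 : ∀ x, x ∉ C → (∃ c ∈ C, Lf A D c x) → s x = 1 := fun x hx h => by
    rw [hs]
    show (if x ∈ C then (0 : ℤ) else if ∃ c ∈ C, Lf A D c x then 1 else -1) = 1
    rw [if_neg hx, if_pos h]
  have s2 : ∀ x, x ∉ C → (¬ ∃ c ∈ C, Lf A D c x) → s x = -1 := fun x hx h => by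
    rw [hs]
    show (if x ∈ C then (0 : ℤ) else if ∃ c ∈ C, Lf A D c x then 1 else -1) = -1
    rw [if_neg hx, if_neg h]
  have s3 : ∀ x, s x = -1 ∨ s x = 0 ∨ s x = 1 := by
    intro x
    by_cases hx : x ∈ C
    · exact Or.inr (Or.inl (s0 x hx))
    · by_cases h : ∃ c ∈ C, Lf A D c x
      · exact Or.inr (Or.inr (s1 x hx h))
      · exact Or.inl (s2 x hx h)
  refine ⟨s, s3, fun x hx => s0 x (hSC hx), fun x y hxy => ?_, fun e he => ?_⟩
  · by_cases hx : x ∈ C
    · have hy : y ∉ C := fun hy => hCC x hx y hy hxy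
      have h1 := s0 x hx
      have h2 := s1 y hy ⟨x, hx, hxy⟩
      rw [h1, h2]
      exact ⟨by norm_num, by norm_num⟩
    · by_cases h : ∃ c ∈ C, Lf A D c x
      · obtain ⟨c, hc, hcx⟩ := h
        have hy : y ∉ C := fun hy => hCC c hc y hy (lf_tr hcx hxy)
        have h1 := s1 x hx ⟨c, hc, hcx⟩
        have h2 := s1 y hy ⟨c, hc, lf_tr hcx hxy⟩
        rw [h1, h2]
        exact ⟨le_refl _, by norm_num⟩
      · have h1 := s2 x hx h
        rw [h1]
        refine ⟨?_, fun h2 => by norm_num at h2⟩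
        rcases s3 y with h2 | h2 | h2 <;> rw [h2] <;> norm_num
  · have cab : ∀ x y : Y V E, Lt A D x y → x ≠ y := fun x y h hxy => lt_irr x (by rw [← hxy] at h; exact h)
    have am : Lt A D (a e) (m e) := Relation.TransGen.single (St.am e)
    have mb : Lt A D (m e) (b e) := Relation.TransGen.single (St.mb e)
    have mem1 : a e ∈ C ↔ m e ∈ C := by
      constructor
      · intro h
        refine hmax _ fun y hy hne => ?_
        by_cases hya : y = a e
        · rw [hya]
          exact Or.inr am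
        · have k := Wal_am (A := A) he hya (Ne.symm hne)
          rcases hch y hy _ h hya with h1 | h1
          · exact Or.inr (k.1.1 h1)
          · exact Or.inl (k.2.1 h1)
      · intro h
        refine hmax _ fun y hy hne => ?_
        by_cases hym : y = m e
        · rw [hym]
          exact Or.inl am
        · have k := Wal_am (A := A) he (Ne.symm hne) hym
          rcases hch y hy _ h hym with h1 | h1
          · exact Or.inr (k.1.2 h1)
          · exact Or.inl (k.2.2 h1)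
    have mem2 : b e ∈ C ↔ m e ∈ C := by
      constructor
      · intro h
        refine hmax _ fun y hy hne => ?_
        by_cases hyb : y = b e
        · rw [hyb]
          exact Or.inl mb
        · have k := Wal_bm (A := A) he hyb (Ne.symm hne)
          rcases hch y hy _ h hyb with h1 | h1
          · exact Or.inr (k.1.1 h1)
          · exact Or.inl (k.2.1 h1)
      · intro h
        refine hmax _ fun y hy hne => ?_
        by_cases hym : y = m e
        · rw [hym]
          exact Or.inr mb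
        · have k := Wal_bm (A := A) he (Ne.symm hne) hym
          rcases hch y hy _ h hym with h1 | h1
          · exact Or.inr (k.1.2 h1)
          · exact Or.inl (k.2.2 h1)
    by_cases hm : m e ∈ C
    · rw [s0 _ hm, s0 _ (mem1.2 hm), s0 _ (mem2.2 hm)]
      exact ⟨rfl, rfl⟩
    · have ha : a e ∉ C := fun h => hm (mem1.1 h)
      have hb : b e ∉ C := fun h => hm (mem2.1 h)
      have hne : ∀ c ∈ C, c ≠ a e ∧ c ≠ m e ∧ c ≠ b e := fun c hc =>
        ⟨fun h => ha (h ▸ hc), fun h => hm (h ▸ hc), fun h => hb (h ▸ hc)⟩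
      have e1 : (∃ c ∈ C, Lf A D c (a e)) ↔ ∃ c ∈ C, Lf A D c (m e) := by
        constructor
        · rintro ⟨c, hc, h⟩
          obtain ⟨n1, n2, n3⟩ := hne c hc
          exact ⟨c, hc, (Wal_lf he n1 n2 n3).1.1 h⟩
        · rintro ⟨c, hc, h⟩
          obtain ⟨n1, n2, n3⟩ := hne c hc
          exact ⟨c, hc, (Wal_lf he n1 n2 n3).1.2 h⟩
      have e2 : (∃ c ∈ C, Lf A D c (b e)) ↔ ∃ c ∈ C, Lf A D c (m e) := by
        constructor
        · rintro ⟨c, hc, h⟩
          obtain ⟨n1, n2, n3⟩ := hne c hc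
          exact ⟨c, hc, (Wal_lf he n1 n2 n3).2.1 h⟩
        · rintro ⟨c, hc, h⟩
          obtain ⟨n1, n2, n3⟩ := hne c hc
          exact ⟨c, hc, (Wal_lf he n1 n2 n3).2.2 h⟩
      by_cases h : ∃ c ∈ C, Lf A D c (m e)
      · rw [s1 _ hm h, s1 _ ha (e1.2 h), s1 _ hb (e2.2 h)]
        exact ⟨rfl, rfl⟩
      · rw [s2 _ hm h, s2 _ ha (fun h' => h (e1.1 h')), s2 _ hb (fun h' => h (e2.1 h'))]
        exact ⟨rfl, rfl⟩

/-- Adding a wall. -/
theorem add_wall [Finite V] [Finite E] {q : ℕ} {s : Fin q → Y V E → ℤ} (h : Sta A D q s)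
    (S : Set V) (hS : ∀ x ∈ S, ∀ y ∈ S, x ≠ y → Lt A D (v x) (v y) ∨ Lt A D (v y) (v x)) :
    ∃ s0 : Y V E → ℤ, Sta A D (q + 1) (Fin.cons s0 s : Fin (q + 1) → Y V E → ℤ) ∧
      ∀ x ∈ S, s0 (v x) = 0 := by
  obtain ⟨s0, h1, h2, h3, h4⟩ := exists_side A D (v '' S) (by
    rintro _ ⟨x, hx, rfl⟩ _ ⟨y, hy, rfl⟩ hxy
    exact hS x hx y hy fun h => hxy (by rw [h]))
  refine ⟨s0, ?_, fun x hx => h2 _ ⟨x, hx, rfl⟩⟩
  constructor
  · intro c
    refine Fin.cases ?_ ?_ c
    · exact h1
    · exact h.rg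
  · intro c
    refine Fin.cases ?_ ?_ c
    · exact h3
    · exact h.w1
  · intro c
    refine Fin.cases ?_ ?_ c
    · exact h4
    · exact h.w2
  · intro f hf
    obtain ⟨c, hc⟩ := h.w3 f hf
    exact ⟨c.succ, by simpa using hc⟩
  · intro f hf
    obtain ⟨c, hc⟩ := h.w4 f hf
    exact ⟨c.succ, by simpa using hc⟩

end Pool.Agent.W_a4f561_h25
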